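import Pool.Agent.H963CF.L648.Prod

set_option autoImplicit false

namespace Pool.Agent.H963CF

open Set Topology Filter
open Pool.Agent.H963CF.L739.CT (Ctm ctm_union ctm_component clopen_nhd_component cutwire bump
  crossing_real sub_of_split ctm_iInter_directed const_of_int circle_exp_eq_one circle_exp_int
  log_unique)
open Pool.Agent.H963CF.L739.CG (Good unicoherent ctm_inter)

section Defs

variable {Y : Type*} [TopologicalSpace Y]

/-- `s` and `t` lie on the same level over `y` -/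
def Eqv (U : Set (Y × ℝ)) (y : Y) (s t : ℝ) : Prop := ∀ r ∈ uIcc s t, (y, r) ∈ U

/-- `s` is at or below the level of `t` -/
def Lev (U : Set (Y × ℝ)) (y : Y) (s t : ℝ) : Prop := s ≤ t ∨ Eqv U y s t

/-- the level of `s` is strictly below the level of `t` -/
def Ltv (U : Set (Y × ℝ)) (y : Y) (s t : ℝ) : Prop := s < t ∧ ¬ Eqv U y s t

/-- continuous section over `A` -/
def Sec (U : Set (Y × ℝ)) (A : Set Y) (h : Y → ℝ) : Prop :=
  Continuous h ∧ ∀ y ∈ A, (y, h y) ∈ U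

/-- the median of three numbers -/
noncomputable def med (a b c : ℝ) : ℝ := max (min a b) (min (max a b) c)

/-- the smallest subcontinuum containing `a` and `b` -/
def Kab (a b : Y) : Set Y := ⋂₀ {C | Ctm C ∧ a ∈ C ∧ b ∈ C}

end Defs

section Ord

variable {Y : Type*} {U : Set (Y × ℝ)} {y : Y} {a b c r s t : ℝ}

theorem Eqv.left (h : Eqv U y s t) : (y, s) ∈ U := h s left_mem_uIcc
theorem Eqv.right (h : Eqv U y s t) : (y, t) ∈ U := h t right_mem_uIcc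
theorem Eqv.symm (h : Eqv U y s t) : Eqv U y t s := fun r hr => h r (by rwa [uIcc_comm])
theorem Eqv.rfl' (h : (y, s) ∈ U) : Eqv U y s s := by
  intro r hr; rw [uIcc_self, mem_singleton_iff] at hr; rwa [hr]
theorem Eqv.trans (h : Eqv U y r s) (h' : Eqv U y s t) : Eqv U y r t := fun p hp => by
  rcases uIcc_subset_uIcc_union_uIcc (b := s) hp with h1 | h1
  · exact h p h1
  · exact h' p h1
theorem Eqv.of_mem (h : Eqv U y s t) (hr : r ∈ uIcc s t) : Eqv U y s r :=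
  fun p hp => h p (uIcc_subset_uIcc_left hr hp)
theorem Eqv.of_mem' (h : Eqv U y s t) (hr : r ∈ uIcc s t) : Eqv U y t r :=
  h.symm.of_mem (by rwa [uIcc_comm])

theorem Lev.of_eqv (h : Eqv U y s t) : Lev U y s t := Or.inr h
theorem Lev.of_le (h : s ≤ t) : Lev U y s t := Or.inl h
theorem not_lev : ¬ Lev U y s t ↔ Ltv U y t s := by
  unfold Lev Ltv
  constructor
  · intro h; push Not at h; exact ⟨h.1, fun h' => h.2 h'.symm⟩
  · rintro ⟨h1, h2⟩ (h | h)
    · exact absurd h1 (not_lt.2 h)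
    · exact h2 h.symm
theorem not_ltv : ¬ Ltv U y s t ↔ Lev U y t s := by
  rw [← not_lev, not_not]

end Ord

theorem isOpen_eqv {Y Z : Type*} [TopologicalSpace Y] [TopologicalSpace Z] {U : Set (Y × ℝ)}
    (hU : IsOpen U) {p : Z → Y} (hp : Continuous p) {s t : Z → ℝ} (hs : Continuous s)
    (ht : Continuous t) : IsOpen {z | Eqv U (p z) (s z) (t z)} := by
  have key : {z | Eqv U (p z) (s z) (t z)} =
      {z | ∀ l ∈ Icc (0:ℝ) 1, (p z, (1 - l) * s z + l * t z) ∈ U} := by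
    ext z
    simp only [mem_setOf_eq, Eqv]
    rw [← segment_eq_uIcc, segment_eq_image]
    constructor
    · intro h l hl
      exact h _ ⟨l, hl, by simp [smul_eq_mul]⟩
    · rintro h r ⟨l, hl, rfl⟩
      simpa [smul_eq_mul] using h l hl
  rw [key, isOpen_iff_mem_nhds]
  intro z hz
  have := (isCompact_Icc (a := (0:ℝ)) (b := 1)).eventually_forall_of_forall_eventually
    (x₀ := z) (P := fun z l => (p z, (1 - l) * s z + l * t z) ∈ U) ?_
  · exact this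
  · intro l hl
    have hc : Continuous (fun q : Z × ℝ => (p q.1, (1 - q.2) * s q.1 + q.2 * t q.1)) := by
      fun_prop
    exact (hU.preimage hc).mem_nhds (hz l hl)

theorem med_mem {a b c : ℝ} : med a b c ∈ uIcc a b ∧ med a b c ∈ uIcc a c ∧ med a b c ∈ uIcc b c ∧
    (med a b c = a ∨ med a b c = b ∨ med a b c = c) := by
  unfold med
  simp only [mem_uIcc]
  rcases le_total a b with h1 | h1 <;> rcases le_total a c with h2 | h2 <;> rcases le_total b c with h3 | h3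
  · rw [min_eq_left h1, max_eq_right h1, min_eq_left h3, max_eq_right h1]
    refine ⟨Or.inl ⟨h1, le_rfl⟩, Or.inl ⟨h1, h3⟩, Or.inl ⟨le_rfl, h3⟩, Or.inr (Or.inl rfl)⟩
  · rw [min_eq_left h1, max_eq_right h1, min_eq_right h3, max_eq_right h2]
    refine ⟨Or.inl ⟨h2, h3⟩, Or.inl ⟨h2, le_rfl⟩, Or.inr ⟨le_rfl, h3⟩, Or.inr (Or.inr rfl)⟩
  · have hbc : b = c := le_antisymm h3 (h2.trans h1)
    have hab : a = b := le_antisymm h1 (h3.trans h2)
    subst hab
    subst hbc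
    simp
  · rw [min_eq_left h1, max_eq_right h1, min_eq_right h3, max_eq_left h2]
    refine ⟨Or.inl ⟨le_rfl, h1⟩, Or.inr ⟨h2, le_rfl⟩, Or.inr ⟨h2, h1⟩, Or.inl rfl⟩
  · rw [min_eq_right h1, max_eq_left h1, min_eq_left h2, max_eq_right h1]
    refine ⟨Or.inr ⟨h1, le_rfl⟩, Or.inl ⟨le_rfl, h2⟩, Or.inl ⟨h1, h2⟩, Or.inl rfl⟩
  · have hac : a = c := le_antisymm h2 (h3.trans h1)
    have hab : a = b := le_antisymm (h2.trans h3) h1
    subst hab
    subst hac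
    simp
  · rw [min_eq_right h1, max_eq_left h1, min_eq_right h2, max_eq_right h3]
    refine ⟨Or.inr ⟨h3, h2⟩, Or.inr ⟨le_rfl, h2⟩, Or.inl ⟨h3, le_rfl⟩, Or.inr (Or.inr rfl)⟩
  · rw [min_eq_right h1, max_eq_left h1, min_eq_right h2, max_eq_left h3]
    refine ⟨Or.inr ⟨le_rfl, h1⟩, Or.inr ⟨h3, h1⟩, Or.inr ⟨h3, le_rfl⟩, Or.inr (Or.inl rfl)⟩

theorem Sec.med {Y : Type*} [TopologicalSpace Y] {U : Set (Y × ℝ)} {A : Set Y} {h k l : Y → ℝ}
    (hh : Sec U A h) (hk : Sec U A k) (hl : Sec U A l) :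
    Sec U A (fun y => med (h y) (k y) (l y)) := by
  refine ⟨?_, fun y hy => ?_⟩
  · exact (hh.1.min hk.1).max ((hh.1.max hk.1).min hl.1)
  · show (y, Pool.Agent.H963CF.med (h y) (k y) (l y)) ∈ U
    rcases (med_mem (a := h y) (b := k y) (c := l y)).2.2.2 with e | e | e
    · rw [e]; exact hh.2 y hy
    · rw [e]; exact hk.2 y hy
    · rw [e]; exact hl.2 y hy

theorem Sec.max {Y : Type*} [TopologicalSpace Y] {U : Set (Y × ℝ)} {A : Set Y} {h k : Y → ℝ}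
    (hh : Sec U A h) (hk : Sec U A k) : Sec U A (fun y => max (h y) (k y)) := by
  refine ⟨hh.1.max hk.1, fun y hy => ?_⟩
  show (y, Max.max (h y) (k y)) ∈ U
  rcases le_total (h y) (k y) with e | e
  · rw [max_eq_right e]; exact hk.2 y hy
  · rw [max_eq_left e]; exact hh.2 y hy

theorem Sec.min {Y : Type*} [TopologicalSpace Y] {U : Set (Y × ℝ)} {A : Set Y} {h k : Y → ℝ}
    (hh : Sec U A h) (hk : Sec U A k) : Sec U A (fun y => min (h y) (k y)) := by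
  refine ⟨hh.1.min hk.1, fun y hy => ?_⟩
  show (y, Min.min (h y) (k y)) ∈ U
  rcases le_total (h y) (k y) with e | e
  · rw [min_eq_left e]; exact hh.2 y hy
  · rw [min_eq_right e]; exact hk.2 y hy

theorem Sec.mono {Y : Type*} [TopologicalSpace Y] {U : Set (Y × ℝ)} {A B : Set Y} {h : Y → ℝ}
    (hh : Sec U A h) (hBA : B ⊆ A) : Sec U B h := ⟨hh.1, fun y hy => hh.2 y (hBA hy)⟩

theorem Sec.neg {Y : Type*} [TopologicalSpace Y] {U : Set (Y × ℝ)} {A : Set Y} {h : Y → ℝ}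
    (hh : Sec U A h) : Sec {p : Y × ℝ | (p.1, -p.2) ∈ U} A (fun y => - h y) :=
  ⟨hh.1.neg, fun y hy => by simpa using hh.2 y hy⟩

theorem lev_trans {Y : Type*} {U : Set (Y × ℝ)} {y : Y} {r s t : ℝ} (h : Lev U y s t)
    (h' : Lev U y t r) : Lev U y s r := by
  rcases h with h | h <;> rcases h' with h' | h'
  · exact Or.inl (h.trans h')
  · by_cases hsr : s ≤ r
    · exact Or.inl hsr
    · have hm : s ∈ uIcc t r := mem_uIcc.2 (Or.inr ⟨(not_le.1 hsr).le, h⟩)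
      exact Or.inr (h'.of_mem' hm).symm
  · by_cases hsr : s ≤ r
    · exact Or.inl hsr
    · have hm : r ∈ uIcc s t := mem_uIcc.2 (Or.inr ⟨h', (not_le.1 hsr).le⟩)
      exact Or.inr (h.of_mem hm)
  · exact Or.inr (h.trans h')

theorem lev_antisymm {Y : Type*} {U : Set (Y × ℝ)} {y : Y} {s t : ℝ} (h : Lev U y s t)
    (h' : Lev U y t s) (hs : (y, s) ∈ U) : Eqv U y s t := by
  rcases h with h | h
  · rcases h' with h' | h'
    · have e : s = t := le_antisymm h h'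
      rw [← e]
      exact Eqv.rfl' hs
    · exact h'.symm
  · exact h

theorem lev_total {Y : Type*} {U : Set (Y × ℝ)} {y : Y} (s t : ℝ) : Lev U y s t ∨ Lev U y t s := by
  rcases le_total s t with h | h
  · exact Or.inl (Or.inl h)
  · exact Or.inr (Or.inl h)

theorem lev_min_left {Y : Type*} {U : Set (Y × ℝ)} {y : Y} {a b c : ℝ} (h : Lev U y a c) :
    Lev U y (min a b) c := by
  exact lev_trans (Or.inl (min_le_left a b)) h

theorem lev_min_right {Y : Type*} {U : Set (Y × ℝ)} {y : Y} {a b c : ℝ} (h : Lev U y b c) :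
    Lev U y (min a b) c := by
  exact lev_trans (Or.inl (min_le_right a b)) h

theorem lev_max {Y : Type*} {U : Set (Y × ℝ)} {y : Y} {a b c : ℝ} (h : Lev U y a c)
    (h' : Lev U y b c) : Lev U y (max a b) c := by
  rcases max_choice a b with e | e <;> rw [e] <;> assumption

theorem lev_max_left {Y : Type*} {U : Set (Y × ℝ)} {y : Y} {a b c : ℝ} (h : Lev U y c a) :
    Lev U y c (max a b) := by
  exact lev_trans h (Or.inl (le_max_left a b))

theorem lev_max_right {Y : Type*} {U : Set (Y × ℝ)} {y : Y} {a b c : ℝ} (h : Lev U y c b) :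
    Lev U y c (max a b) := by
  exact lev_trans h (Or.inl (le_max_right a b))

theorem lev_min {Y : Type*} {U : Set (Y × ℝ)} {y : Y} {a b c : ℝ} (h : Lev U y c a)
    (h' : Lev U y c b) : Lev U y c (min a b) := by
  rcases min_choice a b with e | e <;> rw [e] <;> assumption

theorem eqv_min {Y : Type*} {U : Set (Y × ℝ)} {y : Y} {a b c : ℝ} (h : Eqv U y a c)
    (h' : Lev U y c b) : Eqv U y (min a b) c := by
  exact (lev_antisymm (lev_min (Or.inr h.symm) h') (lev_min_left (Or.inr h)) h.right).symm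

theorem eqv_max {Y : Type*} {U : Set (Y × ℝ)} {y : Y} {a b c : ℝ} (h : Eqv U y a c)
    (h' : Lev U y b c) : Eqv U y (max a b) c := by
  exact (lev_antisymm (lev_max_left (Or.inr h.symm)) (lev_max (Or.inr h) h') h.right).symm

theorem ltv_congr {Y : Type*} {U : Set (Y × ℝ)} {y : Y} {s s' t t' : ℝ} (h : Ltv U y s t)
    (hs : Lev U y s' s) (ht : Lev U y t t') : Ltv U y s' t' := by
  rw [← not_lev] at h ⊢
  intro h1
  exact h (lev_trans ht (lev_trans h1 hs))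

theorem crossing {Y : Type*} [TopologicalSpace Y] {U : Set (Y × ℝ)} {K : Set Y}
    {h k : Y → ℝ} (hh : Sec U K h) (hk : Sec U K k) (hK : IsPreconnected K) {a b : Y} (ha : a ∈ K)
    (hb : b ∈ K) (h1 : Lev U a (h a) (k a)) (h2 : Lev U b (k b) (h b)) :
    ∃ w ∈ K, Eqv U w (h w) (k w) := by
  rcases h1 with h1 | h1
  · rcases h2 with h2 | h2
    · obtain ⟨w, hw, hwe⟩ := hK.intermediate_value₂ ha hb hh.1.continuousOn hk.1.continuousOn h1 h2
      refine ⟨w, hw, ?_⟩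
      rw [← hwe]
      exact Eqv.rfl' (hh.2 w hw)
    · exact ⟨b, hb, h2.symm⟩
  · exact ⟨a, ha, h1⟩

theorem glue {Y : Type*} [MetricSpace Y] {U : Set (Y × ℝ)} (hU : IsOpen U) {C1 C2 : Set Y}
    (hC1 : IsClosed C1) (hC2 : IsClosed C2) {h1 h2 : Y → ℝ} (hs1 : Sec U C1 h1)
    (hs2 : Sec U C2 h2) (he : ∀ y ∈ C1 ∩ C2, Eqv U y (h1 y) (h2 y)) :
    ∃ h, Sec U (C1 ∪ C2) h ∧ (∀ y ∈ C1, Eqv U y (h1 y) (h y)) ∧
      (∀ y ∈ C2, Eqv U y (h2 y) (h y)) ∧ ∀ y, h y ∈ uIcc (h1 y) (h2 y) := by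
  have hN : IsOpen {y | Eqv U y (h1 y) (h2 y)} := isOpen_eqv hU continuous_id hs1.1 hs2.1
  set N : Set Y := {y | Eqv U y (h1 y) (h2 y)} with hNdef
  have hA : IsClosed (C1 \ N) := by
    rw [Set.sdiff_eq]; exact hC1.inter hN.isClosed_compl
  have hB : IsClosed (C2 \ N) := by
    rw [Set.sdiff_eq]; exact hC2.inter hN.isClosed_compl
  have hd : Disjoint (C1 \ N) (C2 \ N) := by
    rw [Set.disjoint_left]
    rintro y ⟨hy1, hyN⟩ ⟨hy2, _⟩
    exact hyN (he y ⟨hy1, hy2⟩)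
  obtain ⟨l, hl0, hl1, hl⟩ := exists_continuous_zero_one_of_isClosed hA hB hd
  have hmem : ∀ y, (1 - l y) * h1 y + l y * h2 y ∈ uIcc (h1 y) (h2 y) := by
    intro y
    rw [← segment_eq_uIcc]
    exact ⟨1 - l y, l y, by linarith [(hl y).2], (hl y).1, by ring, by simp [smul_eq_mul]⟩
  have k1 : ∀ y ∈ C1, Eqv U y (h1 y) ((1 - l y) * h1 y + l y * h2 y) := by
    intro y hy
    by_cases hyN : y ∈ N
    · exact Eqv.of_mem hyN (hmem y)
    · have h0 : l y = 0 := hl0 ⟨hy, hyN⟩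
      rw [h0]
      simp only [sub_zero, one_mul, zero_mul, add_zero]
      exact Eqv.rfl' (hs1.2 y hy)
  have k2 : ∀ y ∈ C2, Eqv U y (h2 y) ((1 - l y) * h1 y + l y * h2 y) := by
    intro y hy
    by_cases hyN : y ∈ N
    · exact Eqv.of_mem' hyN (hmem y)
    · have h0 : l y = 1 := hl1 ⟨hy, hyN⟩
      rw [h0]
      simp only [sub_self, zero_mul, one_mul, zero_add]
      exact Eqv.rfl' (hs2.2 y hy)
  refine ⟨fun y => (1 - l y) * h1 y + l y * h2 y, ⟨?_, ?_⟩, k1, k2, hmem⟩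
  · have c1 := hs1.1
    have c2 := hs2.1
    have cl := l.continuous
    fun_prop
  · rintro y (hy | hy)
    · exact (k1 y hy).right
    · exact (k2 y hy).right

theorem splice {Y : Type*} [MetricSpace Y] [CompactSpace Y] {U : Set (Y × ℝ)} (hU : IsOpen U)
    {Q : Set Y} (hQ : IsClosed Q) {h k : Y → ℝ} (hh : Sec U Q h) (hk : Sec U Q k) {T1 T2 : Set Y}
    (hT1 : IsClosed T1) (hT2 : IsClosed T2)
    (hcut : ∀ K ⊆ Q, Ctm K → (K ∩ T1).Nonempty → (K ∩ T2).Nonempty →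
      ∃ w ∈ K, Eqv U w (h w) (k w)) :
    ∃ s, Sec U Q s ∧ (∀ y ∈ Q, Eqv U y (h y) (s y) ∨ Eqv U y (k y) (s y)) ∧
      (∀ y ∈ T1 ∩ Q, Eqv U y (h y) (s y)) ∧ (∀ y ∈ T2 ∩ Q, Eqv U y (k y) (s y)) ∧
      ∀ y, s y ∈ uIcc (h y) (k y) := by
  have hO : IsOpen {y : Y | Eqv U y (h y) (k y)} := isOpen_eqv hU continuous_id hh.1 hk.1
  have hΦ : IsCompact (Q \ {y : Y | Eqv U y (h y) (k y)}) := by
    have h1 : IsClosed (Q ∩ {y : Y | Eqv U y (h y) (k y)}ᶜ) := hQ.inter hO.isClosed_compl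
    exact h1.isCompact
  obtain ⟨P, R, hP, hR, hPR, hd, h1, h2⟩ := cutwire hΦ hT1 hT2 (by
    intro K hK hKc hK1 hK2
    obtain ⟨w, hw, hw'⟩ := hcut K (fun y hy => (hK hy).1) hKc hK1 hK2
    exact (hK hw).2 hw')
  obtain ⟨l, hl0, hl1, hl⟩ := exists_continuous_zero_one_of_isClosed hP.isClosed hR.isClosed hd
  obtain ⟨s, hs⟩ : ∃ s : Y → ℝ, s = fun y => (1 - l y) * h y + l y * k y := ⟨_, rfl⟩
  have hsc : Continuous s := by
    rw [hs]
    exact ((continuous_const.sub l.continuous).mul hh.1).add (l.continuous.mul hk.1)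
  have hsu : ∀ y, s y ∈ uIcc (h y) (k y) := by
    intro y
    rw [hs, mem_uIcc]
    have hl' := hl y
    rcases le_total (h y) (k y) with h3 | h3
    · left
      constructor
      · nlinarith [hl'.1, hl'.2]
      · nlinarith [hl'.1, hl'.2]
    · right
      constructor
      · nlinarith [hl'.1, hl'.2]
      · nlinarith [hl'.1, hl'.2]
  have hsP : ∀ y ∈ P, s y = h y := by
    intro y hy
    have h3 : l y = 0 := hl0 hy
    rw [hs]
    show (1 - l y) * h y + l y * k y = h y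
    rw [h3]
    ring
  have hsR : ∀ y ∈ R, s y = k y := by
    intro y hy
    have h3 : l y = 1 := hl1 hy
    rw [hs]
    show (1 - l y) * h y + l y * k y = k y
    rw [h3]
    ring
  have hsO : ∀ y, Eqv U y (h y) (k y) → Eqv U y (h y) (s y) ∧ Eqv U y (k y) (s y) :=
    fun y hy => ⟨hy.of_mem (hsu y), hy.of_mem' (hsu y)⟩
  have hcase : ∀ y ∈ Q, Eqv U y (h y) (k y) ∨ y ∈ P ∨ y ∈ R := by
    intro y hy
    by_cases h3 : Eqv U y (h y) (k y)
    · exact Or.inl h3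
    · have h4 : y ∈ P ∪ R := by
        rw [hPR]
        exact ⟨hy, h3⟩
      exact Or.inr h4
  have hmain : ∀ y ∈ Q, Eqv U y (h y) (s y) ∨ Eqv U y (k y) (s y) := by
    intro y hy
    rcases hcase y hy with h3 | h3 | h3
    · exact Or.inl (hsO y h3).1
    · left
      rw [hsP y h3]
      exact Eqv.rfl' (hh.2 y hy)
    · right
      rw [hsR y h3]
      exact Eqv.rfl' (hk.2 y hy)
  refine ⟨s, ⟨hsc, fun y hy => ?_⟩, hmain, ?_, ?_, hsu⟩
  · rcases hmain y hy with h3 | h3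
    · exact h3.right
    · exact h3.right
  · intro y hy
    by_cases h3 : Eqv U y (h y) (k y)
    · exact (hsO y h3).1
    · have h4 : y ∈ P := h1 ⟨⟨hy.2, h3⟩, hy.1⟩
      rw [hsP y h4]
      exact Eqv.rfl' (hh.2 y hy.2)
  · intro y hy
    by_cases h3 : Eqv U y (h y) (k y)
    · exact (hsO y h3).2
    · have h4 : y ∈ R := h2 ⟨⟨hy.2, h3⟩, hy.1⟩
      rw [hsR y h4]
      exact Eqv.rfl' (hk.2 y hy.2)

theorem multi {Y : Type*} [MetricSpace Y] {U : Set (Y × ℝ)} (hU : IsOpen U)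
    {P : Set Y} {κ : Y → ℝ} (hκ : Sec U P κ) (v : Y → ℝ) (F : Set Y) {S : Set Y} (hS : IsCompact S)
    (hne : ∃ k, Sec U P k ∧ ∀ y ∈ F, Eqv U y (v y) (k y))
    (h : ∀ s ∈ S, ∃ k, Sec U P k ∧ (∀ y ∈ F, Eqv U y (v y) (k y)) ∧ Eqv U s (κ s) (k s)) :
    ∃ k, Sec U P k ∧ (∀ y ∈ F, Eqv U y (v y) (k y)) ∧ ∀ s ∈ S, Eqv U s (κ s) (k s) := by
  refine hS.induction_on (p := fun S' => ∃ k, Sec U P k ∧ (∀ y ∈ F, Eqv U y (v y) (k y)) ∧
    ∀ s ∈ S', Eqv U s (κ s) (k s)) ?_ ?_ ?_ ?_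
  · obtain ⟨k, hk, hkF⟩ := hne
    exact ⟨k, hk, hkF, fun s hs => absurd hs (Set.notMem_empty s)⟩
  · rintro s t hst ⟨k, hk, hkF, hkt⟩
    exact ⟨k, hk, hkF, fun x hx => hkt x (hst hx)⟩
  · rintro s t ⟨k, hk, hkF, hks⟩ ⟨l, hl, hlF, hlt⟩
    refine ⟨fun y => med (k y) (l y) (κ y), Sec.med hk hl hκ, ?_, ?_⟩
    · intro y hy
      have h1 := hkF y hy
      have h2 := hlF y hy
      have h3 : Eqv U y (k y) (l y) := h1.symm.trans h2
      exact h1.trans (h3.of_mem (med_mem (c := κ y)).1)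
    · rintro x (hx | hx)
      · have h1 := hks x hx
        have h2 : med (k x) (l x) (κ x) ∈ uIcc (κ x) (k x) := by
          rw [uIcc_comm]
          exact (med_mem (a := k x) (b := l x) (c := κ x)).2.1
        exact h1.of_mem h2
      · have h1 := hlt x hx
        have h2 : med (k x) (l x) (κ x) ∈ uIcc (κ x) (l x) := by
          rw [uIcc_comm]
          exact (med_mem (a := k x) (b := l x) (c := κ x)).2.2.1
        exact h1.of_mem h2
  · intro x hx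
    obtain ⟨k, hk, hkF, hkx⟩ := h x hx
    refine ⟨{y | Eqv U y (κ y) (k y)}, ?_, k, hk, hkF, fun y hy => hy⟩
    exact mem_nhdsWithin_of_mem_nhds
      ((isOpen_eqv hU continuous_id hκ.1 hk.1).mem_nhds hkx)

theorem top2_step1 {Y : Type*} [MetricSpace Y] {U : Set (Y × ℝ)} (hU : IsOpen U)
    {P S : Set Y} (hS : IsCompact S) {t : Y → ℝ} (ht : Sec U S t)
    (h : ∀ a ∈ S, ∀ b ∈ S, ∃ k, Sec U P k ∧ Eqv U a (t a) (k a) ∧ Lev U b (k b) (t b))
    (a : Y) (ha : a ∈ S) :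
    ∃ k, Sec U P k ∧ Eqv U a (t a) (k a) ∧ ∀ b ∈ S, Lev U b (k b) (t b) := by
  have key : ∃ k, Sec U P k ∧ Eqv U a (t a) (k a) ∧ ∀ b ∈ S ∩ S, Lev U b (k b) (t b) := by
    refine hS.induction_on (p := fun S' => ∃ k, Sec U P k ∧ Eqv U a (t a) (k a) ∧
      ∀ b ∈ S' ∩ S, Lev U b (k b) (t b)) ?_ ?_ ?_ ?_
    · obtain ⟨k, hk, hk1, -⟩ := h a ha a ha
      exact ⟨k, hk, hk1, fun b hb => absurd hb.1 (notMem_empty b)⟩
    · rintro s s' hss ⟨k, hk, hk1, hk2⟩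
      exact ⟨k, hk, hk1, fun b hb => hk2 b ⟨hss hb.1, hb.2⟩⟩
    · rintro s s' ⟨k, hk, hk1, hk2⟩ ⟨l, hl, hl1, hl2⟩
      refine ⟨fun y => min (k y) (l y), hk.min hl, ?_, ?_⟩
      · show Eqv U a (t a) (min (k a) (l a))
        rcases min_choice (k a) (l a) with e | e
        · rw [e]; exact hk1
        · rw [e]; exact hl1
      · rintro b ⟨hb | hb, hbS⟩
        · exact lev_min_left (hk2 b ⟨hb, hbS⟩)
        · exact lev_min_right (hl2 b ⟨hb, hbS⟩)
    · intro b hb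
      obtain ⟨k, hk, hk1, hk2⟩ := h a ha b hb
      have ho1 : IsOpen {y | k y < t y} := isOpen_lt hk.1 ht.1
      have ho2 : IsOpen {y | Eqv U y (k y) (t y)} := isOpen_eqv hU continuous_id hk.1 ht.1
      have hcase : k b < t b ∨ Eqv U b (k b) (t b) := by
        rcases hk2 with h1 | h1
        · rcases h1.lt_or_eq with h2 | h2
          · exact Or.inl h2
          · right
            rw [h2]
            exact Eqv.rfl' (ht.2 b hb)
        · exact Or.inr h1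
      rcases hcase with h1 | h1
      · refine ⟨{y | k y < t y}, mem_nhdsWithin_of_mem_nhds (ho1.mem_nhds h1), k, hk, hk1, ?_⟩
        intro y hy
        exact Or.inl (le_of_lt hy.1)
      · refine ⟨{y | Eqv U y (k y) (t y)}, mem_nhdsWithin_of_mem_nhds (ho2.mem_nhds h1), k, hk,
          hk1, ?_⟩
        intro y hy
        exact Or.inr hy.1
  obtain ⟨k, hk, hk1, hk2⟩ := key
  exact ⟨k, hk, hk1, fun b hb => hk2 b ⟨hb, hb⟩⟩

theorem top2 {Y : Type*} [MetricSpace Y] {U : Set (Y × ℝ)} (hU : IsOpen U)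
    {P S : Set Y} (hS : IsCompact S) (hne : S.Nonempty) {t : Y → ℝ} (ht : Sec U S t)
    (h : ∀ a ∈ S, ∀ b ∈ S, ∃ k, Sec U P k ∧ Eqv U a (t a) (k a) ∧ Lev U b (k b) (t b)) :
    ∃ k, Sec U P k ∧ ∀ s ∈ S, Eqv U s (t s) (k s) := by
  obtain ⟨a0, ha0⟩ := hne
  have key : ∃ k, Sec U P k ∧ (∀ b ∈ S, Lev U b (k b) (t b)) ∧
      ∀ b ∈ S ∩ S, Eqv U b (t b) (k b) := by
    refine hS.induction_on (p := fun S' => ∃ k, Sec U P k ∧ (∀ b ∈ S, Lev U b (k b) (t b)) ∧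
      ∀ b ∈ S' ∩ S, Eqv U b (t b) (k b)) ?_ ?_ ?_ ?_
    · obtain ⟨k, hk, -, hk2⟩ := top2_step1 hU hS ht h a0 ha0
      exact ⟨k, hk, hk2, fun b hb => absurd hb.1 (notMem_empty b)⟩
    · rintro s s' hss ⟨k, hk, hk1, hk2⟩
      exact ⟨k, hk, hk1, fun b hb => hk2 b ⟨hss hb.1, hb.2⟩⟩
    · rintro s s' ⟨k, hk, hk1, hk2⟩ ⟨l, hl, hl1, hl2⟩
      refine ⟨fun y => max (k y) (l y), hk.max hl, fun b hb => lev_max (hk1 b hb) (hl1 b hb), ?_⟩
      rintro b ⟨hb | hb, hbS⟩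
      · exact (eqv_max (hk2 b ⟨hb, hbS⟩).symm (hl1 b hbS)).symm
      · show Eqv U b (t b) (max (k b) (l b))
        rw [max_comm]
        exact (eqv_max (hl2 b ⟨hb, hbS⟩).symm (hk1 b hbS)).symm
    · intro x hx
      obtain ⟨k, hk, hk1, hk2⟩ := top2_step1 hU hS ht h x hx
      have ho : IsOpen {y | Eqv U y (t y) (k y)} := isOpen_eqv hU continuous_id ht.1 hk.1
      exact ⟨{y | Eqv U y (t y) (k y)}, mem_nhdsWithin_of_mem_nhds (ho.mem_nhds hk1), k, hk, hk2,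
        fun y hy => hy.1⟩
  obtain ⟨k, hk, -, hk2⟩ := key
  exact ⟨k, hk, fun s hs => hk2 s ⟨hs, hs⟩⟩

theorem ext_comp {Y : Type*} [MetricSpace Y] [CompactSpace Y] {U : Set (Y × ℝ)} (hU : IsOpen U)
    {J G : Set Y} (hJ : IsCompact J) (hG : IsOpen G) {y0 : Y} (hy0 : y0 ∈ J \ G) {k κ : Y → ℝ}
    (hk : Sec U (connectedComponentIn (J \ G) y0) k) (hκ : Sec U J κ)
    (he : ∀ y ∈ connectedComponentIn (J \ G) y0 ∩ closure G, Eqv U y (κ y) (k y)) :
    ∃ κ', Sec U J κ' ∧ ∀ y ∈ connectedComponentIn (J \ G) y0, Eqv U y (k y) (κ' y) := by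
  obtain ⟨B, hBdef⟩ : ∃ B : Set Y, B = {y | (y, k y) ∉ U} ∪
      (closure G ∩ {y | ¬ Eqv U y (κ y) (k y)}) := ⟨_, rfl⟩
  have hB : IsClosed B := by
    rw [hBdef]
    apply IsClosed.union
    · have h1 : IsClosed ((fun y : Y => (y, k y)) ⁻¹' Uᶜ) :=
        hU.isClosed_compl.preimage (continuous_id.prodMk hk.1)
      exact h1
    · apply isClosed_closure.inter
      have h1 := (isOpen_eqv hU (p := fun y : Y => y) continuous_id hκ.1 hk.1).isClosed_compl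
      exact h1
  have hmemB : ∀ y, y ∉ B → (y, k y) ∈ U ∧ (y ∈ closure G → Eqv U y (κ y) (k y)) := by
    intro y hy
    rw [hBdef] at hy
    constructor
    · by_contra h
      exact hy (Or.inl h)
    · intro hg
      by_contra h
      exact hy (Or.inr ⟨hg, h⟩)
  have hdisj : connectedComponentIn (J \ G) y0 ∩ B = ∅ := by
    ext y
    constructor
    · rintro ⟨h1, h2⟩
      rw [hBdef] at h2
      rcases h2 with h2 | ⟨h2, h3⟩
      · exact (h2 (hk.2 y h1)).elim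
      · exact (h3 (he y ⟨h1, h2⟩)).elim
    · intro h
      exact h.elim
  obtain ⟨P', Q', hP', hQ', hPQ, hd, hsub, hBQ⟩ :=
    clopen_nhd_component (hJ.diff hG) hy0 hB hdisj
  have hP'J : P' ⊆ J \ G := hPQ ▸ subset_union_left
  have hQ'J : Q' ⊆ J \ G := hPQ ▸ subset_union_right
  have hP'B : ∀ y ∈ P', y ∉ B := fun y hy hyB =>
    Set.disjoint_left.1 hd hy (hBQ ⟨hP'J hy, hyB⟩)
  have hJc : IsClosed J := hJ.isClosed
  have hC2 : IsClosed (Q' ∪ (J ∩ closure G)) := hQ'.isClosed.union (hJc.inter isClosed_closure)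
  have hs1 : Sec U P' k := ⟨hk.1, fun y hy => (hmemB y (hP'B y hy)).1⟩
  have hs2 : Sec U (Q' ∪ (J ∩ closure G)) κ := by
    apply hκ.mono
    rintro y (hy | hy)
    · exact (hQ'J hy).1
    · exact hy.1
  obtain ⟨h, hh1, hh2, _, _⟩ := glue hU hP'.isClosed hC2 hs1 hs2 (by
    rintro y ⟨hy1, hy2 | hy2⟩
    · exact (Set.disjoint_left.1 hd hy1 hy2).elim
    · exact ((hmemB y (hP'B y hy1)).2 hy2.2).symm)
  refine ⟨h, hh1.mono ?_, fun y hy => hh2 y (hsub hy)⟩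
  intro y hy
  by_cases hyG : y ∈ G
  · exact Or.inr (Or.inr ⟨hy, subset_closure hyG⟩)
  · have h1 : y ∈ P' ∪ Q' := by rw [hPQ]; exact ⟨hy, hyG⟩
    rcases h1 with h1 | h1
    · exact Or.inl h1
    · exact Or.inr (Or.inl h1)

theorem ext_all_local {Y : Type*} [MetricSpace Y] [CompactSpace Y] {U : Set (Y × ℝ)}
    (hU : IsOpen U) {Φ G : Set Y} (hΦ : IsCompact Φ) {T : Y → ℝ} (hTc : Continuous T)
    {y0 : Y} (hy0 : y0 ∈ Φ) {k : Y → ℝ} (hk : Sec U (connectedComponentIn Φ y0) k)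
    (he : ∀ y ∈ connectedComponentIn Φ y0 ∩ closure G, Eqv U y (T y) (k y)) :
    ∃ C : Set Y, IsCompact C ∧ C ⊆ Φ ∧ IsCompact (Φ \ C) ∧ C ∈ 𝓝[Φ] y0 ∧ Sec U C k ∧
      ∀ y ∈ C ∩ closure G, Eqv U y (T y) (k y) := by
  have ho1 : IsOpen {y : Y | (y, k y) ∈ U} := hU.preimage (continuous_id.prodMk hk.1)
  have ho2 : IsOpen {y : Y | Eqv U y (T y) (k y)} := isOpen_eqv hU continuous_id hTc hk.1
  have hB : IsClosed ({y : Y | (y, k y) ∈ U}ᶜ ∪ (closure G ∩ {y : Y | Eqv U y (T y) (k y)}ᶜ)) :=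
    ho1.isClosed_compl.union (isClosed_closure.inter ho2.isClosed_compl)
  have hdisj : connectedComponentIn Φ y0 ∩
      ({y : Y | (y, k y) ∈ U}ᶜ ∪ (closure G ∩ {y : Y | Eqv U y (T y) (k y)}ᶜ)) = ∅ := by
    rw [Set.eq_empty_iff_forall_notMem]
    rintro y ⟨hy, h1 | ⟨h1, h2⟩⟩
    · exact h1 (hk.2 y hy)
    · exact h2 (he y ⟨hy, h1⟩)
  obtain ⟨P, Q, hP, hQ, hPQ, hd, hcP, hBQ⟩ := clopen_nhd_component hΦ hy0 hB hdisj
  have hnB : ∀ y ∈ P, y ∉ ({y : Y | (y, k y) ∈ U}ᶜ ∪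
      (closure G ∩ {y : Y | Eqv U y (T y) (k y)}ᶜ)) := by
    intro y hy hyB
    have hyΦ : y ∈ Φ := hPQ ▸ Or.inl hy
    exact Set.disjoint_left.1 hd hy (hBQ ⟨hyΦ, hyB⟩)
  refine ⟨P, hP, hPQ ▸ Set.subset_union_left, ?_, ?_, ⟨hk.1, ?_⟩, ?_⟩
  · have : Φ \ P = Q := by
      rw [← hPQ, Set.union_diff_left]
      exact hd.symm.sdiff_eq_left
    rw [this]
    exact hQ
  · have hy0P : y0 ∈ P := hcP (mem_connectedComponentIn hy0)
    have : Qᶜ ∩ Φ ∈ 𝓝[Φ] y0 :=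
      Filter.inter_mem (mem_nhdsWithin_of_mem_nhds (hQ.isClosed.isOpen_compl.mem_nhds
        (fun h => Set.disjoint_left.1 hd hy0P h))) self_mem_nhdsWithin
    refine Filter.mem_of_superset this ?_
    rintro y ⟨hyQ, hyΦ⟩
    rw [← hPQ] at hyΦ
    exact hyΦ.resolve_right hyQ
  · intro y hy
    by_contra h
    exact hnB y hy (Or.inl h)
  · rintro y ⟨hy, hyG⟩
    by_contra h
    exact hnB y hy (Or.inr ⟨hyG, h⟩)

theorem ext_all {Y : Type*} [MetricSpace Y] [CompactSpace Y] {U : Set (Y × ℝ)} (hU : IsOpen U)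
    {J G : Set Y} (hJ : IsCompact J) (hG : IsOpen G) {T : Y → ℝ} (hT : Sec U (J ∩ closure G) T)
    (h : ∀ y0 ∈ J \ G, ∃ k, Sec U (connectedComponentIn (J \ G) y0) k ∧
      ∀ y ∈ connectedComponentIn (J \ G) y0 ∩ closure G, Eqv U y (T y) (k y)) :
    ∃ κ, Sec U J κ ∧ ∀ y ∈ J ∩ closure G, Eqv U y (T y) (κ y) := by
  have hΦ : IsCompact (J \ G) := hJ.diff hG
  have key : ∃ (C : Set Y) (k : Y → ℝ), IsCompact C ∧ C ⊆ J \ G ∧ IsCompact ((J \ G) \ C) ∧
      (J \ G) ∩ (J \ G) ⊆ C ∧ Sec U C k ∧ ∀ y ∈ C ∩ closure G, Eqv U y (T y) (k y) := by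
    refine hΦ.induction_on (p := fun S => ∃ (C : Set Y) (k : Y → ℝ), IsCompact C ∧
      C ⊆ J \ G ∧ IsCompact ((J \ G) \ C) ∧
      S ∩ (J \ G) ⊆ C ∧ Sec U C k ∧ ∀ y ∈ C ∩ closure G, Eqv U y (T y) (k y)) ?_ ?_ ?_ ?_
    · refine ⟨∅, fun _ => 0, isCompact_empty, Set.empty_subset _, by simpa using hΦ, by simp,
        ⟨continuous_const, fun y hy => absurd hy (Set.notMem_empty y)⟩, ?_⟩
      rintro y ⟨hy, _⟩
      exact absurd hy (Set.notMem_empty y)
    · rintro S S' hSS ⟨C, k, h1, h2, h3, h4, h5, h6⟩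
      exact ⟨C, k, h1, h2, h3, (Set.inter_subset_inter_left _ hSS).trans h4, h5, h6⟩
    · rintro S S' ⟨C, k, h1, h2, h3, h4, h5, h6⟩ ⟨C', k', h1', h2', h3', h4', h5', h6'⟩
      have hD : IsCompact (C' ∩ ((J \ G) \ C)) := h1'.inter h3
      have hCD : C ∪ C' = C ∪ (C' ∩ ((J \ G) \ C)) := by
        ext y
        constructor
        · rintro (hy | hy)
          · exact Or.inl hy
          · by_cases hyC : y ∈ C
            · exact Or.inl hyC
            · exact Or.inr ⟨hy, h2' hy, hyC⟩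
        · rintro (hy | hy)
          · exact Or.inl hy
          · exact Or.inr hy.1
      obtain ⟨g, hg1, hg2, hg3, _⟩ := glue hU h1.isClosed hD.isClosed h5
        (h5'.mono Set.inter_subset_left) (by
          rintro y ⟨hy, hy'⟩
          exact absurd hy hy'.2.2)
      refine ⟨C ∪ C', g, h1.union h1', Set.union_subset h2 h2', ?_, ?_, ?_, ?_⟩
      · rw [← Set.diff_inter_diff]
        exact h3.inter h3'
      · rintro y ⟨hy | hy, hyΦ⟩
        · exact Or.inl (h4 ⟨hy, hyΦ⟩)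
        · exact Or.inr (h4' ⟨hy, hyΦ⟩)
      · rw [hCD]
        exact hg1
      · rw [hCD]
        rintro y ⟨hy | hy, hyG⟩
        · exact (h6 y ⟨hy, hyG⟩).trans (hg2 y hy)
        · exact (h6' y ⟨hy.1, hyG⟩).trans (hg3 y hy)
    · intro y0 hy0
      obtain ⟨k, hk, he⟩ := h y0 hy0
      obtain ⟨C, h1, h2, h3, h4, h5, h6⟩ := ext_all_local hU hΦ hT.1 hy0 hk he
      exact ⟨C, h4, C, k, h1, h2, h3, Set.inter_subset_left, h5, h6⟩
  obtain ⟨C, k, h1, h2, h3, h4, h5, h6⟩ := key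
  rw [Set.inter_self] at h4
  have hC : C = J \ G := Set.Subset.antisymm h2 h4
  subst hC
  obtain ⟨g, hg1, hg2, hg3, _⟩ := glue hU h1.isClosed (hJ.isClosed.inter isClosed_closure) h5 hT
    (by
      rintro y ⟨hy, hy'⟩
      exact (h6 y ⟨hy, hy'.2⟩).symm)
  refine ⟨g, hg1.mono ?_, hg3⟩
  intro y hy
  by_cases hyG : y ∈ G
  · exact Or.inr ⟨hy, subset_closure hyG⟩
  · exact Or.inl ⟨hy, hyG⟩

end Pool.Agent.H963CF
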