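import Pool.Agent.H963CF.A

set_option autoImplicit false

namespace Pool.Agent.H963CF

open Set Topology Filter
open Pool.Agent.H963CF.L739.CT (Ctm ctm_union ctm_component clopen_nhd_component cutwire bump
  crossing_real sub_of_split ctm_iInter_directed const_of_int circle_exp_eq_one circle_exp_int
  log_unique)
open Pool.Agent.H963CF.L739.CG (Good unicoherent ctm_inter)

theorem kab_subset {Y : Type*} [TopologicalSpace Y] {a b : Y} {C : Set Y} (hC : Ctm C)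
    (ha : a ∈ C) (hb : b ∈ C) : Kab a b ⊆ C :=
  sInter_subset_of_mem ⟨hC, ha, hb⟩

theorem left_mem_kab {Y : Type*} [TopologicalSpace Y] (a b : Y) : a ∈ Kab a b :=
  mem_sInter.2 fun _ hC => hC.2.1

theorem right_mem_kab {Y : Type*} [TopologicalSpace Y] (a b : Y) : b ∈ Kab a b :=
  mem_sInter.2 fun _ hC => hC.2.2

theorem kab_comm {Y : Type*} [TopologicalSpace Y] (a b : Y) : Kab a b = Kab b a := by
  unfold Kab
  congr 1
  ext C
  simp only [mem_setOf_eq]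
  tauto

theorem kab_self {Y : Type*} [TopologicalSpace Y] (a : Y) : Kab a a = {a} := by
  apply Subset.antisymm
  · exact kab_subset ⟨isCompact_singleton, isConnected_singleton⟩ rfl rfl
  · exact singleton_subset_iff.2 (left_mem_kab a a)

theorem ctm_kab {Y : Type*} [MetricSpace Y] [CompactSpace Y] [ConnectedSpace Y] (hG : Good Y)
    (a b : Y) : Ctm (Kab a b) := by
  unfold Kab
  rw [sInter_eq_iInter]
  haveI : Nonempty {C : Set Y | Ctm C ∧ a ∈ C ∧ b ∈ C} :=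
    ⟨⟨univ, ⟨isCompact_univ, isConnected_univ⟩, mem_univ _, mem_univ _⟩⟩
  refine ctm_iInter_directed ?_ ?_
  · rintro ⟨C, hC, haC, hbC⟩ ⟨D, hD, haD, hbD⟩
    exact ⟨⟨C ∩ D, ctm_inter hG hC hD ⟨a, haC, haD⟩, ⟨haC, haD⟩, ⟨hbC, hbD⟩⟩,
      inter_subset_left, inter_subset_right⟩
  · rintro ⟨C, hC, haC, hbC⟩
    exact hC

theorem kab_subset_kab {Y : Type*} [MetricSpace Y] [CompactSpace Y] [ConnectedSpace Y]
    (hG : Good Y) {a b c d : Y} (hc : c ∈ Kab a b) (hd : d ∈ Kab a b) : Kab c d ⊆ Kab a b :=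
  kab_subset (ctm_kab hG a b) hc hd

theorem kab_tri {Y : Type*} [MetricSpace Y] [CompactSpace Y] [ConnectedSpace Y] (hG : Good Y)
    (a b c : Y) : Kab a c ⊆ Kab a b ∪ Kab b c :=
  kab_subset (ctm_union (ctm_kab hG a b) (ctm_kab hG b c)
    ⟨b, right_mem_kab a b, left_mem_kab b c⟩) (Or.inl (left_mem_kab a b)) (Or.inr (right_mem_kab b c))

theorem exists_kab_min {Y : Type*} [MetricSpace Y] [CompactSpace Y] [ConnectedSpace Y]
    (hG : Good Y) {Z : Set Y} (hZ : IsCompact Z) (hne : Z.Nonempty) (a : Y) :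
    ∃ z ∈ Z, ∀ z' ∈ Z, z' ∈ Kab a z → Kab a z' = Kab a z := by
  obtain ⟨z0, hz0⟩ := hne
  obtain ⟨m, -, hm⟩ := zorn_superset_nonempty {C : Set Y | ∃ z ∈ Z, C = Kab a z} (by
    intro c hc hch hcn
    have hcl : ∀ C ∈ c, IsClosed C := by
      intro C hC
      obtain ⟨z, -, rfl⟩ := hc hC
      exact (ctm_kab hG a z).1.isClosed
    haveI : Nonempty c := hcn.to_subtype
    have hint : (⋂ C : c, (Z ∩ (C : Set Y))).Nonempty := by
      apply IsCompact.nonempty_iInter_of_directed_nonempty_isCompact_isClosed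
      · intro C D
        rcases hch.total C.2 D.2 with h | h
        · exact ⟨C, Set.Subset.rfl, Set.inter_subset_inter_right _ h⟩
        · exact ⟨D, Set.inter_subset_inter_right _ h, Set.Subset.rfl⟩
      · rintro ⟨C, hC⟩
        obtain ⟨z, hz, rfl⟩ := hc hC
        exact ⟨z, hz, right_mem_kab a z⟩
      · intro C
        exact hZ.inter_right (hcl C.1 C.2)
      · intro C
        exact hZ.isClosed.inter (hcl C.1 C.2)
    obtain ⟨z, hz⟩ := hint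
    rw [Set.mem_iInter] at hz
    obtain ⟨C0, hC0⟩ := hcn
    refine ⟨Kab a z, ⟨z, (hz ⟨C0, hC0⟩).1, rfl⟩, ?_⟩
    intro s hs
    have h1 : z ∈ s := (hz ⟨s, hs⟩).2
    obtain ⟨z', -, rfl⟩ := hc hs
    exact kab_subset_kab hG (left_mem_kab a z') h1) (Kab a z0) ⟨z0, hz0, rfl⟩
  obtain ⟨⟨z, hz, rfl⟩, hmin⟩ := hm
  refine ⟨z, hz, ?_⟩
  intro z' hz' hzz'
  have h1 : Kab a z' ⊆ Kab a z := kab_subset_kab hG (left_mem_kab a z) hzz'
  exact Set.Subset.antisymm h1 (hmin ⟨z', hz', rfl⟩ h1)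

theorem kab_three {Y : Type*} [MetricSpace Y] [CompactSpace Y] [ConnectedSpace Y]
    (hG : Good Y) (p q r : Y) : p ∈ Kab q r ∨ q ∈ Kab p r ∨ r ∈ Kab p q := by
  have h1 := isPreconnected_closed_iff.1 (ctm_kab hG p r).2.2 (Kab p q) (Kab q r)
    (ctm_kab hG p q).1.isClosed (ctm_kab hG q r).1.isClosed (kab_tri hG p q r)
    ⟨p, left_mem_kab p r, left_mem_kab p q⟩ ⟨r, right_mem_kab p r, right_mem_kab q r⟩
  obtain ⟨o, ho1, ho2, ho3⟩ := h1
  rcases hG.atri (ctm_kab hG o p) (ctm_kab hG o q) (ctm_kab hG o r)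
    ⟨o, ⟨left_mem_kab o p, left_mem_kab o q⟩, left_mem_kab o r⟩ with h | h | h
  · left
    rcases h (right_mem_kab o p) with h' | h'
    · exact kab_subset_kab hG ho3 (left_mem_kab q r) h'
    · exact kab_subset_kab hG ho3 (right_mem_kab q r) h'
  · right; left
    rcases h (right_mem_kab o q) with h' | h'
    · exact kab_subset_kab hG ho1 (left_mem_kab p r) h'
    · exact kab_subset_kab hG ho1 (right_mem_kab p r) h'
  · right; right
    rcases h (right_mem_kab o r) with h' | h'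
    · exact kab_subset_kab hG ho2 (left_mem_kab p q) h'
    · exact kab_subset_kab hG ho2 (right_mem_kab p q) h'

section Defs2

variable {X Y : Type*} [TopologicalSpace X] [TopologicalSpace Y]

/-- the standing data: a confluent map `f` onto `Y`, a function `g`, an open set of levels -/
structure Ctx (U : Set (Y × ℝ)) (f : X → Y) (g : X → ℝ) : Prop where
  good : Good Y
  hU : IsOpen U
  cf : Continuous f
  cg : Continuous g
  surj : Function.Surjective f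
  confl : ∀ Q : Set Y, Ctm Q → ∀ x ∈ f ⁻¹' Q, f '' connectedComponentIn (f ⁻¹' Q) x = Q
  mem : ∀ x, (f x, g x) ∈ U

/-- every point over `Q` has a section over `Q` through it -/
def Gd (U : Set (Y × ℝ)) (f : X → Y) (g : X → ℝ) (Q : Set Y) : Prop :=
  ∀ x, f x ∈ Q → ∃ h, Sec U Q h ∧ Eqv U (f x) (g x) (h (f x))

/-- indecomposable -/
def Indec (J : Set Y) : Prop := ∀ A B : Set Y, Ctm A → Ctm B → A ∪ B = J → A = J ∨ B = J

/-- section over `Q` agreeing (up to level) with `h` at the three points `w b y` -/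
def Ext3 (U : Set (Y × ℝ)) (Q : Set Y) (w b y : Y) (h : Y → ℝ) : Prop :=
  ∃ k, Sec U Q k ∧ Eqv U w (h w) (k w) ∧ Eqv U b (h b) (k b) ∧ Eqv U y (h y) (k y)

/-- the extension data -/
structure EDat (U : Set (Y × ℝ)) (Q : Set Y) (w b y : Y) (h κ1 κ2 : Y → ℝ) : Prop where
  hQ : Ctm Q
  sub : Kab w b ⊆ Q
  hy : y ∈ Kab w b
  a1 : ∀ s, s ∉ Kab w b → w ∈ Kab b s → w ∈ Kab y s
  a2 : ∀ s, s ∉ Kab w b → b ∈ Kab w s → b ∈ Kab y s
  k1 : Sec U Q κ1
  k2 : Sec U Q κ2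
  e1 : Eqv U w (h w) (κ1 w)
  e2 : Eqv U b (h b) (κ2 b)

/-- a minimal failure of extension -/
structure EMin (U : Set (Y × ℝ)) (Q : Set Y) (w b y : Y) (h κ1 κ2 : Y → ℝ) : Prop where
  dat : EDat U Q w b y h κ1 κ2
  ne : Kab w b ≠ Q
  fail : ¬ Ext3 U Q w b y h
  min : ∀ Q', Ctm Q' → Kab w b ⊆ Q' → Q' ⊆ Q → Q' ≠ Q → Ext3 U Q' w b y h

/-- a minimal failure of `Gd` -/
structure MF (U : Set (Y × ℝ)) (f : X → Y) (g : X → ℝ) (J : Set Y) (xs : X) : Prop where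
  ctx : Ctx U f g
  hJ : Ctm J
  indec : Indec J
  nontriv : J.Nontrivial
  proper : ∀ J', Ctm J' → J' ⊆ J → J' ≠ J → Gd U f g J'
  xsJ : f xs ∈ J
  bad : ∀ h, Sec U J h → ¬ Eqv U (f xs) (g xs) (h (f xs))

/-- sections passing above the bad point -/
def Gp (U : Set (Y × ℝ)) (f : X → Y) (g : X → ℝ) (J : Set Y) (xs : X) (κ : Y → ℝ) : Prop :=
  Sec U J κ ∧ Ltv U (f xs) (g xs) (κ (f xs))

/-- sections passing below the bad point -/
def Gm (U : Set (Y × ℝ)) (f : X → Y) (g : X → ℝ) (J : Set Y) (xs : X) (κ : Y → ℝ) : Prop :=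
  Sec U J κ ∧ Ltv U (f xs) (κ (f xs)) (g xs)

/-- the cut -/
def Ec (U : Set (Y × ℝ)) (f : X → Y) (g : X → ℝ) (J : Set Y) (xs : X) : Set X :=
  {x | f x ∈ J ∧ (∀ κ, Gp U f g J xs κ → Ltv U (f x) (g x) (κ (f x))) ∧
    ∀ κ, Gm U f g J xs κ → Ltv U (f x) (κ (f x)) (g x)}

/-- over `P` some section through `x` gets above an upper section at `w` -/
def Rc (U : Set (Y × ℝ)) (f : X → Y) (g : X → ℝ) (J : Set Y) (xs : X) (P : Set Y) (x : X)
    (w : Y) : Prop :=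
  ∃ h κ, Sec U P h ∧ Eqv U (f x) (g x) (h (f x)) ∧ Gp U f g J xs κ ∧ Lev U w (κ w) (h w)

/-- reachability over some proper subcontinuum -/
def Rr (U : Set (Y × ℝ)) (f : X → Y) (g : X → ℝ) (J : Set Y) (xs : X) (x : X) (w : Y) : Prop :=
  ∃ P, Ctm P ∧ P ⊆ J ∧ P ≠ J ∧ f x ∈ P ∧ w ∈ P ∧ Rc U f g J xs P x w

end Defs2

theorem pure_split {Y : Type*} [MetricSpace Y] [CompactSpace Y] [ConnectedSpace Y]
    (hG : Good Y) {a b sa sb : Y} {P : Set Y} (hP : Ctm P) (ha : a ∈ P) (hb : b ∈ P)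
    (hsa : sa ∉ P) (hsb : sb ∉ P) (h1 : b ∉ Kab a sa) (h2 : a ∉ Kab b sb) :
    P ⊆ Kab a b ∪ Kab a sa ∪ Kab b sb := by
  have hab : Kab a b ⊆ P := kab_subset hP ha hb
  have k1 : a ∈ Kab b sa := by
    rcases kab_three hG a b sa with h | h | h
    · exact h
    · exact absurd h h1
    · exact absurd (hab h) hsa
  have k2 : b ∈ Kab a sb := by
    rcases kab_three hG a b sb with h | h | h
    · exact absurd h h2
    · exact h
    · exact absurd (hab h) hsb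
  have hB : Ctm (Kab a b ∪ Kab a sa) := ctm_union (ctm_kab hG a b) (ctm_kab hG a sa)
    ⟨a, left_mem_kab a b, left_mem_kab a sa⟩
  have hC : Ctm (Kab a b ∪ Kab b sb) := ctm_union (ctm_kab hG a b) (ctm_kab hG b sb)
    ⟨b, right_mem_kab a b, left_mem_kab b sb⟩
  rcases hG.atri hP hB hC ⟨a, ⟨ha, Or.inl (left_mem_kab a b)⟩, Or.inl (left_mem_kab a b)⟩ with
    h | h | h
  · intro x hx
    rcases h hx with (h' | h') | (h' | h')
    · exact Or.inl (Or.inl h')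
    · exact Or.inl (Or.inr h')
    · exact Or.inl (Or.inl h')
    · exact Or.inr h'
  · exfalso
    rcases h (Or.inr (right_mem_kab a sa)) with h' | h' | h'
    · exact hsa h'
    · exact hsa (hab h')
    · exact h2 (kab_subset_kab hG (left_mem_kab b sb) h' k1)
  · exfalso
    rcases h (Or.inr (right_mem_kab b sb)) with h' | h' | h'
    · exact hsb h'
    · exact hsb (hab h')
    · exact h1 (kab_subset_kab hG (left_mem_kab a sa) h' k2)

theorem splice_pt {Y : Type*} [MetricSpace Y] [CompactSpace Y] {U : Set (Y × ℝ)} (hU : IsOpen U)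
    {Q : Set Y} (hQ : IsClosed Q) {h k : Y → ℝ} (hh : Sec U Q h) (hk : Sec U Q k) {a b w : Y}
    (ha : a ∈ Q) (hb : b ∈ Q) (hw : w ∈ Kab a b) (he : Eqv U w (h w) (k w)) :
    ∃ s, Sec U Q s ∧ (∀ y ∈ Q, Eqv U y (h y) (s y) ∨ Eqv U y (k y) (s y)) ∧
      Eqv U a (h a) (s a) ∧ Eqv U b (k b) (s b) := by
  obtain ⟨s, h1, h2, h3, h4, -⟩ := splice hU hQ hh hk (T1 := {a}) (T2 := {b})
    isClosed_singleton isClosed_singleton (by
      rintro K hKQ hK ⟨a', ha'K, ha'⟩ ⟨b', hb'K, hb'⟩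
      rw [mem_singleton_iff] at ha' hb'
      subst ha'
      subst hb'
      exact ⟨w, kab_subset hK ha'K hb'K hw, he⟩)
  exact ⟨s, h1, h2, h3 a ⟨rfl, ha⟩, h4 b ⟨rfl, hb⟩⟩

theorem exits {Y : Type*} [MetricSpace Y] [CompactSpace Y] {U : Set (Y × ℝ)} (hU : IsOpen U)
    {J G : Set Y} (hJ : IsCompact J) (hG : IsOpen G) {y0 : Y} (hy0 : y0 ∈ J \ G) {k κ : Y → ℝ}
    (hk : Sec U (connectedComponentIn (J \ G) y0) k) (hκ : Sec U J κ) {F : Set Y}
    (hF : F ⊆ connectedComponentIn (J \ G) y0)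
    (h : ∀ s ∈ connectedComponentIn (J \ G) y0 ∩ closure G,
      ∃ k', Sec U (connectedComponentIn (J \ G) y0) k' ∧ (∀ y ∈ F, Eqv U y (k y) (k' y)) ∧
        Eqv U s (κ s) (k' s)) :
    ∃ κ', Sec U J κ' ∧ ∀ y ∈ F, Eqv U y (k y) (κ' y) := by
  have hJG : IsCompact (J \ G) := hJ.diff hG
  have hP : Ctm (connectedComponentIn (J \ G) y0) := ctm_component hJG hy0
  have hPJ : connectedComponentIn (J \ G) y0 ⊆ J :=
    (connectedComponentIn_subset _ _).trans Set.sdiff_subset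
  obtain ⟨k', hk', hk'F, hk'S⟩ := multi hU (hκ.mono hPJ) k F
    (hP.1.inter_right (isClosed_closure (s := G)))
    ⟨k, hk, fun y hy => Eqv.rfl' (hk.2 y (hF hy))⟩ h
  obtain ⟨κ', hκ', hκ'P⟩ := ext_comp hU hJ hG hy0 hk' hκ hk'S
  exact ⟨κ', hκ', fun y hy => (hk'F y hy).trans (hκ'P y (hF hy))⟩

theorem lb {X Y : Type*} [MetricSpace X] [CompactSpace X] [MetricSpace Y] [CompactSpace Y]
    [ConnectedSpace Y] {U : Set (Y × ℝ)} {f : X → Y} {g : X → ℝ} (c : Ctx U f g) {Q : Set Y}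
    (hQ : Ctm Q) (hg : Gd U f g Q) {b : Y} (hb : b ∈ Q) {x : X} (hx : f x ∈ Q) :
    ∃ h, Sec U Q h ∧ Eqv U (f x) (g x) (h (f x)) ∧ ∃ x', f x' = b ∧ Eqv U b (g x') (h b) := by
  classical
  obtain ⟨G, hGd⟩ : ∃ G : X → Prop, ∀ x, G x ↔
      ∃ h, Sec U Q h ∧ Eqv U (f x) (g x) (h (f x)) ∧ ∃ x', f x' = b ∧ Eqv U b (g x') (h b) :=
    ⟨_, fun _ => Iff.rfl⟩
  rw [← hGd]
  by_contra hGx
  have hopen : ∀ h : Y → ℝ, Continuous h → IsOpen {z | Eqv U (f z) (g z) (h (f z))} :=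
    fun h hh => isOpen_eqv c.hU c.cf c.cg (hh.comp c.cf)
  have hGopen : IsOpen {z | G z} := by
    rw [isOpen_iff_forall_mem_open]
    intro z hz
    obtain ⟨h, h1, h2, h3⟩ := (hGd z).1 hz
    refine ⟨{z | Eqv U (f z) (g z) (h (f z))}, ?_, hopen h h1.1, h2⟩
    intro z' hz'
    exact (hGd z').2 ⟨h, h1, hz', h3⟩
  have hQc : IsClosed Q := hQ.1.isClosed
  obtain ⟨Bad, hBad⟩ : ∃ Bad : Set X, Bad = f ⁻¹' Q ∩ {z | G z}ᶜ := ⟨_, rfl⟩
  have hBc : IsClosed Bad := by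
    rw [hBad]
    exact (hQc.preimage c.cf).inter hGopen.isClosed_compl
  have hxB : x ∈ Bad := by
    rw [hBad]
    exact ⟨hx, hGx⟩
  have hBQ : ∀ z ∈ Bad, f z ∈ Q := by
    intro z hz
    rw [hBad] at hz
    exact hz.1
  have hBG : ∀ z ∈ Bad, ¬ G z := by
    intro z hz
    rw [hBad] at hz
    exact hz.2
  have hZ : IsCompact (f '' Bad) := hBc.isCompact.image c.cf
  obtain ⟨z, hzZ, hmin⟩ := exists_kab_min c.good hZ ⟨f x, x, hxB, rfl⟩ b
  obtain ⟨x1, hx1B, rfl⟩ := hzZ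
  have hKQ : Kab b (f x1) ⊆ Q := kab_subset hQ hb (hBQ x1 hx1B)
  have hKc : Ctm (Kab b (f x1)) := ctm_kab c.good b (f x1)
  have hx1K : x1 ∈ f ⁻¹' (Kab b (f x1)) := right_mem_kab b (f x1)
  have himg := c.confl _ hKc x1 hx1K
  obtain ⟨a, haA, hab⟩ : b ∈ f '' connectedComponentIn (f ⁻¹' (Kab b (f x1))) x1 := by
    rw [himg]
    exact left_mem_kab b (f x1)
  have haB : a ∉ Bad := by
    intro h
    apply hBG a h
    rw [hGd]
    obtain ⟨k, hk1, hk2⟩ := hg a (by rw [hab]; exact hb)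
    refine ⟨k, hk1, hk2, a, hab, ?_⟩
    rw [← hab]
    exact hk2
  have hApre : IsPreconnected (connectedComponentIn (f ⁻¹' (Kab b (f x1))) x1) :=
    isPreconnected_connectedComponentIn
  have hx1A : x1 ∈ connectedComponentIn (f ⁻¹' (Kab b (f x1))) x1 :=
    mem_connectedComponentIn hx1K
  have hAK : connectedComponentIn (f ⁻¹' (Kab b (f x1))) x1 ⊆ f ⁻¹' (Kab b (f x1)) :=
    connectedComponentIn_subset _ _
  generalize connectedComponentIn (f ⁻¹' (Kab b (f x1))) x1 = A at haA hApre hx1A hAK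
  obtain ⟨x', hx'A, hx'B, hx'c⟩ := (isPreconnected_closed_iff.1 hApre) Bad (closure (A \ Bad)) hBc
    isClosed_closure (by
      intro y hy
      by_cases h : y ∈ Bad
      · exact Or.inl h
      · exact Or.inr (subset_closure ⟨hy, h⟩)) ⟨x1, hx1A, hx1B⟩
    ⟨a, haA, subset_closure ⟨haA, haB⟩⟩
  have hKe : Kab b (f x') = Kab b (f x1) := hmin (f x') ⟨x', hx'B, rfl⟩ (hAK hx'A)
  obtain ⟨h, h1, h2⟩ := hg x' (hBQ x' hx'B)
  obtain ⟨x2, hx2E, hx2A, hx2B⟩ := mem_closure_iff.1 hx'c _ (hopen h h1.1) h2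
  have hx2K : f x2 ∈ Kab b (f x1) := hAK hx2A
  have hG2 : G x2 := by
    by_contra hn
    apply hx2B
    rw [hBad]
    exact ⟨hKQ hx2K, hn⟩
  obtain ⟨κ, k1, k2, x3, hx3, k3⟩ := (hGd x2).1 hG2
  have hw : f x2 ∈ Kab (f x') b := by
    rw [kab_comm, hKe]
    exact hx2K
  obtain ⟨s, s1, _, s2, s3⟩ := splice_pt c.hU hQc h1 k1 (hBQ x' hx'B) hb hw
    ((show Eqv U (f x2) (g x2) (h (f x2)) from hx2E).symm.trans k2)
  exact hBG x' hx'B ((hGd x').2 ⟨s, s1, h2.trans s2, x3, hx3, k3.trans s3⟩)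

theorem gd_of_iInter {X Y : Type*} [MetricSpace X] [CompactSpace X] [MetricSpace Y] [CompactSpace Y]
    [ConnectedSpace Y] {U : Set (Y × ℝ)} {f : X → Y} {g : X → ℝ} (c : Ctx U f g) {ι : Type*}
    [Nonempty ι] {V : ι → Set Y} (hd : Directed (· ⊇ ·) V) (hV : ∀ i, Ctm (V i))
    (h : Gd U f g (⋂ i, V i)) : ∃ i, Gd U f g (V i) := by
  have hVcl : ∀ i, IsClosed (V i) := fun i => (hV i).1.isClosed
  have hKcl : IsClosed (⋂ i, V i) := isClosed_iInter hVcl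
  have hpre : IsCompact (f ⁻¹' (⋂ i, V i)) := (hKcl.preimage c.cf).isCompact
  have key : ∃ N : Set X, IsOpen N ∧ f ⁻¹' (⋂ i, V i) ⊆ N ∧ ∃ W : Set Y, IsOpen W ∧
      (⋂ i, V i) ⊆ W ∧ ∀ x ∈ N, ∃ h, Sec U W h ∧ Eqv U (f x) (g x) (h (f x)) := by
    refine hpre.induction_on (p := fun S : Set X => ∃ N : Set X, IsOpen N ∧ S ⊆ N ∧
      ∃ W : Set Y, IsOpen W ∧ (⋂ i, V i) ⊆ W ∧
        ∀ x ∈ N, ∃ h, Sec U W h ∧ Eqv U (f x) (g x) (h (f x))) ?_ ?_ ?_ ?_
    · exact ⟨∅, isOpen_empty, subset_rfl, univ, isOpen_univ, subset_univ _,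
        fun x hx => absurd hx (notMem_empty x)⟩
    · rintro s t hst ⟨N, hN, htN, W, hW, hKW, hN2⟩
      exact ⟨N, hN, hst.trans htN, W, hW, hKW, hN2⟩
    · rintro s t ⟨N, hN, htN, W, hW, hKW, hN2⟩ ⟨N', hN', htN', W', hW', hKW', hN2'⟩
      refine ⟨N ∪ N', hN.union hN', union_subset_union htN htN', W ∩ W', hW.inter hW',
        subset_inter hKW hKW', ?_⟩
      rintro x (hx | hx)
      · obtain ⟨k, hk1, hk2⟩ := hN2 x hx
        exact ⟨k, Sec.mono hk1 inter_subset_left, hk2⟩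
      · obtain ⟨k, hk1, hk2⟩ := hN2' x hx
        exact ⟨k, Sec.mono hk1 inter_subset_right, hk2⟩
    · intro x hx
      obtain ⟨k, hk1, hk2⟩ := h x hx
      have hNo : IsOpen {x' | Eqv U (f x') (g x') (k (f x'))} :=
        isOpen_eqv c.hU c.cf c.cg (hk1.1.comp c.cf)
      have hWo : IsOpen {y | (y, k y) ∈ U} := c.hU.preimage (continuous_id.prodMk hk1.1)
      refine ⟨{x' | Eqv U (f x') (g x') (k (f x'))}, mem_nhdsWithin_of_mem_nhds (hNo.mem_nhds hk2),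
        _, hNo, subset_rfl, _, hWo, fun y hy => hk1.2 y hy, fun x' hx' => ⟨k, ⟨hk1.1, ?_⟩, hx'⟩⟩
      exact fun y hy => hy
  obtain ⟨N, hN, hKN, W, hW, hKW, hsec⟩ := key
  obtain ⟨i, hi⟩ := exists_subset_nhds_of_isCompact' hd (fun i => (hV i).1) hVcl
    (U := W) (fun y hy => hW.mem_nhds (hKW hy))
  obtain ⟨j, hj⟩ := exists_subset_nhds_of_isCompact' (V := fun i => f ⁻¹' (V i))
    (fun a b => by
      obtain ⟨e, he1, he2⟩ := hd a b
      exact ⟨e, preimage_mono he1, preimage_mono he2⟩)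
    (fun i => ((hVcl i).preimage c.cf).isCompact) (fun i => (hVcl i).preimage c.cf)
    (U := N) (fun x hx => hN.mem_nhds (hKN (by
      rw [mem_preimage, mem_iInter]
      intro i
      exact (mem_iInter.mp hx i))))
  obtain ⟨e, he1, he2⟩ := hd i j
  refine ⟨e, fun x hx => ?_⟩
  obtain ⟨k, hk1, hk2⟩ := hsec x (hj (he2 hx))
  exact ⟨k, Sec.mono hk1 (Subset.trans he1 hi), hk2⟩

theorem exists_min_fail {X Y : Type*} [MetricSpace X] [CompactSpace X] [MetricSpace Y]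
    [CompactSpace Y] [ConnectedSpace Y] {U : Set (Y × ℝ)} {f : X → Y} {g : X → ℝ}
    (c : Ctx U f g) (h : ¬ Gd U f g univ) :
    ∃ J, Ctm J ∧ ¬ Gd U f g J ∧ ∀ J', Ctm J' → J' ⊆ J → J' ≠ J → Gd U f g J' := by
  obtain ⟨J, -, hJ⟩ := zorn_superset_nonempty {J : Set Y | Ctm J ∧ ¬ Gd U f g J} (by
    intro C hC hchain hne
    have : Nonempty C := hne.to_subtype
    have hdir : Directed (· ⊇ ·) (fun i : C => (i : Set Y)) := by
      intro a b
      rcases hchain.total a.2 b.2 with h1 | h1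
      · exact ⟨a, subset_rfl, h1⟩
      · exact ⟨b, h1, subset_rfl⟩
    refine ⟨⋂ i : C, (i : Set Y), ⟨ctm_iInter_directed hdir (fun i => (hC i.2).1), fun hg => ?_⟩,
      fun s hs => iInter_subset (fun i : C => (i : Set Y)) ⟨s, hs⟩⟩
    obtain ⟨i, hi⟩ := gd_of_iInter c hdir (fun i => (hC i.2).1) hg
    exact (hC i.2).2 hi) univ ⟨⟨isCompact_univ, isConnected_univ⟩, h⟩
  refine ⟨J, hJ.1.1, hJ.1.2, fun J' hJ' hsub hne => ?_⟩
  by_contra hcon
  exact hne (Subset.antisymm hsub (hJ.2 ⟨hJ', hcon⟩ hsub))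

theorem gl {Y : Type*} [MetricSpace Y] [CompactSpace Y] [ConnectedSpace Y]
    (hG : Good Y) {U : Set (Y × ℝ)} (hU : IsOpen U) {A B : Set Y} (hA : Ctm A) (hB : Ctm B)
    {h1 h2 : Y → ℝ} (hs1 : Sec U A h1) (hs2 : Sec U B h2) {w y : Y} (hwA : w ∈ A) (hwB : w ∈ B)
    (hw : Eqv U w (h1 w) (h2 w)) (hyA : y ∈ A) (hyB : y ∉ B) :
    ∃ h, Sec U (A ∪ B) h ∧ Eqv U w (h1 w) (h w) ∧ Eqv U y (h1 y) (h y) := by
  have hO : IsOpen {z | Eqv U z (h1 z) (h2 z)} := isOpen_eqv hU continuous_id hs1.1 hs2.1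
  have hN1 : IsOpen {z | (z, h1 z) ∈ U} := hU.preimage (continuous_id.prodMk hs1.1)
  have hN2 : IsOpen {z | (z, h2 z) ∈ U} := hU.preimage (continuous_id.prodMk hs2.1)
  set O : Set Y := {z | Eqv U z (h1 z) (h2 z)} with hOdef
  set N1 : Set Y := {z | (z, h1 z) ∈ U} with hN1def
  set N2 : Set Y := {z | (z, h2 z) ∈ U} with hN2def
  have hAcl : IsClosed A := hA.1.isClosed
  have hBcl : IsClosed B := hB.1.isClosed
  have hJcl : IsClosed (A ∪ B) := hAcl.union hBcl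
  have hΦcl : IsClosed ((A ∪ B) \ O) := by
    rw [Set.sdiff_eq]; exact hJcl.inter hO.isClosed_compl
  have hΦ : IsCompact ((A ∪ B) \ O) := hΦcl.isCompact
  have hT1 : IsClosed (((A ∪ B) \ N2) ∪ {y}) := by
    refine IsClosed.union ?_ isClosed_singleton
    rw [Set.sdiff_eq]; exact hJcl.inter hN2.isClosed_compl
  have hT2 : IsClosed ((A ∪ B) \ N1) := by
    rw [Set.sdiff_eq]; exact hJcl.inter hN1.isClosed_compl
  have hwO : w ∈ O := hw
  obtain ⟨P, R, hP, hR, hPR, hd, hTP, hTR⟩ := cutwire hΦ hT1 hT2 (by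
    rintro L hLΦ hL ⟨p, hpL, hp⟩ ⟨q, hqL, hqJ, hqN⟩
    have hqA : q ∉ A := fun h => hqN (hs1.2 q h)
    have hqB : q ∈ B := hqJ.resolve_left hqA
    have hpAB : p ∈ A ∧ p ∉ B := by
      rcases hp with ⟨hpJ, hpN⟩ | hpy
      · have hpB : p ∉ B := fun h => hpN (hs2.2 p h)
        exact ⟨hpJ.resolve_right hpB, hpB⟩
      · rw [mem_singleton_iff] at hpy
        rw [hpy]; exact ⟨hyA, hyB⟩
    have hLJ : L ⊆ A ∪ B := fun z hz => (hLΦ hz).1
    obtain ⟨z, hzL, hzA, hzB⟩ : (L ∩ (A ∩ B)).Nonempty :=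
      isPreconnected_closed_iff.1 hL.2.isPreconnected A B hAcl hBcl hLJ ⟨p, hpL, hpAB.1⟩
        ⟨q, hqL, hqB⟩
    have cLA : Ctm (L ∩ A) := ctm_inter hG hL hA ⟨z, hzL, hzA⟩
    have cLB : Ctm (L ∩ B) := ctm_inter hG hL hB ⟨z, hzL, hzB⟩
    have cAB : Ctm (A ∩ B) := ctm_inter hG hA hB ⟨z, hzA, hzB⟩
    rcases hG.atri cLA cLB cAB ⟨z, ⟨⟨hzL, hzA⟩, ⟨hzL, hzB⟩⟩, hzA, hzB⟩ with h | h | h
    · rcases h ⟨hpL, hpAB.1⟩ with h' | h'
      · exact hpAB.2 h'.2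
      · exact hpAB.2 h'.2
    · rcases h ⟨hqL, hqB⟩ with h' | h'
      · exact hqA h'.2
      · exact hqA h'.1
    · rcases h ⟨hwA, hwB⟩ with h' | h'
      · exact (hLΦ h'.1).2 hwO
      · exact (hLΦ h'.1).2 hwO)
  obtain ⟨l, hl0, hl1, hl⟩ := exists_continuous_zero_one_of_isClosed hP.isClosed hR.isClosed hd
  have hmem : ∀ z, (1 - l z) * h1 z + l z * h2 z ∈ uIcc (h1 z) (h2 z) := by
    intro z
    rw [← segment_eq_uIcc]
    exact ⟨1 - l z, l z, by linarith [(hl z).2], (hl z).1, by ring, by simp [smul_eq_mul]⟩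
  have hsP : ∀ z ∈ P, (1 - l z) * h1 z + l z * h2 z = h1 z := by
    intro z hz
    have h0 : l z = 0 := hl0 hz
    rw [h0]; ring
  have hsR : ∀ z ∈ R, (1 - l z) * h1 z + l z * h2 z = h2 z := by
    intro z hz
    have h0 : l z = 1 := hl1 hz
    rw [h0]; ring
  refine ⟨fun z => (1 - l z) * h1 z + l z * h2 z, ⟨?_, ?_⟩, ?_, ?_⟩
  · have c1 := hs1.1
    have c2 := hs2.1
    have cl := l.continuous
    fun_prop
  · intro z hz
    by_cases hzO : z ∈ O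
    · exact (Eqv.of_mem hzO (hmem z)).right
    · have hzΦ : z ∈ (A ∪ B) \ O := ⟨hz, hzO⟩
      have hzPR : z ∈ P ∪ R := by rw [hPR]; exact hzΦ
      rcases hzPR with hzP | hzR
      · simp only [hsP z hzP]
        by_contra hcon
        exact Set.disjoint_left.1 hd hzP (hTR ⟨hzΦ, hz, hcon⟩)
      · simp only [hsR z hzR]
        by_contra hcon
        exact Set.disjoint_left.1 hd (hTP ⟨hzΦ, Or.inl ⟨hz, hcon⟩⟩) hzR
  · exact Eqv.of_mem hwO (hmem w)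
  · by_cases hyO : y ∈ O
    · exact Eqv.of_mem hyO (hmem y)
    · have hyP : y ∈ P := hTP ⟨⟨Or.inl hyA, hyO⟩, Or.inr rfl⟩
      simp only [hsP y hyP]
      exact Eqv.rfl' (hs1.2 y hyA)

end Pool.Agent.H963CF
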