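import Pool.Agent.H963CF.B

set_option autoImplicit false

namespace Pool.Agent.H963CF

open Set Topology Filter
open Pool.Agent.H963CF.L739.CT (Ctm ctm_union ctm_component clopen_nhd_component cutwire bump
  crossing_real sub_of_split ctm_iInter_directed const_of_int circle_exp_eq_one circle_exp_int
  log_unique)
open Pool.Agent.H963CF.L739.CG (Good unicoherent ctm_inter)

theorem min_indec_aux {X Y : Type*} [MetricSpace X] [CompactSpace X] [MetricSpace Y] [CompactSpace Y]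
    [ConnectedSpace Y] {U : Set (Y × ℝ)} {f : X → Y} {g : X → ℝ} (c : Ctx U f g) {A B : Set Y}
    (hA : Ctm A) (hB : Ctm B) (gA : Gd U f g A) (gB : Gd U f g B)
    (hJ : IsPreconnected (A ∪ B)) (hne : ∃ y, y ∈ A ∧ y ∉ B) {x : X} (hx : f x ∈ A) :
    ∃ h, Sec U (A ∪ B) h ∧ Eqv U (f x) (g x) (h (f x)) := by
  by_cases hxB : f x ∈ B
  · obtain ⟨h1, hs1, he1⟩ := gA x hx
    obtain ⟨h2, hs2, he2⟩ := gB x hxB
    obtain ⟨y, hyA, hyB⟩ := hne
    obtain ⟨h, hs, hw, -⟩ := gl c.good c.hU hA hB hs1 hs2 hx hxB (he1.symm.trans he2) hyA hyB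
    exact ⟨h, hs, he1.trans hw⟩
  · have hwn : ((A ∪ B) ∩ (A ∩ B)).Nonempty := by
      refine isPreconnected_closed_iff.1 hJ A B hA.1.isClosed hB.1.isClosed subset_rfl ?_ ?_
      · obtain ⟨p, hp⟩ := hA.2.nonempty
        exact ⟨p, Or.inl hp, hp⟩
      · obtain ⟨p, hp⟩ := hB.2.nonempty
        exact ⟨p, Or.inr hp, hp⟩
    obtain ⟨w, -, hwA, hwB⟩ := hwn
    obtain ⟨h1, hs1, he1, x', hx', he'⟩ := lb c hA gA hwA hx
    obtain ⟨h2, hs2, he2⟩ := gB x' (by rw [hx']; exact hwB)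
    rw [hx'] at he2
    obtain ⟨h, hs, -, hy⟩ := gl c.good c.hU hA hB hs1 hs2 hwA hwB (he'.symm.trans he2) hx hxB
    exact ⟨h, hs, he1.trans hy⟩

theorem min_indec {X Y : Type*} [MetricSpace X] [CompactSpace X] [MetricSpace Y] [CompactSpace Y]
    [ConnectedSpace Y] {U : Set (Y × ℝ)} {f : X → Y} {g : X → ℝ} (c : Ctx U f g) {J : Set Y}
    (hJ : Ctm J) (hf : ¬ Gd U f g J) (hm : ∀ J', Ctm J' → J' ⊆ J → J' ≠ J → Gd U f g J') :
    Indec J ∧ J.Nontrivial := by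
  constructor
  · intro A B hA hB hAB
    by_contra hcon
    push Not at hcon
    obtain ⟨hAJ, hBJ⟩ := hcon
    have gA : Gd U f g A := hm A hA (hAB ▸ subset_union_left) hAJ
    have gB : Gd U f g B := hm B hB (hAB ▸ subset_union_right) hBJ
    apply hf
    intro x hx
    have hxAB : f x ∈ A ∪ B := hAB ▸ hx
    rcases hxAB with hxA | hxB
    · have hne : ∃ y, y ∈ A ∧ y ∉ B := by
        by_contra hc
        push Not at hc
        apply hBJ
        rw [← hAB]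
        exact (union_eq_self_of_subset_left hc).symm
      have := min_indec_aux c hA hB gA gB (hAB ▸ hJ.2.isPreconnected) hne hxA
      rwa [hAB] at this
    · have hne : ∃ y, y ∈ B ∧ y ∉ A := by
        by_contra hc
        push Not at hc
        apply hAJ
        rw [← hAB]
        exact (union_eq_self_of_subset_right hc).symm
      have hBA : B ∪ A = J := by rw [union_comm, hAB]
      have := min_indec_aux c hB hA gB gA (hBA ▸ hJ.2.isPreconnected) hne hxB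
      rwa [hBA] at this
  · by_contra hnt
    rw [not_nontrivial_iff] at hnt
    apply hf
    intro x hx
    refine ⟨fun _ => g x, ⟨continuous_const, fun y hy => ?_⟩, Eqv.rfl' (c.mem x)⟩
    rw [hnt hy hx]
    exact c.mem x

theorem indec_trans {Y : Type*} [MetricSpace Y] [CompactSpace Y] [ConnectedSpace Y]
    (hG : Good Y) {J : Set Y} (hJ : Ctm J) (hI : Indec J) {a b c : Y} (ha : a ∈ J) (hb : b ∈ J)
    (hc : c ∈ J) (hab : Kab a b ≠ J) (hbc : Kab b c ≠ J) : Kab a c ≠ J := by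
  intro h
  have h1 : Ctm (Kab a b ∪ Kab b c) :=
    ctm_union (ctm_kab hG a b) (ctm_kab hG b c) ⟨b, right_mem_kab a b, left_mem_kab b c⟩
  have h2 : Kab a b ∪ Kab b c = J := by
    apply Subset.antisymm
    · exact union_subset (kab_subset hJ ha hb) (kab_subset hJ hb hc)
    · rw [← h]
      exact kab_tri hG a b c
  rcases hI _ _ (ctm_kab hG a b) (ctm_kab hG b c) h2 with h3 | h3
  · exact hab h3
  · exact hbc h3

theorem comp_dense {Y : Type*} [MetricSpace Y] [CompactSpace Y] [ConnectedSpace Y]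
    (hG : Good Y) {J : Set Y} (hJ : Ctm J) (hn : J.Nontrivial) {y : Y} (hy : y ∈ J) {O : Set Y}
    (hO : IsOpen O) (hJO : (J ∩ O).Nonempty) : ∃ z ∈ J ∩ O, Kab y z ≠ J := by
  by_cases hyO : y ∈ O
  · refine ⟨y, ⟨hy, hyO⟩, ?_⟩
    rw [kab_self]
    intro h
    rw [← h] at hn
    exact Set.not_nontrivial_singleton hn
  · obtain ⟨x, hxJ, hxO⟩ := hJO
    obtain ⟨r, hr, hrO⟩ := Metric.isOpen_iff.1 hO x hxO
    have hcl : closure (Metric.ball x (r / 2)) ⊆ O := by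
      refine Metric.closure_ball_subset_closedBall.trans ?_
      exact (Metric.closedBall_subset_ball (by linarith)).trans hrO
    have hxb : x ∈ Metric.ball x (r / 2) := Metric.mem_ball_self (by linarith)
    have hyb : y ∉ Metric.ball x (r / 2) := fun h => hyO (hcl (subset_closure h))
    obtain ⟨z, hz1, hz2⟩ := bump hJ Metric.isOpen_ball ⟨x, hxJ, hxb⟩ hy hyb
    have hyC : y ∈ J \ Metric.ball x (r / 2) := ⟨hy, hyb⟩
    have hC : Ctm (connectedComponentIn (J \ Metric.ball x (r / 2)) y) :=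
      ctm_component (hJ.1.diff Metric.isOpen_ball) hyC
    have hsub := connectedComponentIn_subset (J \ Metric.ball x (r / 2)) y
    refine ⟨z, ⟨(hsub hz1).1, hcl hz2⟩, ?_⟩
    intro h
    have h1 : x ∈ Kab y z := by rw [h]; exact hxJ
    exact (hsub (kab_subset hC (mem_connectedComponentIn hyC) hz1 h1)).2 hxb

theorem indec_half_closed {Y : Type*} [TopologicalSpace Y] {J K u v : Set Y} (hJc : IsClosed J)
    (hKc : IsClosed K) (hKJ : K ⊆ J) (hv : IsOpen v)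
    (hD : J \ K ⊆ u ∪ v) (hdis : ∀ x ∈ J \ K, x ∈ u → x ∈ v → False) :
    IsClosed (K ∪ ((J \ K) ∩ u)) := by
  have h1 : K ∪ ((J \ K) ∩ u) = J ∩ (Kᶜ ∩ v)ᶜ := by
    ext x
    constructor
    · rintro (hx | ⟨hx, hxu⟩)
      · exact ⟨hKJ hx, fun h => h.1 hx⟩
      · exact ⟨hx.1, fun h => hdis x hx hxu h.2⟩
    · rintro ⟨hxJ, hx⟩
      by_cases hxK : x ∈ K
      · exact Or.inl hxK
      · right
        refine ⟨⟨hxJ, hxK⟩, ?_⟩
        rcases hD ⟨hxJ, hxK⟩ with h | h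
        · exact h
        · exact absurd ⟨hxK, h⟩ hx
  rw [h1]
  exact hJc.inter (hKc.isOpen_compl.inter hv).isClosed_compl

theorem indec_half_aux {Y : Type*} [TopologicalSpace Y] {J K u v t t' : Set Y}
    (hJ : IsPreconnected J) (hJc : IsClosed J)
    (hK : IsConnected K) (hKc : IsClosed K) (hKJ : K ⊆ J) (hu : IsOpen u) (hv : IsOpen v)
    (hD : J \ K ⊆ u ∪ v) (hdis : ∀ x ∈ J \ K, x ∈ u → x ∈ v → False)
    (ht : IsClosed t) (ht' : IsClosed t') (hcov : K ∪ ((J \ K) ∩ u) ⊆ t ∪ t')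
    (h2 : ((K ∪ ((J \ K) ∩ u)) ∩ t').Nonempty)
    (h3 : ∀ x ∈ K ∪ ((J \ K) ∩ u), x ∈ t → x ∈ t' → False)
    (hKt : (K ∩ t).Nonempty) : False := by
  have hA1 := indec_half_closed (u := u) hJc hKc hKJ hv hD hdis
  have hA2 := indec_half_closed (u := v) (v := u) hJc hKc hKJ hu (by rwa [union_comm])
    (fun x hx h1 h2 => hdis x hx h2 h1)
  have hKP : K ⊆ (K ∪ ((J \ K) ∩ u)) ∩ t := by
    refine sub_of_split (hA1.inter ht) (hA1.inter ht') ?_ hK.isPreconnected ?_ ?_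
    · rw [Set.disjoint_left]
      rintro x ⟨hx1, hx2⟩ ⟨-, hx3⟩
      exact h3 x hx1 hx2 hx3
    · intro x hx
      rcases hcov (Or.inl hx) with h | h
      · exact Or.inl ⟨Or.inl hx, h⟩
      · exact Or.inr ⟨Or.inl hx, h⟩
    · obtain ⟨x, hx1, hx2⟩ := hKt
      exact ⟨x, hx1, Or.inl hx1, hx2⟩
  have hJP : J ⊆ (K ∪ ((J \ K) ∩ u)) ∩ t' := by
    refine sub_of_split (Q := ((K ∪ ((J \ K) ∩ u)) ∩ t) ∪ (K ∪ ((J \ K) ∩ v))) (hA1.inter ht')
      ((hA1.inter ht).union hA2) ?_ hJ ?_ ?_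
    · rw [Set.disjoint_left]
      rintro x ⟨hx1, hx2⟩ (⟨-, hx3⟩ | hx3)
      · exact h3 x hx1 hx3 hx2
      · have hxK : x ∉ K := fun h => h3 x hx1 (hKP h).2 hx2
        rcases hx3 with h | ⟨h, hxv⟩
        · exact hxK h
        · rcases hx1 with h' | ⟨h', hxu⟩
          · exact hxK h'
          · exact hdis x h hxu hxv
    · intro x hx
      by_cases hxK : x ∈ K
      · exact Or.inr (Or.inl (hKP hxK))
      · rcases hD ⟨hx, hxK⟩ with h | h
        · have h4 : x ∈ K ∪ ((J \ K) ∩ u) := Or.inr ⟨⟨hx, hxK⟩, h⟩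
          rcases hcov h4 with h5 | h5
          · exact Or.inr (Or.inl ⟨h4, h5⟩)
          · exact Or.inl ⟨h4, h5⟩
        · exact Or.inr (Or.inr (Or.inr ⟨⟨hx, hxK⟩, h⟩))
    · obtain ⟨x, hx1, hx2⟩ := h2
      refine ⟨x, ?_, hx1, hx2⟩
      rcases hx1 with h | h
      · exact hKJ h
      · exact h.1.1
  obtain ⟨x, hx⟩ := hK.nonempty
  have h4 := hJP (hKJ hx)
  have h5 := hKP hx
  exact h3 x h4.1 h5.2 h4.2

theorem indec_half {Y : Type*} [TopologicalSpace Y] {J K u v : Set Y}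
    (hJ : IsPreconnected J) (hJc : IsClosed J)
    (hK : IsConnected K) (hKc : IsClosed K) (hKJ : K ⊆ J) (hu : IsOpen u) (hv : IsOpen v)
    (hD : J \ K ⊆ u ∪ v) (hdis : ∀ x ∈ J \ K, x ∈ u → x ∈ v → False) :
    IsConnected (K ∪ ((J \ K) ∩ u)) := by
  refine ⟨hK.nonempty.mono subset_union_left, ?_⟩
  rw [isPreconnected_closed_iff]
  intro t t' ht ht' hcov h1 h2
  by_contra hcon
  have h3 : ∀ x ∈ K ∪ ((J \ K) ∩ u), x ∈ t → x ∈ t' → False := fun x hx hx1 hx2 =>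
    hcon ⟨x, hx, hx1, hx2⟩
  obtain ⟨x, hx⟩ := hK.nonempty
  rcases hcov (Or.inl hx) with h | h
  · exact indec_half_aux hJ hJc hK hKc hKJ hu hv hD hdis ht ht' hcov h2 h3 ⟨x, hx, h⟩
  · exact indec_half_aux hJ hJc hK hKc hKJ hu hv hD hdis ht' ht (by rwa [union_comm t' t]) h1
      (fun x hx h5 h6 => h3 x hx h6 h5) ⟨x, hx, h⟩

theorem indec_nowhere {Y : Type*} [MetricSpace Y] [CompactSpace Y] [ConnectedSpace Y]
    (hG : Good Y) {J : Set Y} (hJ : Ctm J) (hI : Indec J) {K : Set Y} (hK : Ctm K) (hKJ : K ⊆ J)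
    (hne : K ≠ J) {O : Set Y} (hO : IsOpen O) (hJO : (J ∩ O).Nonempty) :
    ((J ∩ O) \ K).Nonempty := by
  by_contra hcon
  have hOK : ∀ x ∈ J, x ∈ O → x ∈ K := by
    intro x hxJ hxO
    by_contra h
    exact hcon ⟨x, ⟨hxJ, hxO⟩, h⟩
  have hDne : (J \ K).Nonempty := by
    rw [Set.nonempty_iff_ne_empty]
    intro h
    exact hne (hKJ.antisymm (sdiff_eq_empty.1 h))
  have hJc := hJ.1.isClosed
  have hKc := hK.1.isClosed
  by_cases hD : IsPreconnected (J \ K)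
  · have h1 : Ctm (closure (J \ K)) :=
      ⟨isClosed_closure.isCompact, IsConnected.closure ⟨hDne, hD⟩⟩
    have h2 : closure (J \ K) ∪ K = J := by
      apply Subset.antisymm
      · exact union_subset (closure_minimal sdiff_subset hJc) hKJ
      · intro x hx
        by_cases hxK : x ∈ K
        · exact Or.inr hxK
        · exact Or.inl (subset_closure ⟨hx, hxK⟩)
    rcases hI _ _ h1 hK h2 with h3 | h3
    · obtain ⟨x, hxJ, hxO⟩ := hJO
      have h4 : x ∈ closure (J \ K) := by rw [h3]; exact hxJ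
      obtain ⟨w, hw1, hw2⟩ := mem_closure_iff.1 h4 O hO hxO
      exact hw2.2 (hOK w hw2.1 hw1)
    · exact hne h3
  · unfold IsPreconnected at hD
    push Not at hD
    obtain ⟨u, v, hu, hv, hcov, ⟨x1, hx1, hx1u⟩, ⟨x2, hx2, hx2v⟩, hempty⟩ := hD
    have hdis : ∀ x ∈ J \ K, x ∈ u → x ∈ v → False := by
      intro x hx hxu hxv
      have : x ∈ (J \ K) ∩ (u ∩ v) := ⟨hx, hxu, hxv⟩
      rw [hempty] at this
      exact this
    have hcov' : J \ K ⊆ v ∪ u := by rwa [union_comm]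
    have hdis' : ∀ x ∈ J \ K, x ∈ v → x ∈ u → False := fun x hx h1 h2 => hdis x hx h2 h1
    have c1 : Ctm (K ∪ ((J \ K) ∩ u)) :=
      ⟨(indec_half_closed hJc hKc hKJ hv hcov hdis).isCompact,
        indec_half hJ.2.isPreconnected hJc hK.2 hKc hKJ hu hv hcov hdis⟩
    have c2 : Ctm (K ∪ ((J \ K) ∩ v)) :=
      ⟨(indec_half_closed hJc hKc hKJ hu hcov' hdis').isCompact,
        indec_half hJ.2.isPreconnected hJc hK.2 hKc hKJ hv hu hcov' hdis'⟩
    have hun : (K ∪ ((J \ K) ∩ u)) ∪ (K ∪ ((J \ K) ∩ v)) = J := by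
      ext x
      constructor
      · rintro ((h | h) | (h | h))
        · exact hKJ h
        · exact h.1.1
        · exact hKJ h
        · exact h.1.1
      · intro hx
        by_cases hxK : x ∈ K
        · exact Or.inl (Or.inl hxK)
        · rcases hcov ⟨hx, hxK⟩ with h | h
          · exact Or.inl (Or.inr ⟨⟨hx, hxK⟩, h⟩)
          · exact Or.inr (Or.inr ⟨⟨hx, hxK⟩, h⟩)
    rcases hI _ _ c1 c2 hun with h | h
    · have : x2 ∈ K ∪ ((J \ K) ∩ u) := by rw [h]; exact hx2.1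
      rcases this with h' | h'
      · exact hx2.2 h'
      · exact hdis x2 hx2 h'.2 hx2v
    · have : x1 ∈ K ∪ ((J \ K) ∩ v) := by rw [h]; exact hx1.1
      rcases this with h' | h'
      · exact hx1.2 h'
      · exact hdis x1 hx1 hx1u h'.2

theorem indec_baire {Y : Type*} [MetricSpace Y] [CompactSpace Y] [ConnectedSpace Y]
    (hG : Good Y) {J : Set Y} (hJ : Ctm J) (hI : Indec J) {y : Y} (hy : y ∈ J) {O : Set Y}
    (hO : IsOpen O) (hJO : (J ∩ O).Nonempty) : ∃ c ∈ J ∩ O, Kab y c = J := by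
  by_contra hcon
  have hK : ∀ c ∈ J ∩ O, Kab y c ≠ J := fun c hc h => hcon ⟨c, hc, h⟩
  have hcJ : CompactSpace J := isCompact_iff_compactSpace.1 hJ.1
  obtain ⟨S, hS⟩ : ∃ S : Set (Set Y),
      S = {B | B ∈ TopologicalSpace.countableBasis Y ∧ (J ∩ B).Nonempty ∧ y ∉ B} := ⟨_, rfl⟩
  have hSc : S.Countable := by
    refine (TopologicalSpace.countable_countableBasis Y).mono ?_
    intro B hB
    rw [hS] at hB
    exact hB.1
  have hSo : ∀ B ∈ S, IsOpen B ∧ (J ∩ B).Nonempty ∧ y ∉ B := by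
    intro B hB
    rw [hS] at hB
    exact ⟨TopologicalSpace.isOpen_of_mem_countableBasis hB.1, hB.2⟩
  have hF : ∀ B ∈ S, Ctm (connectedComponentIn (J \ B) y) := by
    intro B hB
    obtain ⟨h1, h2, h3⟩ := hSo B hB
    exact ctm_component (hJ.1.diff h1) ⟨hy, h3⟩
  have hFJ : ∀ B ∈ S, connectedComponentIn (J \ B) y ⊆ J := by
    intro B hB
    exact (connectedComponentIn_subset _ _).trans sdiff_subset
  have hFne : ∀ B ∈ S, connectedComponentIn (J \ B) y ≠ J := by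
    intro B hB h
    obtain ⟨h1, ⟨x, hx1, hx2⟩, h3⟩ := hSo B hB
    have h4 : x ∈ connectedComponentIn (J \ B) y := by rw [h]; exact hx1
    exact (connectedComponentIn_subset _ _ h4).2 hx2
  have hdense : Dense (⋂ B ∈ S, {x : J | (x : Y) ∉ connectedComponentIn (J \ B) y}) := by
    refine dense_biInter_of_isOpen ?_ hSc ?_
    · intro B hB
      exact (hF B hB).1.isClosed.isOpen_compl.preimage continuous_subtype_val
    · intro B hB
      rw [dense_iff_inter_open]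
      intro V hV hVne
      obtain ⟨O', hO', rfl⟩ := isOpen_induced_iff.1 hV
      obtain ⟨x, hx⟩ := hVne
      obtain ⟨w, ⟨hw1, hw2⟩, hw3⟩ := indec_nowhere hG hJ hI (hF B hB) (hFJ B hB) (hFne B hB) hO'
        ⟨x, x.2, hx⟩
      exact ⟨⟨w, hw1⟩, hw2, hw3⟩
  obtain ⟨x, hx⟩ := hJO
  obtain ⟨c, hc1, hc2⟩ := hdense.inter_open_nonempty {x : J | (x : Y) ∈ O}
    (hO.preimage continuous_subtype_val) ⟨⟨x, hx.1⟩, hx.2⟩
  have hcJO : (c : Y) ∈ J ∩ O := ⟨c.2, hc1⟩
  have hsub : Kab y (c : Y) ⊆ J := kab_subset hJ hy c.2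
  obtain ⟨p, hp1, hp2⟩ : ∃ p ∈ J, p ∉ Kab y (c : Y) := by
    by_contra h
    push Not at h
    exact hK c hcJO (hsub.antisymm h)
  have hopen : IsOpen (Kab y (c : Y))ᶜ := (ctm_kab hG y c).1.isClosed.isOpen_compl
  obtain ⟨B, hB1, hB2, hB3⟩ := (TopologicalSpace.isBasis_countableBasis Y).exists_subset_of_mem_open
    (show p ∈ (Kab y (c : Y))ᶜ from hp2) hopen
  have hyB : y ∉ B := fun h => hB3 h (left_mem_kab y (c : Y))
  have hBS : B ∈ S := by
    rw [hS]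
    exact ⟨hB1, ⟨p, hp1, hB2⟩, hyB⟩
  have h1 := Set.mem_iInter₂.1 hc2 B hBS
  apply h1
  have h2 : Kab y (c : Y) ⊆ J \ B := fun q hq => ⟨hsub hq, fun h => hB3 h hq⟩
  exact (ctm_kab hG y c).2.isPreconnected.subset_connectedComponentIn (left_mem_kab y (c : Y)) h2
    (right_mem_kab y (c : Y))

theorem lift_e {Y : Type*} [MetricSpace Y] [CompactSpace Y] [ConnectedSpace Y]
    (hG : Good Y) {Q G P P' Q' : Set Y} (hQ : Ctm Q) (hGo : IsOpen G) (hP' : IsCompact P')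
    (hQ' : IsCompact Q') (hu : P' ∪ Q' = Q \ G) (hd : Disjoint P' Q') (hP : IsConnected P)
    (hPP : P ⊆ P') {e : Y → ℝ} (he : Continuous e)
    (hee : ∀ y ∈ P' ∩ closure G, e y = 0 ∨ e y = 1) :
    ∃ θ : Y → ℝ, Continuous θ ∧ (∀ y ∈ P, θ y = e y) ∧ (∀ y ∈ P', ∃ n : ℤ, θ y = e y + n) ∧
      (∀ y ∈ Q' ∪ (Q ∩ closure G), ∃ n : ℤ, θ y = n) := by
  classical
  have hpi : (0 : ℝ) < 2 * Real.pi := by positivity
  have hpi0 : (2 * Real.pi : ℝ) ≠ 0 := hpi.ne'
  have hQcl : IsClosed Q := hQ.1.isClosed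
  obtain ⟨R, hR⟩ : ∃ R : Set Y, R = Q' ∪ (Q ∩ closure G) := ⟨_, rfl⟩
  have hP'cl : IsClosed P' := hP'.isClosed
  have hRcl : IsClosed R := by
    rw [hR]
    exact hQ'.isClosed.union (hQcl.inter isClosed_closure)
  have hP'Q : P' ⊆ Q := fun y hy => (hu.subset (Or.inl hy)).1
  have hQ'Q : Q' ⊆ Q := fun y hy => (hu.subset (Or.inr hy)).1
  have hcov : P' ∪ R = Q := by
    apply Subset.antisymm
    · rintro y (hy | hy)
      · exact hP'Q hy
      · rw [hR] at hy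
        rcases hy with hy | hy
        · exact hQ'Q hy
        · exact hy.1
    · intro y hy
      by_cases hyG : y ∈ G
      · right
        rw [hR]
        exact Or.inr ⟨hy, subset_closure hyG⟩
      · have : y ∈ P' ∪ Q' := hu.symm.subset ⟨hy, hyG⟩
        rcases this with h | h
        · exact Or.inl h
        · right
          rw [hR]
          exact Or.inl h
  obtain ⟨γ, hγ⟩ : ∃ γ : Y → Circle, γ = fun y => if y ∈ P' then Circle.exp (e y * (2 * Real.pi)) else 1 :=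
    ⟨_, rfl⟩
  have hγP : ∀ y ∈ P', γ y = Circle.exp (e y * (2 * Real.pi)) := by
    intro y hy
    rw [hγ]
    exact if_pos hy
  have hγR : ∀ y ∈ R, γ y = 1 := by
    intro y hy
    by_cases hyP : y ∈ P'
    · rw [hγP y hyP]
      have hyG : y ∈ closure G := by
        rw [hR] at hy
        rcases hy with h | h
        · exact absurd h (Set.disjoint_left.1 hd hyP)
        · exact h.2
      rcases hee y ⟨hyP, hyG⟩ with h | h
      · rw [h]
        have := circle_exp_int 0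
        simpa using this
      · rw [h]
        have := circle_exp_int 1
        simpa using this
    · rw [hγ]
      exact if_neg hyP
  have hγc : ContinuousOn γ Q := by
    rw [← hcov]
    refine ContinuousOn.union_of_isClosed ?_ ?_ hP'cl hRcl
    · refine ContinuousOn.congr ?_ hγP
      exact (Circle.exp.continuous.comp (he.mul continuous_const)).continuousOn
    · exact ContinuousOn.congr continuousOn_const hγR
  obtain ⟨l, hl, hle⟩ := hG.logOn hQcl hQ.2 hγc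
  have hPl : ∀ y ∈ P', ∃ n : ℤ, l y / (2 * Real.pi) - e y = n := by
    intro y hy
    have h1 := hle y (hP'Q hy)
    rw [hγP y hy] at h1
    have h2 : Circle.exp (l y - e y * (2 * Real.pi)) = 1 := by
      rw [Circle.exp_sub, h1, div_self']
    obtain ⟨n, hn⟩ := circle_exp_eq_one h2
    refine ⟨n, ?_⟩
    have h3 : l y = (e y + n) * (2 * Real.pi) := by linarith
    rw [h3, mul_div_assoc, div_self hpi0]
    ring
  obtain ⟨p0, hp0⟩ := hP.nonempty
  obtain ⟨n0, hn0⟩ := hPl p0 (hPP hp0)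
  have hconst : ∀ y ∈ P, l y / (2 * Real.pi) - e y = n0 := by
    intro y hy
    rw [← hn0]
    refine const_of_int (f := fun y => l y / (2 * Real.pi) - e y) hP.isPreconnected ?_ one_pos ?_ hy hp0
    · exact ((hl.mono (hPP.trans hP'Q)).div_const _).sub he.continuousOn
    · intro x hx
      obtain ⟨n, hn⟩ := hPl x (hPP hx)
      exact ⟨n, by rw [mul_one]; exact hn⟩
  have hθc : ContinuousOn (fun y => l y / (2 * Real.pi) - n0) Q := (hl.div_const _).sub continuousOn_const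
  obtain ⟨g, hg⟩ := ContinuousMap.exists_restrict_eq hQcl
    (⟨Q.restrict (fun y => l y / (2 * Real.pi) - n0), hθc.restrict⟩ : C(Q, ℝ))
  have hgv : ∀ y ∈ Q, g y = l y / (2 * Real.pi) - n0 := by
    intro y hy
    have := DFunLike.congr_fun hg ⟨y, hy⟩
    exact this
  refine ⟨g, g.continuous, ?_, ?_, ?_⟩
  · intro y hy
    rw [hgv y (hP'Q (hPP hy))]
    linarith [hconst y hy]
  · intro y hy
    obtain ⟨n, hn⟩ := hPl y hy
    refine ⟨n - n0, ?_⟩
    rw [hgv y (hP'Q hy)]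
    push_cast
    linarith
  · intro y hy
    rw [← hR] at hy
    have hyQ : y ∈ Q := by rw [← hcov]; exact Or.inr hy
    have h1 := hle y hyQ
    rw [hγR y hy] at h1
    obtain ⟨n, hn⟩ := circle_exp_eq_one h1
    refine ⟨n - n0, ?_⟩
    rw [hgv y hyQ, hn, mul_div_assoc, div_self hpi0]
    push_cast
    ring

theorem lt_glue {Y : Type*} [MetricSpace Y] [CompactSpace Y] [ConnectedSpace Y]
    (hG : Good Y) {U : Set (Y × ℝ)} (hU : IsOpen U) {Q G : Set Y} (hQ : Ctm Q) (hGo : IsOpen G)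
    {y0 : Y} (hy0 : y0 ∈ Q \ G) {k κ1 κ2 : Y → ℝ}
    (hk : Sec U (connectedComponentIn (Q \ G) y0) k) (h1 : Sec U Q κ1) (h2 : Sec U Q κ2)
    {E1 E2 : Set Y} (hE1 : IsClosed E1) (hE2 : IsClosed E2)
    (hd : ∀ y ∈ connectedComponentIn (Q \ G) y0 ∩ closure G, y ∈ E1 → y ∈ E2 → False)
    (hE : connectedComponentIn (Q \ G) y0 ∩ closure G ⊆ E1 ∪ E2)
    (he1 : ∀ y ∈ connectedComponentIn (Q \ G) y0 ∩ closure G, y ∈ E1 → Eqv U y (κ1 y) (k y))
    (he2 : ∀ y ∈ connectedComponentIn (Q \ G) y0 ∩ closure G, y ∈ E2 → Eqv U y (κ2 y) (k y)) :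
    ∃ κ, Sec U Q κ ∧ ∀ y ∈ connectedComponentIn (Q \ G) y0, Eqv U y (k y) (κ y) := by
  have hΦ : IsCompact (Q \ G) := hQ.1.diff hGo
  have hPc : Ctm (connectedComponentIn (Q \ G) y0) := ctm_component hΦ hy0
  set P := connectedComponentIn (Q \ G) y0 with hPdef
  have hPcl : IsClosed P := hPc.1.isClosed
  have hEc1 : IsClosed (E1 ∩ (P ∩ closure G)) := hE1.inter (hPcl.inter isClosed_closure)
  have hEc2 : IsClosed (E2 ∩ (P ∩ closure G)) := hE2.inter (hPcl.inter isClosed_closure)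
  have hW1 : IsOpen {y | Eqv U y (κ1 y) (k y)} := isOpen_eqv hU continuous_id h1.1 hk.1
  have hW2 : IsOpen {y | Eqv U y (κ2 y) (k y)} := isOpen_eqv hU continuous_id h2.1 hk.1
  obtain ⟨N1, hN1o, hN1, hN1c⟩ := normal_exists_closure_subset hEc1
    (hW1.inter hEc2.isOpen_compl) (by
      rintro y ⟨hy1, hy2⟩
      exact ⟨he1 y hy2 hy1, fun h => hd y hy2 hy1 h.1⟩)
  obtain ⟨N2, hN2o, hN2, hN2c⟩ := normal_exists_closure_subset hEc2
    (hW2.inter (isClosed_closure (s := N1)).isOpen_compl) (by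
      rintro y ⟨hy1, hy2⟩
      exact ⟨he2 y hy2 hy1, fun h => (hN1c h).2 ⟨hy1, hy2⟩⟩)
  have hBc : IsClosed ({y | (y, k y) ∈ U}ᶜ ∪ (closure G \ (N1 ∪ N2))) := by
    refine IsClosed.union ?_ ?_
    · exact (hU.preimage (continuous_id.prodMk hk.1)).isClosed_compl
    · exact isClosed_closure.sdiff (hN1o.union hN2o)
  obtain ⟨P', Q', hP', hQ', hu, hdj, hPP, hBQ⟩ := clopen_nhd_component hΦ hy0 hBc (by
    rw [Set.eq_empty_iff_forall_notMem]
    rintro y ⟨hy, hy1 | hy2⟩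
    · exact hy1 (hk.2 y hy)
    · refine hy2.2 ?_
      rcases hE ⟨hy, hy2.1⟩ with h | h
      · exact Or.inl (hN1 ⟨h, hy, hy2.1⟩)
      · exact Or.inr (hN2 ⟨h, hy, hy2.1⟩))
  have hP'Q : ∀ y ∈ P', y ∈ Q \ G := fun y hy => hu ▸ Or.inl hy
  have hP'U : ∀ y ∈ P', (y, k y) ∈ U := by
    intro y hy
    by_contra hcon
    exact Set.disjoint_left.mp hdj hy (hBQ ⟨hP'Q y hy, Or.inl hcon⟩)
  have hP'N : ∀ y ∈ P', y ∈ closure G → y ∈ N1 ∨ y ∈ N2 := by
    intro y hy hyG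
    by_contra hcon
    exact Set.disjoint_left.mp hdj hy (hBQ ⟨hP'Q y hy, Or.inr ⟨hyG, hcon⟩⟩)
  have hF1c : IsClosed (P' ∩ closure G ∩ closure N1) :=
    (hP'.isClosed.inter isClosed_closure).inter isClosed_closure
  have hF2c : IsClosed (P' ∩ closure G ∩ closure N2) :=
    (hP'.isClosed.inter isClosed_closure).inter isClosed_closure
  have hF12 : Disjoint (P' ∩ closure G ∩ closure N1) (P' ∩ closure G ∩ closure N2) := by
    rw [Set.disjoint_left]
    rintro y hy1 hy2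
    exact (hN2c hy2.2).2 hy1.2
  obtain ⟨e, he0, he1', he01⟩ := exists_continuous_zero_one_of_isClosed hF1c hF2c hF12
  have hcov : ∀ y ∈ P' ∩ closure G,
      y ∈ P' ∩ closure G ∩ closure N1 ∨ y ∈ P' ∩ closure G ∩ closure N2 := by
    intro y hy
    rcases hP'N y hy.1 hy.2 with h | h
    · exact Or.inl ⟨hy, subset_closure h⟩
    · exact Or.inr ⟨hy, subset_closure h⟩
  obtain ⟨θ, hθc, hθP, hθP', hθR⟩ := lift_e hG hQ hGo hP' hQ' hu hdj hPc.2 hPP e.continuous (by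
    intro y hy
    rcases hcov y hy with h | h
    · exact Or.inl (he0 h)
    · exact Or.inr (he1' h))
  have hRc : IsClosed (Q' ∪ (Q ∩ closure G)) :=
    hQ'.isClosed.union (hQ.1.isClosed.inter isClosed_closure)
  have hC0c : IsClosed (P' ∩ {y | θ y = e y}) :=
    hP'.isClosed.inter (isClosed_eq hθc e.continuous)
  have hC1c : IsClosed ((P' ∩ {y | θ y ≤ e y - 1}) ∪ ((Q' ∪ (Q ∩ closure G)) ∩ {y | θ y ≤ 0})) :=
    (hP'.isClosed.inter (isClosed_le hθc (e.continuous.sub continuous_const))).union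
      (hRc.inter (isClosed_le hθc continuous_const))
  have hC2c : IsClosed ((P' ∩ {y | e y + 1 ≤ θ y}) ∪ ((Q' ∪ (Q ∩ closure G)) ∩ {y | 1 ≤ θ y})) :=
    (hP'.isClosed.inter (isClosed_le (e.continuous.add continuous_const) hθc)).union
      (hRc.inter (isClosed_le continuous_const hθc))
  have hC0 : ∀ y, y ∈ P' ∩ {y | θ y = e y} ↔ y ∈ P' ∧ θ y = e y := fun y => Iff.rfl
  have hC1 : ∀ y, y ∈ ((P' ∩ {y | θ y ≤ e y - 1}) ∪ ((Q' ∪ (Q ∩ closure G)) ∩ {y | θ y ≤ 0})) ↔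
      (y ∈ P' ∧ θ y ≤ e y - 1) ∨ ((y ∈ Q' ∨ (y ∈ Q ∧ y ∈ closure G)) ∧ θ y ≤ 0) :=
    fun y => Iff.rfl
  have hC2 : ∀ y, y ∈ ((P' ∩ {y | e y + 1 ≤ θ y}) ∪ ((Q' ∪ (Q ∩ closure G)) ∩ {y | 1 ≤ θ y})) ↔
      (y ∈ P' ∧ e y + 1 ≤ θ y) ∨ ((y ∈ Q' ∨ (y ∈ Q ∧ y ∈ closure G)) ∧ 1 ≤ θ y) :=
    fun y => Iff.rfl
  generalize (P' ∩ {y | θ y = e y}) = C0 at hC0 hC0c
  generalize ((P' ∩ {y | θ y ≤ e y - 1}) ∪ ((Q' ∪ (Q ∩ closure G)) ∩ {y | θ y ≤ 0})) = C1
    at hC1 hC1c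
  generalize ((P' ∩ {y | e y + 1 ≤ θ y}) ∪ ((Q' ∪ (Q ∩ closure G)) ∩ {y | 1 ≤ θ y})) = C2
    at hC2 hC2c
  have hsubQ : ∀ y ∈ Q, y ∈ (C0 ∪ C1) ∪ C2 := by
    intro y hy
    by_cases hyP : y ∈ P'
    · obtain ⟨n, hn⟩ := hθP' y hyP
      rcases lt_trichotomy n 0 with h0 | h0 | h0
      · refine Or.inl (Or.inr ((hC1 y).mpr (Or.inl ⟨hyP, ?_⟩)))
        have : (n : ℝ) ≤ -1 := by exact_mod_cast (by omega : n ≤ -1)
        linarith
      · refine Or.inl (Or.inl ((hC0 y).mpr ⟨hyP, ?_⟩))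
        rw [hn, h0]; simp
      · refine Or.inr ((hC2 y).mpr (Or.inl ⟨hyP, ?_⟩))
        have : (1 : ℝ) ≤ n := by exact_mod_cast (by omega : 1 ≤ n)
        linarith
    · have hyR : y ∈ Q' ∨ (y ∈ Q ∧ y ∈ closure G) := by
        by_cases hyG : y ∈ G
        · exact Or.inr ⟨hy, subset_closure hyG⟩
        · have : y ∈ P' ∪ Q' := by rw [hu]; exact ⟨hy, hyG⟩
          rcases this with h | h
          · exact absurd h hyP
          · exact Or.inl h
      obtain ⟨n, hn⟩ := hθR y hyR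
      rcases le_or_gt n 0 with h0 | h0
      · refine Or.inl (Or.inr ((hC1 y).mpr (Or.inr ⟨hyR, ?_⟩)))
        rw [hn]; exact_mod_cast h0
      · refine Or.inr ((hC2 y).mpr (Or.inr ⟨hyR, ?_⟩))
        rw [hn]; exact_mod_cast (by omega : 1 ≤ n)
  have hC1Q : C1 ⊆ Q := by
    intro y hy
    rcases (hC1 y).mp hy with h | ⟨h | h, _⟩
    · exact (hP'Q y h.1).1
    · have : y ∈ Q \ G := hu ▸ Or.inr h
      exact this.1
    · exact h.1
  have hC2Q : C2 ⊆ Q := by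
    intro y hy
    rcases (hC2 y).mp hy with h | ⟨h | h, _⟩
    · exact (hP'Q y h.1).1
    · have : y ∈ Q \ G := hu ▸ Or.inr h
      exact this.1
    · exact h.1
  have hC0U : Sec U C0 k := ⟨hk.1, fun y hy => hP'U y ((hC0 y).mp hy).1⟩
  have hC01 : ∀ y ∈ C0 ∩ C1, Eqv U y (k y) (κ1 y) := by
    rintro y ⟨hy0', hy1⟩
    obtain ⟨a1, a2⟩ := (hC0 y).mp hy0'
    have hF : y ∈ P' ∩ closure G ∩ closure N1 := by
      rcases (hC1 y).mp hy1 with h | ⟨h | h, hle⟩
      · exfalso; linarith [h.2]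
      · exact absurd h (Set.disjoint_left.mp hdj a1)
      · rcases hcov y ⟨a1, h.2⟩ with h' | h'
        · exact h'
        · exfalso
          have : e y = 1 := he1' h'
          linarith
    exact ((hN1c hF.2).1 : Eqv U y (κ1 y) (k y)).symm
  have hC02 : ∀ y ∈ C0 ∩ C2, Eqv U y (k y) (κ2 y) := by
    rintro y ⟨hy0', hy1⟩
    obtain ⟨a1, a2⟩ := (hC0 y).mp hy0'
    have hF : y ∈ P' ∩ closure G ∩ closure N2 := by
      rcases (hC2 y).mp hy1 with h | ⟨h | h, hle⟩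
      · exfalso; linarith [h.2]
      · exact absurd h (Set.disjoint_left.mp hdj a1)
      · rcases hcov y ⟨a1, h.2⟩ with h' | h'
        · exfalso
          have : e y = 0 := he0 h'
          linarith
        · exact h'
    exact ((hN2c hF.2).1 : Eqv U y (κ2 y) (k y)).symm
  have hC12 : ∀ y, y ∈ C1 → y ∈ C2 → False := by
    intro y hy1 hy2
    have hb := he01 y
    rcases (hC1 y).mp hy1 with h | ⟨h, hle⟩
    · rcases (hC2 y).mp hy2 with h' | ⟨h', hge⟩
      · linarith [h.2, h'.2]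
      · linarith [h.2, hb.2]
    · rcases (hC2 y).mp hy2 with h' | ⟨h', hge⟩
      · linarith [h'.2, hb.1]
      · linarith
  obtain ⟨h, hh1, hh2, hh3, _⟩ := glue hU hC0c hC1c hC0U (h1.mono hC1Q) hC01
  obtain ⟨κ, hκ1, hκ2, hκ3, _⟩ := glue hU (hC0c.union hC1c) hC2c hh1 (h2.mono hC2Q) (by
    rintro y ⟨hy | hy, hy2⟩
    · exact (hh2 y hy).symm.trans (hC02 y ⟨hy, hy2⟩)
    · exact (hC12 y hy hy2).elim)
  refine ⟨κ, ⟨hκ1.1, fun y hy => hκ1.2 y (hsubQ y hy)⟩, fun y hy => ?_⟩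
  have hy0' : y ∈ C0 := (hC0 y).mpr ⟨hPP hy, hθP y hy⟩
  exact (hh2 y hy0').trans (hκ2 y (Or.inl hy0'))

end Pool.Agent.H963CF
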