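import Pool.Agent.H963CF.C

set_option autoImplicit false

namespace Pool.Agent.H963CF

open Set Topology Filter
open Pool.Agent.H963CF.L739.CT (Ctm ctm_union ctm_component clopen_nhd_component cutwire bump
  crossing_real sub_of_split ctm_iInter_directed const_of_int circle_exp_eq_one circle_exp_int
  log_unique)
open Pool.Agent.H963CF.L739.CG (Good unicoherent ctm_inter)

theorem ee_aux {Y : Type*} [MetricSpace Y] [CompactSpace Y] [ConnectedSpace Y]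
    {U : Set (Y × ℝ)} (hU : IsOpen U) {Q : Set Y} (hQ : Ctm Q)
    {G : Set Y} (hGo : IsOpen G) {y0 : Y} (hy0 : y0 ∈ Q \ G) {k κ : Y → ℝ}
    (hk : Sec U (connectedComponentIn (Q \ G) y0) k) (hκ : Sec U Q κ) {F : Set Y}
    (hFc : IsClosed F) (hF : F ⊆ connectedComponentIn (Q \ G) y0) {z : Y}
    (hz : Eqv U z (k z) (κ z))
    (hall : ∀ s ∈ connectedComponentIn (Q \ G) y0 ∩ closure G, ∀ p ∈ F, z ∈ Kab p s) :
    ∃ κ', Sec U Q κ' ∧ ∀ y ∈ F, Eqv U y (k y) (κ' y) := by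
  have hc : IsCompact (Q \ G) := hQ.1.diff hGo
  have hP : Ctm (connectedComponentIn (Q \ G) y0) := ctm_component hc hy0
  have hPQ : connectedComponentIn (Q \ G) y0 ⊆ Q :=
    (connectedComponentIn_subset _ _).trans sdiff_subset
  refine exits hU hQ.1 hGo hy0 hk hκ hF ?_
  intro s hs
  obtain ⟨k', hk', _, h1, h2, _⟩ := splice hU hP.1.isClosed hk (hκ.mono hPQ) (T1 := F) (T2 := {s})
    hFc isClosed_singleton (by
      rintro K hKP hK ⟨p, hpK, hpF⟩ ⟨q, hqK, hqs⟩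
      rw [mem_singleton_iff] at hqs
      rw [hqs] at hqK
      exact ⟨z, kab_subset hK hpK hqK (hall s hs p hpF), hz⟩)
  exact ⟨k', hk', fun y hy => h1 y ⟨hy, hF hy⟩, h2 s ⟨mem_singleton s, hs.1⟩⟩

theorem ext_exits {Y : Type*} [MetricSpace Y] [CompactSpace Y] [ConnectedSpace Y]
    (hG : Good Y) {U : Set (Y × ℝ)} (hU : IsOpen U) {Q : Set Y} {w b y : Y} {h κ1 κ2 : Y → ℝ}
    (m : EMin U Q w b y h κ1 κ2) {G : Set Y} (hGo : IsOpen G) (hGK : closure G ∩ Kab w b = ∅)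
    (hGQ : (Q ∩ G).Nonempty) :
    (∃ s ∈ connectedComponentIn (Q \ G) w ∩ closure G, w ∉ Kab b s) ∧
      (∃ s ∈ connectedComponentIn (Q \ G) w ∩ closure G, b ∉ Kab w s) := by
  have hd := m.dat
  have hKG : ∀ z ∈ Kab w b, z ∉ G := by
    intro z hz hzG
    have : z ∈ closure G ∩ Kab w b := ⟨subset_closure hzG, hz⟩
    rw [hGK] at this
    exact this
  have hKQG : Kab w b ⊆ Q \ G := fun z hz => ⟨hd.sub hz, hKG z hz⟩
  have hw0 : w ∈ Q \ G := hKQG (left_mem_kab w b)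
  have hc : IsCompact (Q \ G) := hd.hQ.1.diff hGo
  have hP : Ctm (connectedComponentIn (Q \ G) w) := ctm_component hc hw0
  have hPQG : connectedComponentIn (Q \ G) w ⊆ Q \ G := connectedComponentIn_subset _ _
  have hPQ : connectedComponentIn (Q \ G) w ⊆ Q := hPQG.trans sdiff_subset
  have hKP : Kab w b ⊆ connectedComponentIn (Q \ G) w :=
    (ctm_kab hG w b).2.isPreconnected.subset_connectedComponentIn (left_mem_kab w b) hKQG
  have hne : connectedComponentIn (Q \ G) w ≠ Q := by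
    intro he
    obtain ⟨z, hzQ, hzG⟩ := hGQ
    rw [← he] at hzQ
    exact (hPQG hzQ).2 hzG
  obtain ⟨k, hk, hkw, hkb, hky⟩ := m.min _ hP hKP hPQ hne
  have hF : ({w, b, y} : Set Y) ⊆ connectedComponentIn (Q \ G) w := by
    rintro z (rfl | rfl | rfl)
    · exact hKP (left_mem_kab _ _)
    · exact hKP (right_mem_kab _ _)
    · exact hKP hd.hy
  have hFc : IsClosed ({w, b, y} : Set Y) := (Set.toFinite _).isClosed
  have hsK : ∀ s ∈ connectedComponentIn (Q \ G) w ∩ closure G, s ∉ Kab w b := by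
    intro s hs hsK
    have : s ∈ closure G ∩ Kab w b := ⟨hs.2, hsK⟩
    rw [hGK] at this
    exact this
  have hfin : ¬ ∃ κ', Sec U Q κ' ∧ ∀ z ∈ ({w, b, y} : Set Y), Eqv U z (k z) (κ' z) := by
    rintro ⟨κ', hκ', h1⟩
    exact m.fail ⟨κ', hκ', hkw.trans (h1 w (by simp)), hkb.trans (h1 b (by simp)),
      hky.trans (h1 y (by simp))⟩
  constructor
  · by_contra hcon
    push Not at hcon
    apply hfin
    refine ee_aux hU hd.hQ hGo hw0 hk hd.k1 hFc hF (z := w) (hkw.symm.trans hd.e1) ?_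
    rintro s hs p (rfl | rfl | rfl)
    · exact left_mem_kab _ _
    · exact hcon s hs
    · exact hd.a1 s (hsK s hs) (hcon s hs)
  · by_contra hcon
    push Not at hcon
    apply hfin
    refine ee_aux hU hd.hQ hGo hw0 hk hd.k2 hFc hF (z := b) (hkb.symm.trans hd.e2) ?_
    rintro s hs p (rfl | rfl | rfl)
    · exact hcon s hs
    · exact left_mem_kab _ _
    · exact hd.a2 s (hsK s hs) (hcon s hs)

theorem ei_open {Y : Type*} [MetricSpace Y] {S : Set Y} (hS : IsClosed S) {c : Y} (hc : c ∉ S) :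
    ∃ G : Set Y, IsOpen G ∧ c ∈ G ∧ closure G ∩ S = ∅ := by
  obtain ⟨t, ht, htc, hts⟩ := exists_mem_nhds_isClosed_subset (hS.isOpen_compl.mem_nhds hc)
  refine ⟨interior t, isOpen_interior, mem_interior_iff_mem_nhds.2 ht, ?_⟩
  rw [Set.eq_empty_iff_forall_notMem]
  rintro x ⟨hx, hxS⟩
  have h1 : x ∈ t := (closure_minimal interior_subset htc) hx
  exact hts h1 hxS

theorem ei_exits {Y : Type*} [MetricSpace Y] [CompactSpace Y] [ConnectedSpace Y]
    (hG : Good Y) {U : Set (Y × ℝ)} (hU : IsOpen U) {Q : Set Y} {w b y : Y} {h κ1 κ2 : Y → ℝ}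
    (m : EMin U Q w b y h κ1 κ2) {G : Set Y} (hGo : IsOpen G) (hGK : closure G ∩ Kab w b = ∅)
    (hGQ : (Q ∩ G).Nonempty) :
    ∃ s1 ∈ Q ∩ closure G, ∃ s2 ∈ Q ∩ closure G, s1 ∉ Kab w b ∧ s2 ∉ Kab w b ∧ w ∉ Kab b s1 ∧
      b ∉ Kab w s2 ∧ b ∈ Kab w s1 ∧ w ∈ Kab b s2 ∧ w ∈ Kab s1 s2 ∧ b ∈ Kab s1 s2 := by
  obtain ⟨⟨s1, hs1, h1⟩, ⟨s2, hs2, h2⟩⟩ := ext_exits hG hU m hGo hGK hGQ
  have hs1Q : s1 ∈ Q ∩ closure G := ⟨(connectedComponentIn_subset _ _ hs1.1).1, hs1.2⟩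
  have hs2Q : s2 ∈ Q ∩ closure G := ⟨(connectedComponentIn_subset _ _ hs2.1).1, hs2.2⟩
  have hs1K : s1 ∉ Kab w b := fun h' => (Set.eq_empty_iff_forall_notMem.1 hGK) s1 ⟨hs1.2, h'⟩
  have hs2K : s2 ∉ Kab w b := fun h' => (Set.eq_empty_iff_forall_notMem.1 hGK) s2 ⟨hs2.2, h'⟩
  have h3 : b ∈ Kab w s1 := by
    rcases kab_three hG w b s1 with h' | h' | h'
    · exact absurd h' h1
    · exact h'
    · exact absurd h' hs1K
  have h4 : w ∈ Kab b s2 := by
    rcases kab_three hG w b s2 with h' | h' | h'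
    · exact h'
    · exact absurd h' h2
    · exact absurd h' hs2K
  have h5 : w ∈ Kab s1 s2 := by
    rcases kab_tri hG b s1 s2 h4 with h' | h'
    · exact absurd h' h1
    · exact h'
  have h6 : b ∈ Kab s1 s2 := by
    rcases kab_tri hG w s2 s1 h3 with h' | h'
    · exact absurd h' h2
    · rw [kab_comm]; exact h'
  exact ⟨s1, hs1Q, s2, hs2Q, hs1K, hs2K, h1, h2, h3, h4, h5, h6⟩

theorem ei_claim {Y : Type*} [MetricSpace Y] [CompactSpace Y] [ConnectedSpace Y]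
    (hG : Good Y) {U : Set (Y × ℝ)} (hU : IsOpen U) {Q : Set Y} {w b y : Y} {h κ1 κ2 : Y → ℝ}
    (m : EMin U Q w b y h κ1 κ2) {A B : Set Y} (hA : Ctm A) (hB : Ctm B) (hAB : A ∪ B = Q)
    (hne : (A \ (B ∪ Kab w b)).Nonempty) : Kab w b ⊆ A := by
  obtain ⟨c, hcA, hc⟩ := hne
  obtain ⟨G, hGo, hcG, hGS⟩ := ei_open (hB.1.isClosed.union (ctm_kab hG w b).1.isClosed) hc
  rw [Set.eq_empty_iff_forall_notMem] at hGS
  have hGK : closure G ∩ Kab w b = ∅ := by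
    rw [Set.eq_empty_iff_forall_notMem]
    exact fun x hx => hGS x ⟨hx.1, Or.inr hx.2⟩
  obtain ⟨s1, hs1, s2, hs2, -, -, -, -, -, -, h5, h6⟩ := ei_exits hG hU m hGo hGK
    ⟨c, by rw [← hAB]; exact Or.inl hcA, hcG⟩
  have hsA : ∀ s ∈ Q ∩ closure G, s ∈ A := by
    intro s hs
    have h7 : s ∈ A ∪ B := by rw [hAB]; exact hs.1
    rcases h7 with h7 | h7
    · exact h7
    · exact absurd ⟨hs.2, Or.inl h7⟩ (hGS s)
  exact (kab_subset_kab hG h5 h6).trans (kab_subset hA (hsA s1 hs1) (hsA s2 hs2))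

theorem ei_case {Y : Type*} [MetricSpace Y] [CompactSpace Y] [ConnectedSpace Y]
    (hG : Good Y) {U : Set (Y × ℝ)} (hU : IsOpen U) {Q : Set Y} {w b y : Y} {h κ1 κ2 : Y → ℝ}
    (m : EMin U Q w b y h κ1 κ2) {A B : Set Y} (hA : Ctm A) (hB : Ctm B) (hAB : A ∪ B = Q)
    (hsub : A ⊆ B ∪ Kab w b) : B = Q := by
  have hBQ : B ⊆ Q := by rw [← hAB]; exact subset_union_right
  have h1 : B ∪ Kab w b = Q := by
    apply Subset.antisymm
    · exact union_subset hBQ m.dat.sub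
    · rw [← hAB]
      exact union_subset hsub subset_union_left
  have h2 : Kab w b ⊆ B := by
    apply ei_claim hG hU m hB (ctm_kab hG w b) h1
    by_contra hcon
    rw [Set.not_nonempty_iff_eq_empty, Set.diff_eq_empty, union_self] at hcon
    apply m.ne
    rw [← h1, union_eq_self_of_subset_left hcon]
  rw [← h1, union_eq_self_of_subset_right h2]

theorem ext_indec {Y : Type*} [MetricSpace Y] [CompactSpace Y] [ConnectedSpace Y]
    (hG : Good Y) {U : Set (Y × ℝ)} (hU : IsOpen U) {Q : Set Y} {w b y : Y} {h κ1 κ2 : Y → ℝ}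
    (m : EMin U Q w b y h κ1 κ2) : Indec Q := by
  intro A B hA hB hAB
  by_contra hcon
  push Not at hcon
  obtain ⟨hAQ, hBQ⟩ := hcon
  have hBA : B ∪ A = Q := by rw [union_comm]; exact hAB
  have hn1 : (A \ (B ∪ Kab w b)).Nonempty := by
    by_contra hc
    rw [Set.not_nonempty_iff_eq_empty, Set.diff_eq_empty] at hc
    exact hBQ (ei_case hG hU m hA hB hAB hc)
  have hn2 : (B \ (A ∪ Kab w b)).Nonempty := by
    by_contra hc
    rw [Set.not_nonempty_iff_eq_empty, Set.diff_eq_empty] at hc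
    exact hAQ (ei_case hG hU m hB hA hBA hc)
  have hKA : Kab w b ⊆ A := ei_claim hG hU m hA hB hAB hn1
  have hKB : Kab w b ⊆ B := ei_claim hG hU m hB hA hBA hn2
  obtain ⟨c, hcA, hc⟩ := hn1
  have hcB : c ∉ B := fun h' => hc (Or.inl h')
  obtain ⟨G, hGo, hcG, hGS⟩ := ei_open hB.1.isClosed hcB
  rw [Set.eq_empty_iff_forall_notMem] at hGS
  have hGK : closure G ∩ Kab w b = ∅ := by
    rw [Set.eq_empty_iff_forall_notMem]
    exact fun x hx => hGS x ⟨hx.1, hKB hx.2⟩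
  obtain ⟨s1, hs1, s2, hs2, hs1K, hs2K, h1, h2, h3, h4, h5, h6⟩ := ei_exits hG hU m hGo hGK
    ⟨c, by rw [← hAB]; exact Or.inl hcA, hcG⟩
  have hsA : ∀ s ∈ Q ∩ closure G, s ∈ A ∧ s ∉ B := by
    intro s hs
    have hsB : s ∉ B := fun h' => hGS s ⟨hs.2, h'⟩
    have h7 : s ∈ A ∪ B := by rw [hAB]; exact hs.1
    rcases h7 with h7 | h7
    · exact ⟨h7, hsB⟩
    · exact absurd h7 hsB
  have hK : Ctm (Kab w b) := ctm_kab hG w b
  have hwK : w ∈ Kab w b := left_mem_kab w b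
  have hbK : b ∈ Kab w b := right_mem_kab w b
  have hL1 : Ctm (Kab w b ∪ Kab b s1) := ctm_union hK (ctm_kab hG b s1) ⟨b, hbK, left_mem_kab b s1⟩
  have hL2 : Ctm (Kab w b ∪ Kab w s2) := ctm_union hK (ctm_kab hG w s2) ⟨w, hwK, left_mem_kab w s2⟩
  rcases hG.atri hL1 hL2 hB ⟨w, ⟨Or.inl hwK, Or.inl hwK⟩, hKB hwK⟩ with h7 | h7 | h7
  · have h8 : s1 ∈ (Kab w b ∪ Kab w s2) ∪ B := h7 (Or.inr (right_mem_kab b s1))
    rcases h8 with (h8 | h8) | h8
    · exact hs1K h8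
    · exact h2 (kab_subset_kab hG (left_mem_kab w s2) h8 h3)
    · exact (hsA s1 hs1).2 h8
  · have h8 : s2 ∈ (Kab w b ∪ Kab b s1) ∪ B := h7 (Or.inr (right_mem_kab w s2))
    rcases h8 with (h8 | h8) | h8
    · exact hs2K h8
    · exact h1 (kab_subset_kab hG (left_mem_kab b s1) h8 h4)
    · exact (hsA s2 hs2).2 h8
  · apply hAQ
    have h9 : B ⊆ A := by
      refine h7.trans (union_subset (union_subset hKA ?_) (union_subset hKA ?_))
      · exact kab_subset hA (hKA hbK) (hsA s1 hs1).1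
      · exact kab_subset hA (hKA hwK) (hsA s2 hs2).1
    rw [← hAB, union_eq_self_of_subset_right h9]

theorem ext_min {Y : Type*} [MetricSpace Y] [CompactSpace Y] [ConnectedSpace Y]
    (hG : Good Y) {U : Set (Y × ℝ)} (hU : IsOpen U) {Q : Set Y} {w b y : Y} {h κ1 κ2 : Y → ℝ}
    (d : EDat U Q w b y h κ1 κ2) (hh : Sec U (Kab w b) h) (hf : ¬ Ext3 U Q w b y h) :
    ∃ Q', EMin U Q' w b y h κ1 κ2 := by
  set F : Set (Set Y) := {Q' | Ctm Q' ∧ Kab w b ⊆ Q' ∧ Q' ⊆ Q ∧ ¬ Ext3 U Q' w b y h} with hF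
  have hQF : Q ∈ F := ⟨d.hQ, d.sub, Subset.rfl, hf⟩
  have hchain : ∀ c ⊆ F, IsChain (· ⊆ ·) c → c.Nonempty → ∃ lb ∈ F, ∀ s ∈ c, lb ⊆ s := by
    intro c hc hch hne
    refine ⟨⋂₀ c, ?_, fun s hs => sInter_subset_of_mem hs⟩
    haveI : Nonempty c := hne.to_subtype
    have hdir : Directed (· ⊇ ·) (fun i : c => (i : Set Y)) := by
      intro i j
      rcases hch.total i.2 j.2 with h1 | h1
      · exact ⟨i, Subset.rfl, h1⟩
      · exact ⟨j, h1, Subset.rfl⟩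
    have hctm : ∀ i : c, Ctm (i : Set Y) := fun i => (hc i.2).1
    have hI : ⋂₀ c = ⋂ i : c, (i : Set Y) := sInter_eq_iInter
    refine ⟨?_, ?_, ?_, ?_⟩
    · rw [hI]; exact ctm_iInter_directed hdir hctm
    · exact subset_sInter fun s hs => (hc hs).2.1
    · obtain ⟨s, hs⟩ := hne
      exact (sInter_subset_of_mem hs).trans (hc hs).2.2.1
    · rintro ⟨k, hk, k1, k2, k3⟩
      have hO : IsOpen {z : Y | (z, k z) ∈ U} := hU.preimage (continuous_id.prodMk hk.1)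
      obtain ⟨i, hi⟩ := exists_subset_nhds_of_isCompact' hdir (fun i => (hctm i).1)
        (fun i => (hctm i).1.isClosed) (U := {z : Y | (z, k z) ∈ U}) (by
          intro z hz
          rw [← hI] at hz
          exact hO.mem_nhds (hk.2 z hz))
      exact (hc i.2).2.2.2 ⟨k, ⟨hk.1, fun z hz => hi hz⟩, k1, k2, k3⟩
  obtain ⟨m, hmQ, hm⟩ := zorn_superset_nonempty F hchain Q hQF
  obtain ⟨m1, m2, m3, m4⟩ := hm.prop
  refine ⟨m, ⟨⟨m1, m2, d.hy, d.a1, d.a2, d.k1.mono m3, d.k2.mono m3, d.e1, d.e2⟩, ?_, m4, ?_⟩⟩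
  · intro he
    apply m4
    rw [← he]
    exact ⟨h, hh, Eqv.rfl' (hh.2 w (left_mem_kab w b)), Eqv.rfl' (hh.2 b (right_mem_kab w b)),
      Eqv.rfl' (hh.2 y d.hy)⟩
  · intro Q' h1 h2 h3 h4
    by_contra h5
    have h6 : Q' ∈ F := ⟨h1, h2, h3.trans m3, h5⟩
    exact h4 (Subset.antisymm h3 (hm.le_of_le h6 h3))

/-- modification of `k` at one exit -/
theorem ef_one {Y : Type*} [MetricSpace Y] [CompactSpace Y] [ConnectedSpace Y]
    {U : Set (Y × ℝ)} (hU : IsOpen U) {P : Set Y} (hP : Ctm P) {k κ : Y → ℝ}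
    (hk : Sec U P k) (hκ : Sec U P κ) {w b y p s : Y} (hw : w ∈ P) (hb : b ∈ P) (hy : y ∈ P)
    (hs : s ∈ P) (he : Eqv U p (k p) (κ p)) (h1 : p ∈ Kab w s) (h2 : p ∈ Kab b s)
    (h3 : p ∈ Kab y s) :
    ∃ k', Sec U P k' ∧ (∀ z ∈ ({w, b, y} : Set Y), Eqv U z (k z) (k' z)) ∧
      Eqv U s (κ s) (k' s) := by
  obtain ⟨k', hk', -, e1, e2, -⟩ := splice hU hP.1.isClosed hk hκ
    (T1 := ({w, b, y} : Set Y)) (T2 := {s})
    (Set.Finite.isClosed (by simp)) isClosed_singleton (by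
      rintro K hKP hK ⟨z, hzK, hz⟩ ⟨z', hz'K, hz'⟩
      rw [mem_singleton_iff] at hz'
      subst hz'
      refine ⟨p, ?_, he⟩
      rcases hz with rfl | rfl | rfl
      · exact kab_subset hK hzK hz'K h1
      · exact kab_subset hK hzK hz'K h2
      · exact kab_subset hK hzK hz'K h3)
  refine ⟨k', hk', ?_, e2 s ⟨rfl, hs⟩⟩
  intro z hz
  refine e1 z ⟨hz, ?_⟩
  rcases hz with rfl | rfl | rfl
  · exact hw
  · exact hb
  · exact hy

theorem ext_false {Y : Type*} [MetricSpace Y] [CompactSpace Y] [ConnectedSpace Y]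
    (hG : Good Y) {U : Set (Y × ℝ)} (hU : IsOpen U) {Q : Set Y} {w b y : Y} {h κ1 κ2 : Y → ℝ}
    (m : EMin U Q w b y h κ1 κ2) : False := by
  have hQ := m.dat.hQ
  have hI := ext_indec hG hU m
  have hKc : IsClosed (Kab w b) := (ctm_kab hG w b).1.isClosed
  have hwK : w ∈ Kab w b := left_mem_kab w b
  have hbK : b ∈ Kab w b := right_mem_kab w b
  have hyK := m.dat.hy
  have hKQ := m.dat.sub
  have hmeet : (Q ∩ (Kab w b)ᶜ).Nonempty := by
    by_contra hcon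
    rw [not_nonempty_iff_eq_empty] at hcon
    apply m.ne
    refine Subset.antisymm hKQ fun z hz => ?_
    by_contra hz'
    have : z ∈ Q ∩ (Kab w b)ᶜ := ⟨hz, hz'⟩
    rw [hcon] at this
    exact this
  obtain ⟨c, ⟨hcQ, hcK⟩, -⟩ := indec_baire hG hQ hI (hKQ hwK) hKc.isOpen_compl hmeet
  obtain ⟨r, hr, hrK⟩ := Metric.nhds_basis_closedBall.mem_iff.1 (hKc.isOpen_compl.mem_nhds hcK)
  obtain ⟨G1, hG1⟩ : ∃ G1, G1 = Metric.ball c r := ⟨_, rfl⟩
  obtain ⟨G2, hG2⟩ : ∃ G2, G2 = Metric.ball c (r / 2) := ⟨_, rfl⟩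
  have hG1o : IsOpen G1 := by rw [hG1]; exact Metric.isOpen_ball
  have hG2o : IsOpen G2 := by rw [hG2]; exact Metric.isOpen_ball
  have hcG1 : c ∈ G1 := by rw [hG1]; exact Metric.mem_ball_self hr
  have hcG2 : c ∈ G2 := by rw [hG2]; exact Metric.mem_ball_self (by positivity)
  have hG1K : ∀ z ∈ closure G1, z ∉ Kab w b := by
    intro z hz
    rw [hG1] at hz
    exact hrK (Metric.closure_ball_subset_closedBall hz)
  have hG21 : closure G2 ⊆ G1 := by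
    rw [hG1, hG2]
    refine Metric.closure_ball_subset_closedBall.trans (Metric.closedBall_subset_ball (by linarith))
  have hG21' : G2 ⊆ G1 := subset_closure.trans hG21
  have hG2K : closure G2 ∩ Kab w b = ∅ := by
    rw [eq_empty_iff_forall_notMem]
    rintro z ⟨h1, h2⟩
    exact hG1K z (subset_closure (hG21 h1)) h2
  have hKG1 : Kab w b ⊆ Q \ G1 := fun z hz => ⟨hKQ hz, fun h' => hG1K z (subset_closure h') hz⟩
  obtain ⟨P1, hP1⟩ : ∃ P1, P1 = connectedComponentIn (Q \ G1) w := ⟨_, rfl⟩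
  have hQG1 : IsCompact (Q \ G1) := hQ.1.diff hG1o
  have hP1c : Ctm P1 := by rw [hP1]; exact ctm_component hQG1 (hKG1 hwK)
  have hP1s : P1 ⊆ Q \ G1 := by rw [hP1]; exact connectedComponentIn_subset _ _
  have hKP1 : Kab w b ⊆ P1 := by
    rw [hP1]
    exact (ctm_kab hG w b).2.isPreconnected.subset_connectedComponentIn hwK hKG1
  have hwP := hKP1 hwK
  have hbP := hKP1 hbK
  have hyP := hKP1 hyK
  obtain ⟨⟨sb, ⟨-, hsbG⟩, hsb⟩, ⟨sa, ⟨-, hsaG⟩, hsa⟩⟩ := ext_exits hG hU m hG2o hG2K ⟨c, hcQ, hcG2⟩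
  have hsaP : sa ∉ P1 := fun h' => (hP1s h').2 (hG21 hsaG)
  have hsbP : sb ∉ P1 := fun h' => (hP1s h').2 (hG21 hsbG)
  have hsplit := pure_split hG hP1c hwP hbP hsaP hsbP hsa hsb
  obtain ⟨S, hS⟩ : ∃ S, S = P1 ∩ closure G1 := ⟨_, rfl⟩
  have hScomp : IsCompact S := by rw [hS]; exact hP1c.1.inter_right isClosed_closure
  have hSK : ∀ s ∈ S, s ∉ Kab w b := by
    intro s hs
    rw [hS] at hs
    exact hG1K s hs.2
  have hSP : ∀ s ∈ S, s ∈ P1 := by
    intro s hs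
    rw [hS] at hs
    exact hs.1
  have hEac : IsClosed (Kab w sa) := (ctm_kab hG w sa).1.isClosed
  have hEbc : IsClosed (Kab b sb) := (ctm_kab hG b sb).1.isClosed
  have hSE : ∀ s ∈ S, s ∈ Kab w sa ∨ s ∈ Kab b sb := by
    intro s hs
    rcases hsplit (hSP s hs) with (h' | h') | h'
    · exact absurd h' (hSK s hs)
    · exact Or.inl h'
    · exact Or.inr h'
  have hEa : ∀ s ∈ Kab w sa, b ∉ Kab w s := fun s hs h' =>
    hsa (kab_subset_kab hG (left_mem_kab w sa) hs h')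
  have hEb : ∀ s ∈ Kab b sb, w ∉ Kab b s := fun s hs h' =>
    hsb (kab_subset_kab hG (left_mem_kab b sb) hs h')
  have hEab : ∀ s ∈ S, s ∈ Kab w sa → s ∈ Kab b sb → False := by
    intro s hs h1 h2
    rcases kab_three hG w b s with h3 | h3 | h3
    · exact hEb s h2 h3
    · exact hEa s h1 h3
    · exact hSK s hs h3
  have hWa : ∀ s ∈ S, s ∈ Kab w sa → w ∈ Kab b s := by
    intro s hs h1
    rcases kab_three hG w b s with h3 | h3 | h3
    · exact h3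
    · exact absurd h3 (hEa s h1)
    · exact absurd h3 (hSK s hs)
  have hBb : ∀ s ∈ S, s ∈ Kab b sb → b ∈ Kab w s := by
    intro s hs h1
    rcases kab_three hG w b s with h3 | h3 | h3
    · exact absurd h3 (hEb s h1)
    · exact h3
    · exact absurd h3 (hSK s hs)
  have hP1Q : P1 ⊆ Q := fun z hz => (hP1s hz).1
  have hP1ne : P1 ≠ Q := by
    intro he
    have : c ∈ P1 := by rw [he]; exact hcQ
    exact (hP1s this).2 hcG1
  obtain ⟨k, hk, kw, kb, ky⟩ := m.min P1 hP1c hKP1 hP1Q hP1ne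
  have hκ1 : Sec U P1 κ1 := m.dat.k1.mono hP1Q
  have hκ2 : Sec U P1 κ2 := m.dat.k2.mono hP1Q
  have hew : Eqv U w (k w) (κ1 w) := kw.symm.trans m.dat.e1
  have heb : Eqv U b (k b) (κ2 b) := kb.symm.trans m.dat.e2
  have hF : ∀ z ∈ ({w, b, y} : Set Y), z ∈ P1 := by
    intro z hz
    rcases hz with rfl | rfl | rfl
    · exact hwP
    · exact hbP
    · exact hyP
  have hne : ∃ k', Sec U P1 k' ∧ ∀ z ∈ ({w, b, y} : Set Y), Eqv U z (k z) (k' z) :=
    ⟨k, hk, fun z hz => Eqv.rfl' (hk.2 z (hF z hz))⟩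
  obtain ⟨k1, hk1, k1F, k1S⟩ := multi hU hκ1 k ({w, b, y} : Set Y)
    (hScomp.inter_right hEac) hne (by
      rintro s ⟨hsS, hsE⟩
      exact ef_one hU hP1c hk hκ1 hwP hbP hyP (hSP s hsS) hew (left_mem_kab w s)
        (hWa s hsS hsE) (m.dat.a1 s (hSK s hsS) (hWa s hsS hsE)))
  obtain ⟨k2, hk2, k2F, k2S⟩ := multi hU hκ2 k ({w, b, y} : Set Y)
    (hScomp.inter_right hEbc) hne (by
      rintro s ⟨hsS, hsE⟩
      exact ef_one hU hP1c hk hκ2 hwP hbP hyP (hSP s hsS) heb (hBb s hsS hsE)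
        (left_mem_kab b s) (m.dat.a2 s (hSK s hsS) (hBb s hsS hsE)))
  have hwF : w ∈ ({w, b, y} : Set Y) := by simp
  obtain ⟨k3, hk3, k3o, k3a, k3b, -⟩ := splice hU hP1c.1.isClosed hk1 hk2
    (T1 := S ∩ Kab w sa) (T2 := S ∩ Kab b sb)
    (hScomp.isClosed.inter hEac) (hScomp.isClosed.inter hEbc) (by
      rintro L hLP hL ⟨s, hsL, hsS, hsE⟩ ⟨s', hs'L, hs'S, hs'E⟩
      refine ⟨w, ?_, (k1F w hwF).symm.trans (k2F w hwF)⟩
      have h1 := hWa s hsS hsE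
      rcases kab_tri hG b s' s h1 with h2 | h2
      · exact absurd h2 (hEb s' hs'E)
      · exact kab_subset hL hs'L hsL h2)
  have k3F : ∀ z ∈ ({w, b, y} : Set Y), Eqv U z (k z) (k3 z) := by
    intro z hz
    rcases k3o z (hF z hz) with h' | h'
    · exact (k1F z hz).trans h'
    · exact (k2F z hz).trans h'
  obtain ⟨κ, hκ, hκk⟩ := lt_glue hG hU hQ hG1o (hKG1 hwK) (k := k3) (by rw [← hP1]; exact hk3)
    m.dat.k1 m.dat.k2 hEac hEbc
    (by rw [← hP1, ← hS]; exact hEab)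
    (by rw [← hP1, ← hS]; exact hSE)
    (by
      rw [← hP1, ← hS]
      intro s hs hsE
      exact (k1S s ⟨hs, hsE⟩).trans (k3a s ⟨⟨hs, hsE⟩, hSP s hs⟩))
    (by
      rw [← hP1, ← hS]
      intro s hs hsE
      exact (k2S s ⟨hs, hsE⟩).trans (k3b s ⟨⟨hs, hsE⟩, hSP s hs⟩))
  rw [← hP1] at hκk
  apply m.fail
  exact ⟨κ, hκ, (kw.trans (k3F w (by simp))).trans (hκk w hwP),
    (kb.trans (k3F b (by simp))).trans (hκk b hbP),
    (ky.trans (k3F y (by simp))).trans (hκk y hyP)⟩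

theorem ext {Y : Type*} [MetricSpace Y] [CompactSpace Y] [ConnectedSpace Y]
    (hG : Good Y) {U : Set (Y × ℝ)} (hU : IsOpen U) {Q : Set Y} {w b y : Y} {h κ1 κ2 : Y → ℝ}
    (d : EDat U Q w b y h κ1 κ2) (hh : Sec U (Kab w b) h) : Ext3 U Q w b y h := by
  by_contra hf
  obtain ⟨Q', m⟩ := ext_min hG hU d hh hf
  exact ext_false hG hU m

end Pool.Agent.H963CF
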