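import Pool.Agent.H963CF.D

set_option autoImplicit false

namespace Pool.Agent.H963CF

open Set Topology Filter
open Pool.Agent.H963CF.L739.CT (Ctm ctm_union ctm_component clopen_nhd_component cutwire bump
  crossing_real sub_of_split ctm_iInter_directed const_of_int circle_exp_eq_one circle_exp_int
  log_unique)
open Pool.Agent.H963CF.L739.CG (Good unicoherent ctm_inter)

theorem mf_xs {X Y : Type*} [MetricSpace X] [CompactSpace X] [MetricSpace Y] [CompactSpace Y]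
    [ConnectedSpace Y] {U : Set (Y × ℝ)} {f : X → Y} {g : X → ℝ} {J : Set Y} {xs : X}
    (m : MF U f g J xs) : xs ∈ Ec U f g J xs := by
  exact ⟨m.xsJ, fun κ h => h.2, fun κ h => h.2⟩

theorem mf_no {X Y : Type*} [MetricSpace X] [CompactSpace X] [MetricSpace Y] [CompactSpace Y]
    [ConnectedSpace Y] {U : Set (Y × ℝ)} {f : X → Y} {g : X → ℝ} {J : Set Y} {xs : X}
    (m : MF U f g J xs) {x : X} (hx : x ∈ Ec U f g J xs) {h : Y → ℝ} (hh : Sec U J h) :
    ¬ Eqv U (f x) (g x) (h (f x)) := by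
  intro he
  have hb := m.bad h hh
  rcases lt_trichotomy (g xs) (h (f xs)) with h1 | h1 | h1
  · exact (hx.2.1 h ⟨hh, h1, hb⟩).2 he
  · apply hb
    rw [← h1]
    exact Eqv.rfl' (m.ctx.mem xs)
  · exact (hx.2.2 h ⟨hh, h1, fun h2 => hb h2.symm⟩).2 he.symm

theorem mf_compact {X Y : Type*} [MetricSpace X] [CompactSpace X] [MetricSpace Y] [CompactSpace Y]
    [ConnectedSpace Y] {U : Set (Y × ℝ)} {f : X → Y} {g : X → ℝ} {J : Set Y} {xs : X}
    (m : MF U f g J xs) : IsCompact (Ec U f g J xs) := by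
  have h1 : IsClosed {x : X | f x ∈ J} := m.hJ.1.isClosed.preimage m.ctx.cf
  have h2 : IsClosed {x : X | ∀ κ, Gp U f g J xs κ → Ltv U (f x) (g x) (κ (f x))} := by
    have : {x : X | ∀ κ, Gp U f g J xs κ → Ltv U (f x) (g x) (κ (f x))} =
        ⋂ κ : Y → ℝ, ⋂ _ : Gp U f g J xs κ, {x : X | Ltv U (f x) (g x) (κ (f x))} := by
      ext x
      simp only [mem_setOf_eq, mem_iInter]
    rw [this]
    refine isClosed_iInter fun κ => isClosed_iInter fun hκ => ?_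
    have e : {x : X | Ltv U (f x) (g x) (κ (f x))} =
        {x : X | g x ≤ κ (f x)} ∩ {x : X | Eqv U (f x) (g x) (κ (f x))}ᶜ := by
      ext x
      constructor
      · intro h
        exact ⟨h.1.le, h.2⟩
      · rintro ⟨h, h'⟩
        refine ⟨lt_of_le_of_ne h ?_, h'⟩
        intro h3
        apply h'
        show Eqv U (f x) (g x) (κ (f x))
        rw [← h3]
        exact Eqv.rfl' (m.ctx.mem x)
    rw [e]
    exact (isClosed_le m.ctx.cg (hκ.1.1.comp m.ctx.cf)).inter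
      (isOpen_eqv m.ctx.hU m.ctx.cf m.ctx.cg (hκ.1.1.comp m.ctx.cf)).isClosed_compl
  have h3 : IsClosed {x : X | ∀ κ, Gm U f g J xs κ → Ltv U (f x) (κ (f x)) (g x)} := by
    have : {x : X | ∀ κ, Gm U f g J xs κ → Ltv U (f x) (κ (f x)) (g x)} =
        ⋂ κ : Y → ℝ, ⋂ _ : Gm U f g J xs κ, {x : X | Ltv U (f x) (κ (f x)) (g x)} := by
      ext x
      simp only [mem_setOf_eq, mem_iInter]
    rw [this]
    refine isClosed_iInter fun κ => isClosed_iInter fun hκ => ?_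
    have e : {x : X | Ltv U (f x) (κ (f x)) (g x)} =
        {x : X | κ (f x) ≤ g x} ∩ {x : X | Eqv U (f x) (κ (f x)) (g x)}ᶜ := by
      ext x
      constructor
      · intro h
        exact ⟨h.1.le, h.2⟩
      · rintro ⟨h, h'⟩
        refine ⟨lt_of_le_of_ne h ?_, h'⟩
        intro h3
        apply h'
        show Eqv U (f x) (κ (f x)) (g x)
        rw [h3]
        exact Eqv.rfl' (m.ctx.mem x)
    rw [e]
    exact (isClosed_le (hκ.1.1.comp m.ctx.cf) m.ctx.cg).inter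
      (isOpen_eqv m.ctx.hU m.ctx.cf (hκ.1.1.comp m.ctx.cf) m.ctx.cg).isClosed_compl
  have : Ec U f g J xs = {x : X | f x ∈ J} ∩
      ({x : X | ∀ κ, Gp U f g J xs κ → Ltv U (f x) (g x) (κ (f x))} ∩
        {x : X | ∀ κ, Gm U f g J xs κ → Ltv U (f x) (κ (f x)) (g x)}) := rfl
  rw [this]
  exact (h1.inter (h2.inter h3)).isCompact

theorem mf_or {X Y : Type*} [MetricSpace X] [CompactSpace X] [MetricSpace Y] [CompactSpace Y]
    [ConnectedSpace Y] {U : Set (Y × ℝ)} {f : X → Y} {g : X → ℝ} {J : Set Y} {xs : X}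
    (m : MF U f g J xs) {x : X} (hx : f x ∈ J) (hxE : x ∉ Ec U f g J xs) :
    (∃ κ, Gp U f g J xs κ ∧ Lev U (f x) (κ (f x)) (g x)) ∨
      ∃ κ, Gm U f g J xs κ ∧ Lev U (f x) (g x) (κ (f x)) := by
  by_contra hc
  push Not at hc
  apply hxE
  refine ⟨hx, fun κ hκ => ?_, fun κ hκ => ?_⟩
  · exact not_lev.1 (hc.1 κ hκ)
  · exact not_lev.1 (hc.2 κ hκ)

theorem gp_min {X Y : Type*} [MetricSpace X] [CompactSpace X] [MetricSpace Y] [CompactSpace Y]
    [ConnectedSpace Y] {U : Set (Y × ℝ)} {f : X → Y} {g : X → ℝ} {J : Set Y} {xs : X}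
    {κ1 κ2 : Y → ℝ} (h1 : Gp U f g J xs κ1) (h2 : Gp U f g J xs κ2) :
    Gp U f g J xs (fun y => min (κ1 y) (κ2 y)) := by
  refine ⟨Sec.min h1.1 h2.1, lt_min h1.2.1 h2.2.1, ?_⟩
  rcases min_choice (κ1 (f xs)) (κ2 (f xs)) with h | h
  · show ¬ Eqv U (f xs) (g xs) (min (κ1 (f xs)) (κ2 (f xs)))
    rw [h]
    exact h1.2.2
  · show ¬ Eqv U (f xs) (g xs) (min (κ1 (f xs)) (κ2 (f xs)))
    rw [h]
    exact h2.2.2

theorem rc_eqv {X Y : Type*} [MetricSpace X] [CompactSpace X] [MetricSpace Y] [CompactSpace Y]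
    [ConnectedSpace Y] {U : Set (Y × ℝ)} {f : X → Y} {g : X → ℝ} {J : Set Y} {xs : X}
    (m : MF U f g J xs) {x : X} (hx : x ∈ Ec U f g J xs) {P : Set Y} (hPJ : P ⊆ J) {w : Y}
    (hw : w ∈ P) {h κ : Y → ℝ} (hh : Sec U P h) (he : Eqv U (f x) (g x) (h (f x)))
    (hκ : Gp U f g J xs κ) (hl : Lev U w (κ w) (h w)) :
    ∃ h', Sec U P h' ∧ Eqv U (f x) (g x) (h' (f x)) ∧ Eqv U w (κ w) (h' w) := by
  refine ⟨fun y => min (h y) (κ y), Sec.min hh (hκ.1.mono hPJ), ?_, ?_⟩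
  · exact (eqv_min he.symm (Lev.of_le (hx.2.1 κ hκ).1.le)).symm
  · have hκw : (w, κ w) ∈ U := hκ.1.2 w (hPJ hw)
    rcases hl with h1 | h1
    · show Eqv U w (κ w) (min (h w) (κ w))
      rw [min_eq_right h1]
      exact Eqv.rfl' hκw
    · apply h1.of_mem
      show min (h w) (κ w) ∈ uIcc (κ w) (h w)
      rw [mem_uIcc]
      rcases le_total (h w) (κ w) with h2 | h2
      · right
        rw [min_eq_left h2]
        exact ⟨le_refl _, h2⟩
      · left
        rw [min_eq_right h2]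
        exact ⟨le_refl _, h2⟩

theorem rc_all {X Y : Type*} [MetricSpace X] [CompactSpace X] [MetricSpace Y] [CompactSpace Y]
    [ConnectedSpace Y] {U : Set (Y × ℝ)} {f : X → Y} {g : X → ℝ} {J : Set Y} {xs : X}
    (m : MF U f g J xs) {x : X} (hx : x ∈ Ec U f g J xs) {w : Y} {P P' : Set Y} (hP : Ctm P)
    (hPJ : P ⊆ J) (hP' : Ctm P') (hP'J : P' ⊆ J) (hne : P' ≠ J) (hxP : f x ∈ P) (hwP : w ∈ P)
    (hxP' : f x ∈ P') (hwP' : w ∈ P') (h : Rc U f g J xs P x w) : Rc U f g J xs P' x w := by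
  obtain ⟨h0, κ, hh0, he0, hκ, hl⟩ := h
  obtain ⟨h', hh', he', hew⟩ := rc_eqv m hx hPJ hwP hh0 he0 hκ hl
  obtain ⟨κ1, hκ1, heκ1⟩ := m.proper P' hP' hP'J hne x hxP'
  have d : EDat U P' (f x) w (f x) h' κ1 κ :=
    { hQ := hP'
      sub := kab_subset hP' hxP' hwP'
      hy := left_mem_kab (f x) w
      a1 := fun s _ _ => left_mem_kab (f x) s
      a2 := fun s _ hs => hs
      k1 := hκ1
      k2 := hκ.1.mono hP'J
      e1 := he'.symm.trans heκ1
      e2 := hew.symm }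
  obtain ⟨k, hk, k1, k2, _⟩ := Pool.Agent.H963CF.ext m.ctx.good m.ctx.hU d
    (hh'.mono (kab_subset hP hxP hwP))
  exact ⟨k, κ, hk, he'.trans k1, hκ, Lev.of_eqv (hew.trans k2)⟩

theorem rc_two {X Y : Type*} [MetricSpace X] [CompactSpace X] [MetricSpace Y] [CompactSpace Y]
    [ConnectedSpace Y] {U : Set (Y × ℝ)} {f : X → Y} {g : X → ℝ} {J : Set Y} {xs : X}
    (m : MF U f g J xs) {x : X} (hx : x ∈ Ec U f g J xs) {w b : Y} (hw : w ∉ Kab (f x) b)
    (hb : b ∉ Kab (f x) w) (r1 : Rr U f g J xs x w) (r2 : Rr U f g J xs x b) : False := by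
  obtain ⟨P1, cP1, P1J, P1ne, yP1, wP1, rc1⟩ := r1
  obtain ⟨P2, cP2, P2J, P2ne, yP2, bP2, rc2⟩ := r2
  have hG := m.ctx.good
  have s1 : Kab (f x) w ⊆ P1 := kab_subset cP1 yP1 wP1
  have s2 : Kab (f x) b ⊆ P2 := kab_subset cP2 yP2 bP2
  have c1 : Ctm (Kab (f x) w) := ctm_kab hG _ _
  have c2 : Ctm (Kab (f x) b) := ctm_kab hG _ _
  have y1 : f x ∈ Kab (f x) w := left_mem_kab _ _
  have y2 : f x ∈ Kab (f x) b := left_mem_kab _ _
  have w1 : w ∈ Kab (f x) w := right_mem_kab _ _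
  have b2 : b ∈ Kab (f x) b := right_mem_kab _ _
  have cL : Ctm (Kab (f x) w ∪ Kab (f x) b) := ctm_union c1 c2 ⟨f x, y1, y2⟩
  have LJ : Kab (f x) w ∪ Kab (f x) b ⊆ J :=
    union_subset (s1.trans P1J) (s2.trans P2J)
  have Lne : Kab (f x) w ∪ Kab (f x) b ≠ J := by
    intro he
    rcases m.indec _ _ c1 c2 he with h | h
    · exact P1ne (Subset.antisymm P1J (h ▸ s1))
    · exact P2ne (Subset.antisymm P2J (h ▸ s2))
  obtain ⟨c, cJ, cL'⟩ : ∃ c ∈ J, c ∉ Kab (f x) w ∪ Kab (f x) b := by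
    by_contra hcon
    push Not at hcon
    exact Lne (Subset.antisymm LJ hcon)
  have hLcl : IsClosed (Kab (f x) w ∪ Kab (f x) b) := cL.1.isClosed
  obtain ⟨t, ht, htc, hts⟩ := exists_mem_nhds_isClosed_subset (hLcl.isOpen_compl.mem_nhds cL')
  obtain ⟨G, hGt, hGo, cG⟩ := mem_nhds_iff.1 ht
  have hclG : closure G ⊆ t := closure_minimal hGt htc
  have hGL : ∀ z ∈ closure G, z ∉ Kab (f x) w ∪ Kab (f x) b := fun z hz => hts (hclG hz)
  have LG : Kab (f x) w ∪ Kab (f x) b ⊆ J \ G := fun z hz =>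
    ⟨LJ hz, fun hzG => hGL z (subset_closure hzG) hz⟩
  have hy0 : f x ∈ J \ G := LG (Or.inl y1)
  have LP : Kab (f x) w ∪ Kab (f x) b ⊆ connectedComponentIn (J \ G) (f x) :=
    cL.2.isPreconnected.subset_connectedComponentIn (Or.inl y1) LG
  have cP : Ctm (connectedComponentIn (J \ G) (f x)) := ctm_component (m.hJ.1.diff hGo) hy0
  have PJG : connectedComponentIn (J \ G) (f x) ⊆ J \ G := connectedComponentIn_subset _ _
  have PJ : connectedComponentIn (J \ G) (f x) ⊆ J := fun z hz => (PJG hz).1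
  have Pne : connectedComponentIn (J \ G) (f x) ≠ J := by
    intro he
    have : c ∈ connectedComponentIn (J \ G) (f x) := by rw [he]; exact cJ
    exact (PJG this).2 cG
  have yP : f x ∈ connectedComponentIn (J \ G) (f x) := LP (Or.inl y1)
  have wP : w ∈ connectedComponentIn (J \ G) (f x) := LP (Or.inl w1)
  have bP : b ∈ connectedComponentIn (J \ G) (f x) := LP (Or.inr b2)
  have R1 : Rc U f g J xs (connectedComponentIn (J \ G) (f x)) x w :=
    rc_all m hx cP1 P1J cP PJ Pne yP1 wP1 yP wP rc1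
  have R2 : Rc U f g J xs (connectedComponentIn (J \ G) (f x)) x b :=
    rc_all m hx cP2 P2J cP PJ Pne yP2 bP2 yP bP rc2
  obtain ⟨p1, κ1, sp1, ep1, gp1, lp1⟩ := R1
  obtain ⟨p2, κ2, sp2, ep2, gp2, lp2⟩ := R2
  have gκ : Gp U f g J xs (fun z => min (κ1 z) (κ2 z)) := gp_min gp1 gp2
  obtain ⟨h1, sh1, eh1, ew1⟩ := rc_eqv m hx PJ wP sp1 ep1 gκ (lev_min_left lp1)
  obtain ⟨h2, sh2, eh2, eb2⟩ := rc_eqv m hx PJ bP sp2 ep2 gκ (lev_min_right lp2)
  have hyk : f x ∈ Kab w b := by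
    rcases kab_three hG (f x) w b with h | h | h
    · exact h
    · exact absurd h hw
    · exact absurd h hb
  have hPcl : IsClosed (connectedComponentIn (J \ G) (f x)) := cP.1.isClosed
  obtain ⟨h0, sh0, hor, hw0, hb0⟩ := splice_pt m.ctx.hU hPcl sh1 sh2 wP bP hyk
    (eh1.symm.trans eh2)
  have e0 : Eqv U (f x) (g x) (h0 (f x)) := by
    rcases hor _ yP with h | h
    · exact eh1.trans h
    · exact eh2.trans h
  have ew0 : Eqv U w (h0 w) (min (κ1 w) (κ2 w)) := (ew1.trans hw0).symm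
  have eb0 : Eqv U b (h0 b) (min (κ1 b) (κ2 b)) := (eb2.trans hb0).symm
  have sκP : Sec U (connectedComponentIn (J \ G) (f x)) (fun z => min (κ1 z) (κ2 z)) :=
    gκ.1.mono PJ
  obtain ⟨κ', sκ', eκ'⟩ := exits m.ctx.hU m.hJ.1 hGo hy0 sh0 gκ.1 (F := {f x})
    (singleton_subset_iff.2 yP) (by
      rintro s ⟨sP, sG⟩
      have key : ∀ v : Y, v ∈ Kab (f x) s → Eqv U v (h0 v) (min (κ1 v) (κ2 v)) →
          ∃ k', Sec U (connectedComponentIn (J \ G) (f x)) k' ∧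
            (∀ y ∈ ({f x} : Set Y), Eqv U y (h0 y) (k' y)) ∧
            Eqv U s (min (κ1 s) (κ2 s)) (k' s) := by
        intro v hv he
        obtain ⟨k', sk', -, ea, eb⟩ := splice_pt m.ctx.hU hPcl sh0 sκP yP sP hv he
        refine ⟨k', sk', ?_, eb⟩
        intro z hz
        rw [mem_singleton_iff] at hz
        subst hz
        exact ea
      by_cases hws : w ∈ Kab (f x) s
      · exact key w hws ew0
      · by_cases hbs : b ∈ Kab (f x) s
        · exact key b hbs eb0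
        · exfalso
          rcases hG.atri c1 c2 (ctm_kab hG (f x) s)
            ⟨f x, ⟨y1, y2⟩, left_mem_kab _ _⟩ with h | h | h
          · rcases h w1 with h' | h'
            · exact hw h'
            · exact hws h'
          · rcases h b2 with h' | h'
            · exact hb h'
            · exact hbs h'
          · exact hGL s sG (h (right_mem_kab _ _)))
  exact mf_no m hx sκ' (e0.trans (eκ' _ rfl))

theorem b_reach {X Y : Type*} [MetricSpace X] [CompactSpace X] [MetricSpace Y] [CompactSpace Y]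
    [ConnectedSpace Y] {U : Set (Y × ℝ)} {f : X → Y} {g : X → ℝ} {J : Set Y} {xs : X}
    (m : MF U f g J xs) {x : X} (hx : x ∈ Ec U f g J xs) {P : Set Y} (hP : Ctm P) (hPJ : P ⊆ J)
    (hne : P ≠ J) (hxP : f x ∈ P) {z : Y} (hz : z ∈ P)
    (hzE : ∀ x' ∈ Ec U f g J xs, f x' ≠ z) :
    ∃ h κ, Sec U P h ∧ Sec U J κ ∧ Eqv U (f x) (g x) (h (f x)) ∧ Eqv U z (κ z) (h z) := by
  obtain ⟨h, hh, he, x', hx', he'⟩ := lb m.ctx hP (m.proper P hP hPJ hne) hz hxP
  have hxE : x' ∉ Ec U f g J xs := fun h' => hzE x' h' hx'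
  have hxJ : f x' ∈ J := by rw [hx']; exact hPJ hz
  rcases mf_or m hxJ hxE with ⟨κ, hκ, hl⟩ | ⟨κ, hκ, hl⟩
  · rw [hx'] at hl
    have hl' : Lev U z (κ z) (h z) := lev_trans hl (Lev.of_eqv he')
    obtain ⟨h', hh', h1, h2⟩ := rc_eqv m hx hPJ hz hh he hκ hl'
    exact ⟨h', κ, hh', hκ.1, h1, h2⟩
  · rw [hx'] at hl
    have hl' : Lev U z (h z) (κ z) := lev_trans (Lev.of_eqv he'.symm) hl
    refine ⟨fun y => max (h y) (κ y), κ, Sec.max hh (hκ.1.mono hPJ), hκ.1, ?_, ?_⟩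
    · exact (eqv_max he.symm (Lev.of_le (hx.2.2 κ hκ).1.le)).symm
    · have h3 : Eqv U z (max (κ z) (h z)) (κ z) :=
        eqv_max (Eqv.rfl' (hκ.1.2 z (hPJ hz))) hl'
      have h4 := h3.symm
      rw [max_comm] at h4
      exact h4

theorem ec_surj {X Y : Type*} [MetricSpace X] [CompactSpace X] [MetricSpace Y] [CompactSpace Y]
    [ConnectedSpace Y] {U : Set (Y × ℝ)} {f : X → Y} {g : X → ℝ} {J : Set Y} {xs : X}
    (m : MF U f g J xs) : f '' Ec U f g J xs = J := by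
  have hsub : f '' Ec U f g J xs ⊆ J := by
    rintro _ ⟨x, hx, rfl⟩
    exact hx.1
  by_contra hne
  have hx := mf_xs m
  have hG := m.ctx.good
  have hU := m.ctx.hU
  have hcl : IsClosed (f '' Ec U f g J xs) :=
    ((mf_compact m).image m.ctx.cf).isClosed
  have hO : IsOpen (f '' Ec U f g J xs)ᶜ := hcl.isOpen_compl
  have hJO : (J ∩ (f '' Ec U f g J xs)ᶜ).Nonempty := by
    by_contra hemp
    apply hne
    refine Subset.antisymm hsub fun z hz => ?_
    by_contra hz'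
    exact hemp ⟨z, hz, hz'⟩
  have hyJ : f xs ∈ J := m.xsJ
  have hyE : f xs ∈ f '' Ec U f g J xs := ⟨xs, hx, rfl⟩
  obtain ⟨b0, ⟨hb0J, hb0O⟩, hb0⟩ := indec_baire hG m.hJ m.indec hyJ hO hJO
  obtain ⟨r, hr, hrO⟩ := Metric.nhds_basis_closedBall.mem_iff.1 (hO.mem_nhds hb0O)
  have hcb : closure (Metric.ball b0 r) ⊆ (f '' Ec U f g J xs)ᶜ :=
    Metric.closure_ball_subset_closedBall.trans hrO
  obtain ⟨s2, ⟨hs2J, hs2G⟩, hs2⟩ := comp_dense hG m.hJ m.nontriv hyJ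
    (Metric.isOpen_ball (x := b0) (ε := r)) ⟨b0, hb0J, Metric.mem_ball_self hr⟩
  have hs2E : s2 ∉ f '' Ec U f g J xs := hcb (subset_closure hs2G)
  have hb0K : b0 ∉ Kab (f xs) s2 := by
    intro hb
    apply hs2
    refine Subset.antisymm (kab_subset m.hJ hyJ hs2J) ?_
    rw [← hb0]
    exact kab_subset_kab hG (left_mem_kab _ _) hb
  have hKc := ctm_kab hG (f xs) s2
  obtain ⟨r', hr', hr'O⟩ := Metric.nhds_basis_closedBall.mem_iff.1
    (hKc.1.isClosed.isOpen_compl.mem_nhds hb0K)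
  set G : Set Y := Metric.ball b0 (min r r') with hGdef
  have hGo : IsOpen G := Metric.isOpen_ball
  have hb0G : b0 ∈ G := Metric.mem_ball_self (lt_min hr hr')
  have hGG0 : closure G ⊆ closure (Metric.ball b0 r) :=
    closure_mono (Metric.ball_subset_ball (min_le_left _ _))
  have hGE : ∀ z ∈ closure G, z ∉ f '' Ec U f g J xs := fun z hz => hcb (hGG0 hz)
  have hGK : ∀ z ∈ closure G, z ∉ Kab (f xs) s2 := by
    intro z hz
    have h1 : z ∈ Metric.closedBall b0 (min r r') := Metric.closure_ball_subset_closedBall hz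
    exact hr'O (Metric.closedBall_subset_closedBall (min_le_right _ _) h1)
  have hyG : f xs ∉ G := fun h => hGE _ (subset_closure h) hyE
  have hy0 : f xs ∈ J \ G := ⟨hyJ, hyG⟩
  have hPC : Ctm (connectedComponentIn (J \ G) (f xs)) :=
    ctm_component (m.hJ.1.diff hGo) hy0
  have hPsub : connectedComponentIn (J \ G) (f xs) ⊆ J \ G := connectedComponentIn_subset _ _
  have hyP : f xs ∈ connectedComponentIn (J \ G) (f xs) := mem_connectedComponentIn hy0
  have hKP : Kab (f xs) s2 ⊆ connectedComponentIn (J \ G) (f xs) := by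
    apply hKc.2.isPreconnected.subset_connectedComponentIn (left_mem_kab _ _)
    intro z hz
    exact ⟨kab_subset m.hJ hyJ hs2J hz, fun hzG => hGK z (subset_closure hzG) hz⟩
  have hs2P : s2 ∈ connectedComponentIn (J \ G) (f xs) := hKP (right_mem_kab _ _)
  have hPJ : connectedComponentIn (J \ G) (f xs) ⊆ J := hPsub.trans diff_subset
  have hPne : connectedComponentIn (J \ G) (f xs) ≠ J := by
    intro h
    have : b0 ∈ connectedComponentIn (J \ G) (f xs) := by rw [h]; exact hb0J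
    exact (hPsub this).2 hb0G
  obtain ⟨k2, κ2, hk2, hκ2, hk2y, hk2s⟩ := b_reach m hx hPC hPJ hPne hyP hs2P
    (fun x' hx' h => hs2E ⟨x', hx', h⟩)
  by_cases hall : ∀ s ∈ connectedComponentIn (J \ G) (f xs) ∩ closure G, s2 ∈ Kab (f xs) s
  · obtain ⟨κ', hκ', he⟩ := exits (F := {f xs}) hU m.hJ.1 hGo hy0 hk2 hκ2
      (by simpa using hyP) (by
        intro s hs
        obtain ⟨s', hs', -, h1, h2⟩ := splice_pt hU hPC.1.isClosed hk2 (hκ2.mono hPJ) hyP hs.1
          (hall s hs) hk2s.symm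
        exact ⟨s', hs', by intro z hz; rw [mem_singleton_iff] at hz; rw [hz]; exact h1, h2⟩)
    exact mf_no m hx hκ' (hk2y.trans (he _ rfl))
  · push Not at hall
    obtain ⟨s0, ⟨hs0P, hs0G⟩, hs0⟩ := hall
    have hs0E := hGE s0 hs0G
    have hs0K := hGK s0 hs0G
    obtain ⟨k0, κ0, hk0, hκ0, hk0y, hk0s⟩ := b_reach m hx hPC hPJ hPne hyP hs0P
      (fun x' hx' h => hs0E ⟨x', hx', h⟩)
    have hy3 : f xs ∈ Kab s0 s2 := by
      rcases kab_three hG (f xs) s0 s2 with h | h | h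
      · exact h
      · exact absurd h hs0K
      · exact absurd h hs0
    obtain ⟨h, hh, hor, h1, h2⟩ := splice_pt hU hPC.1.isClosed hk0 hk2 hs0P hs2P hy3
      (hk0y.symm.trans hk2y)
    have hgy : Eqv U (f xs) (g xs) (h (f xs)) := by
      rcases hor _ hyP with h' | h'
      · exact hk0y.trans h'
      · exact hk2y.trans h'
    have hdat : EDat U J s0 s2 (f xs) h κ0 κ2 :=
      { hQ := m.hJ
        sub := kab_subset m.hJ (hPJ hs0P) hs2J
        hy := hy3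
        a1 := by
          intro s _ hs'
          rcases kab_tri hG s2 (f xs) s hs' with h' | h'
          · rw [kab_comm] at h'
            exact absurd h' hs0K
          · exact h'
        a2 := by
          intro s _ hs'
          rcases kab_tri hG s0 (f xs) s hs' with h' | h'
          · rw [kab_comm] at h'
            exact absurd h' hs0
          · exact h'
        k1 := hκ0
        k2 := hκ2
        e1 := h1.symm.trans hk0s.symm
        e2 := h2.symm.trans hk2s.symm }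
    obtain ⟨k, hk, -, -, hky⟩ := ext hG hU hdat (hh.mono (kab_subset hPC hs0P hs2P))
    exact mf_no m hx hk (hgy.trans hky)

theorem goodpt {X Y : Type*} [MetricSpace X] [CompactSpace X] [MetricSpace Y] [CompactSpace Y]
    [ConnectedSpace Y] {U : Set (Y × ℝ)} {f : X → Y} {g : X → ℝ} (c : Ctx U f g) {E : Set X}
    (hE : IsCompact E) {J : Set Y} (hfE : f '' E = J) (hne : J.Nonempty) :
    ∃ c0 ∈ J, ∃ t0 : ℝ, ∃ W : Set Y, IsOpen W ∧ c0 ∈ W ∧ ∀ y ∈ J ∩ W,
      (∃ x ∈ E, f x = y ∧ Eqv U y t0 (g x)) ∧ ∀ x ∈ E, f x = y → Lev U y (g x) t0 := by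
  classical
  have hcov : ∀ y : Y, ∃ T : Finset ℝ, ∀ x ∈ E, f x = y → ∃ t ∈ T, Eqv U y t (g x) := by
    intro y
    have hK : IsCompact (E ∩ f ⁻¹' {y}) :=
      hE.inter_right (isClosed_singleton.preimage c.cf)
    obtain ⟨s, hs1, hs2⟩ := hK.elim_nhds_subcover (fun x0 => {x | Eqv U (f x) (g x0) (g x)})
      (fun x0 _ => (isOpen_eqv c.hU c.cf continuous_const c.cg).mem_nhds (Eqv.rfl' (c.mem x0)))
    refine ⟨s.image g, ?_⟩
    intro x hx hfx
    have h1 := hs2 ⟨hx, hfx⟩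
    rw [mem_iUnion₂] at h1
    obtain ⟨x0, hx0, h2⟩ := h1
    refine ⟨g x0, Finset.mem_image_of_mem g hx0, ?_⟩
    rw [← hfx]
    exact h2
  have hex : ∃ n : ℕ, ∃ y ∈ J, ∃ T : Finset ℝ, T.card = n ∧
      ∀ x ∈ E, f x = y → ∃ t ∈ T, Eqv U y t (g x) := by
    obtain ⟨y, hy⟩ := hne
    obtain ⟨T, hT⟩ := hcov y
    exact ⟨T.card, y, hy, T, rfl, hT⟩
  obtain ⟨N, ⟨c0, hc0, T, hTc, hT⟩, hmin⟩ : ∃ N : ℕ, (∃ y ∈ J, ∃ T : Finset ℝ, T.card = N ∧
      ∀ x ∈ E, f x = y → ∃ t ∈ T, Eqv U y t (g x)) ∧ ∀ m < N, ¬ (∃ y ∈ J, ∃ T : Finset ℝ,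
      T.card = m ∧ ∀ x ∈ E, f x = y → ∃ t ∈ T, Eqv U y t (g x)) :=
    ⟨Nat.find hex, Nat.find_spec hex, fun m hm => Nat.find_min hex hm⟩
  have hTne : T.Nonempty := by
    rw [← hfE] at hc0
    obtain ⟨x, hx, hfx⟩ := hc0
    obtain ⟨t, ht, _⟩ := hT x hx hfx
    exact ⟨t, ht⟩
  have hO : IsOpen (⋃ t ∈ T, {x | Eqv U (f x) t (g x)}) :=
    isOpen_biUnion fun t _ => isOpen_eqv c.hU c.cf continuous_const c.cg
  have hS : IsCompact (E \ ⋃ t ∈ T, {x | Eqv U (f x) t (g x)}) := hE.diff hO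
  have hW : IsOpen (f '' (E \ ⋃ t ∈ T, {x | Eqv U (f x) t (g x)}))ᶜ :=
    (hS.image c.cf).isClosed.isOpen_compl
  refine ⟨c0, hc0, T.max' hTne, (f '' (E \ ⋃ t ∈ T, {x | Eqv U (f x) t (g x)}))ᶜ, hW, ?_, ?_⟩
  · rintro ⟨x, ⟨hxE, hxn⟩, hfx⟩
    obtain ⟨t, ht, hte⟩ := hT x hxE hfx
    apply hxn
    rw [mem_iUnion₂]
    refine ⟨t, ht, ?_⟩
    change Eqv U (f x) t (g x)
    rw [hfx]
    exact hte
  · rintro y ⟨hyJ, hyW⟩
    have hTy : ∀ x ∈ E, f x = y → ∃ t ∈ T, Eqv U y t (g x) := by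
      intro x hx hfx
      by_contra hcon
      apply hyW
      refine ⟨x, ⟨hx, ?_⟩, hfx⟩
      intro h1
      rw [mem_iUnion₂] at h1
      obtain ⟨t, ht, h2⟩ := h1
      apply hcon
      refine ⟨t, ht, ?_⟩
      rw [← hfx]
      exact h2
    refine ⟨?_, ?_⟩
    · by_contra hcon
      have hN : 0 < N := by
        rw [← hTc]
        exact Finset.card_pos.2 hTne
      apply hmin (N - 1) (by omega)
      refine ⟨y, hyJ, T.erase (T.max' hTne), ?_, ?_⟩
      · rw [Finset.card_erase_of_mem (Finset.max'_mem T hTne), hTc]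
      · intro x hx hfx
        obtain ⟨t, ht, hte⟩ := hTy x hx hfx
        refine ⟨t, Finset.mem_erase.2 ⟨?_, ht⟩, hte⟩
        rintro rfl
        exact hcon ⟨x, hx, hfx, hte⟩
    · intro x hx hfx
      obtain ⟨t, ht, hte⟩ := hTy x hx hfx
      exact lev_trans (Lev.of_eqv hte.symm) (Lev.of_le (Finset.le_max' T t ht))

theorem step_top {X Y : Type*} [MetricSpace X] [CompactSpace X] [MetricSpace Y] [CompactSpace Y]
    [ConnectedSpace Y] {U : Set (Y × ℝ)} {f : X → Y} {g : X → ℝ} {J : Set Y} {xs : X}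
    (m : MF U f g J xs) :
    ∃ xa ∈ Ec U f g J xs, ∃ (t0 r : ℝ) (b : Y), 0 < r ∧
      (∀ y ∈ J, dist y (f xa) ≤ r → ∃ x ∈ Ec U f g J xs, f x = y ∧ Eqv U y t0 (g x)) ∧
      Eqv U (f xa) t0 (g xa) ∧ b ∈ J ∧ Rr U f g J xs xa b := by
  have hU := m.ctx.hU
  obtain ⟨c0, hc0, t0, W, hW, hc0W, hgood⟩ := goodpt m.ctx (mf_compact m) (ec_surj m) m.hJ.2.1
  -- the open set `G`
  obtain ⟨z1, hz1, z2, hz2, hz12⟩ := m.nontriv
  obtain ⟨y', hy', hy'c⟩ : ∃ y' ∈ J, y' ≠ c0 := by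
    by_cases hc : z1 = c0
    · exact ⟨z2, hz2, fun h => hz12 (hc.trans h.symm)⟩
    · exact ⟨z1, hz1, hc⟩
  obtain ⟨ε, hε, hεW⟩ := Metric.isOpen_iff.mp hW c0 hc0W
  have hdpos : 0 < dist y' c0 := dist_pos.mpr hy'c
  set ρ := min (ε / 2) (dist y' c0 / 2) with hρ
  have hρpos : 0 < ρ := lt_min (by linarith) (by linarith)
  set G := Metric.ball c0 ρ with hGdef
  have hG : IsOpen G := Metric.isOpen_ball
  have hc0G : c0 ∈ G := Metric.mem_ball_self hρpos
  have hclG : closure G ⊆ W := by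
    intro z hz
    have h1 : z ∈ Metric.closedBall c0 ρ := Metric.closure_ball_subset_closedBall hz
    apply hεW
    rw [Metric.mem_closedBall] at h1
    rw [Metric.mem_ball]
    have h2 : ρ ≤ ε / 2 := min_le_left _ _
    linarith
  have hy'G : y' ∉ G := by
    intro h
    rw [hGdef, Metric.mem_ball] at h
    have h2 : ρ ≤ dist y' c0 / 2 := min_le_right _ _
    linarith
  have hT : Sec U (J ∩ closure G) (fun _ => t0) := by
    refine ⟨continuous_const, fun y hy => ?_⟩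
    obtain ⟨⟨x, _, _, he⟩, _⟩ := hgood y ⟨hy.1, hclG hy.2⟩
    exact he.left
  -- a bad component
  obtain ⟨y0, hy0, hbad⟩ : ∃ y0 ∈ J \ G, ¬ ∃ k, Sec U (connectedComponentIn (J \ G) y0) k ∧
      ∀ y ∈ connectedComponentIn (J \ G) y0 ∩ closure G, Eqv U y t0 (k y) := by
    by_contra hcon
    push Not at hcon
    obtain ⟨κ, hκ, hκ2⟩ := ext_all hU m.hJ.1 hG hT (fun y0 hy0 => hcon y0 hy0)
    have h1 := hκ2 c0 ⟨hc0, subset_closure hc0G⟩
    obtain ⟨⟨x, hxE, hfx, he⟩, _⟩ := hgood c0 ⟨hc0, hc0W⟩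
    apply mf_no m hxE hκ
    rw [hfx]
    exact he.symm.trans h1
  set P := connectedComponentIn (J \ G) y0 with hP
  have hJG : IsCompact (J \ G) := m.hJ.1.diff hG
  have hPc : Ctm P := ctm_component hJG hy0
  have hPJG : P ⊆ J \ G := connectedComponentIn_subset _ _
  have hPJ : P ⊆ J := fun z hz => (hPJG hz).1
  have hPne : P ≠ J := by
    intro h
    have h1 : c0 ∈ P := by rw [h]; exact hc0
    exact (hPJG h1).2 hc0G
  have hSne : (P ∩ closure G).Nonempty := bump m.hJ hG ⟨c0, hc0, hc0G⟩ hy0.1 hy0.2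
  have hSc : IsCompact (P ∩ closure G) := hPc.1.inter_right isClosed_closure
  have hTS : Sec U (P ∩ closure G) (fun _ => t0) := hT.mono fun z hz => ⟨hPJ hz.1, hz.2⟩
  obtain ⟨a, haS, b, hbS, hab⟩ : ∃ a ∈ P ∩ closure G, ∃ b ∈ P ∩ closure G,
      ∀ k, Sec U P k → Eqv U a t0 (k a) → ¬ Lev U b (k b) t0 := by
    by_contra hcon
    push Not at hcon
    apply hbad
    exact top2 hU hSc hSne hTS fun a ha b hb => hcon a ha b hb
  obtain ⟨⟨xa, hxaE, hfxa, hea⟩, _⟩ := hgood a ⟨hPJ haS.1, hclG haS.2⟩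
  obtain ⟨⟨x, hxE, hfx, heb⟩, hupb⟩ := hgood b ⟨hPJ hbS.1, hclG hbS.2⟩
  obtain ⟨k, hk, hka, xb, hfxb, hkb⟩ := lb m.ctx hPc (m.proper P hPc hPJ hPne) hbS.1
    (x := xa) (by rw [hfxa]; exact haS.1)
  have hka' : Eqv U a t0 (k a) := by
    rw [hfxa] at hka
    exact hea.trans hka
  have hnl := hab k hk hka'
  have hlt : Ltv U b t0 (k b) := not_lev.mp hnl
  have hxbE : xb ∉ Ec U f g J xs := by
    intro h
    exact hnl (lev_trans (Lev.of_eqv hkb.symm) (hupb xb h hfxb))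
  have hbJ : b ∈ J := hPJ hbS.1
  obtain ⟨r, hr, hrW⟩ := Metric.isOpen_iff.mp hW a (hclG haS.2)
  refine ⟨xa, hxaE, t0, r / 2, b, by linarith, ?_, ?_, hbJ, ?_⟩
  · intro y hy hd
    rw [hfxa] at hd
    have hyW : y ∈ W := by
      apply hrW
      rw [Metric.mem_ball]
      linarith
    exact (hgood y ⟨hy, hyW⟩).1
  · rw [hfxa]
    exact hea
  · rcases mf_or m (x := xb) (by rw [hfxb]; exact hbJ) hxbE with ⟨κ, hκ, hl⟩ | ⟨κ, hκ, hl⟩
    · rw [hfxb] at hl
      exact ⟨P, hPc, hPJ, hPne, by rw [hfxa]; exact haS.1, hbS.1, k, κ, hk, hka, hκ,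
        lev_trans hl (Lev.of_eqv hkb)⟩
    · exfalso
      rw [hfxb] at hl
      have h1 : Ltv U (f x) (κ (f x)) (g x) := hxE.2.2 κ hκ
      rw [hfx] at h1
      have h2 : Ltv U b (k b) t0 :=
        ltv_congr h1 (lev_trans (Lev.of_eqv hkb.symm) hl) (Lev.of_eqv heb.symm)
      exact lt_asymm h2.1 hlt.1

end Pool.Agent.H963CF
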