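import Pool.Agent.H963CF.E

set_option autoImplicit false

namespace Pool.Agent.H963CF

open Set Topology Filter
open Pool.Agent.H963CF.L739.CT (Ctm ctm_union ctm_component clopen_nhd_component cutwire bump
  crossing_real sub_of_split ctm_iInter_directed const_of_int circle_exp_eq_one circle_exp_int
  log_unique)
open Pool.Agent.H963CF.L739.CG (Good unicoherent ctm_inter)

theorem no_reach {X Y : Type*} [MetricSpace X] [CompactSpace X] [MetricSpace Y] [CompactSpace Y]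
    [ConnectedSpace Y] {U : Set (Y × ℝ)} {f : X → Y} {g : X → ℝ} {J : Set Y} {xs : X}
    (m : MF U f g J xs) {xa : X} (hx : xa ∈ Ec U f g J xs) {b z v : Y}
    (r : Rr U f g J xs xa b) (hz : z ∈ J) (hzne : Kab (f xa) z ≠ J) (hbz : b ∉ Kab (f xa) z)
    (hzb : z ∉ Kab (f xa) b) (hv : v ∈ Kab (f xa) z) : ¬ Rr U f g J xs xa v := by
  rintro ⟨P, hP, hPJ, hPne, haP, hvP, hRc⟩
  have hK : Ctm (Kab (f xa) z) := ctm_kab m.ctx.good _ _
  have hKJ : Kab (f xa) z ⊆ J := kab_subset m.hJ hx.1 hz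
  obtain ⟨h, κ, hh, he, hκ, hl⟩ := rc_all m hx hP hPJ hK hKJ hzne haP hvP (left_mem_kab _ _) hv hRc
  obtain ⟨h', hs', he', hev⟩ := rc_eqv m hx hKJ hv hh he hκ hl
  obtain ⟨s, hs, _, hsa, hsz⟩ := splice_pt m.ctx.hU hK.1.isClosed hs' (hκ.1.mono hKJ)
    (left_mem_kab (f xa) z) (right_mem_kab (f xa) z) hv hev.symm
  exact rc_two m hx hzb hbz ⟨Kab (f xa) z, hK, hKJ, hzne, left_mem_kab _ _, right_mem_kab _ _,
    s, κ, hs, he'.trans hsa, hκ, Or.inr hsz⟩ r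

theorem exit_pure {X Y : Type*} [MetricSpace X] [CompactSpace X] [MetricSpace Y] [CompactSpace Y]
    [ConnectedSpace Y] {U : Set (Y × ℝ)} {f : X → Y} {g : X → ℝ} {J : Set Y} {xs : X}
    (m : MF U f g J xs) {xa : X} (hx : xa ∈ Ec U f g J xs) {b : Y}
    (r : Rr U f g J xs xa b) {G : Set Y} (hGo : IsOpen G) (hGK : closure G ∩ Kab (f xa) b = ∅)
    (hGJ : (J ∩ G).Nonempty) :
    ∃ s ∈ connectedComponentIn (J \ G) (f xa) ∩ closure G, b ∉ Kab (f xa) s := by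
  obtain ⟨P0, hP0, hP0J, hP0ne, haP0, hbP0, hRc⟩ := r
  have haJ : f xa ∈ J := hx.1
  have hbJ : b ∈ J := hP0J hbP0
  have hdisj : ∀ y ∈ Kab (f xa) b, y ∉ G := by
    intro y hy hyG
    have : y ∈ closure G ∩ Kab (f xa) b := ⟨subset_closure hyG, hy⟩
    rw [hGK] at this
    exact this
  have haG : f xa ∉ G := hdisj _ (left_mem_kab _ _)
  have hy0 : f xa ∈ J \ G := ⟨haJ, haG⟩
  have hJG : IsCompact (J \ G) := m.hJ.1.diff hGo
  have hPc : Ctm (connectedComponentIn (J \ G) (f xa)) := ctm_component hJG hy0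
  have hPsub : connectedComponentIn (J \ G) (f xa) ⊆ J \ G := connectedComponentIn_subset _ _
  have hPJ : connectedComponentIn (J \ G) (f xa) ⊆ J := hPsub.trans sdiff_subset
  have hPne : connectedComponentIn (J \ G) (f xa) ≠ J := by
    intro he
    obtain ⟨z, hzJ, hzG⟩ := hGJ
    rw [← he] at hzJ
    exact (hPsub hzJ).2 hzG
  have hKc : Ctm (Kab (f xa) b) := ctm_kab m.ctx.good _ _
  have hKJ : Kab (f xa) b ⊆ J := kab_subset m.hJ haJ hbJ
  have hKP : Kab (f xa) b ⊆ connectedComponentIn (J \ G) (f xa) :=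
    hKc.2.isPreconnected.subset_connectedComponentIn (left_mem_kab _ _)
      (fun y hy => ⟨hKJ hy, hdisj y hy⟩)
  have hbP : b ∈ connectedComponentIn (J \ G) (f xa) := hKP (right_mem_kab _ _)
  have haP : f xa ∈ connectedComponentIn (J \ G) (f xa) := mem_connectedComponentIn hy0
  have hRcP := rc_all m hx hP0 hP0J hPc hPJ hPne haP0 hbP0 haP hbP hRc
  obtain ⟨h, κ, hh, hhe, hκ, hl⟩ := hRcP
  obtain ⟨h', hh', hh'a, hh'b⟩ := rc_eqv m hx hPJ hbP hh hhe hκ hl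
  by_contra hcon
  push Not at hcon
  have hkey : ∀ s ∈ connectedComponentIn (J \ G) (f xa) ∩ closure G,
      ∃ k', Sec U (connectedComponentIn (J \ G) (f xa)) k' ∧
        (∀ y ∈ ({f xa} : Set Y), Eqv U y (h' y) (k' y)) ∧ Eqv U s (κ s) (k' s) := by
    intro s hs
    obtain ⟨s', hs', _, hsa, hss⟩ := splice_pt m.ctx.hU hPc.1.isClosed hh' (hκ.1.mono hPJ)
      haP hs.1 (hcon s hs) hh'b.symm
    refine ⟨s', hs', ?_, hss⟩
    intro y hy
    rw [mem_singleton_iff] at hy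
    rw [hy]
    exact hsa
  obtain ⟨κ', hκ', hk'⟩ := exits m.ctx.hU m.hJ.1 hGo hy0 hh' hκ.1
    (F := {f xa}) (singleton_subset_iff.2 haP) hkey
  exact mf_no m hx hκ' (hh'a.trans (hk' _ rfl))

theorem h_dense {X Y : Type*} [MetricSpace X] [CompactSpace X] [MetricSpace Y] [CompactSpace Y]
    [ConnectedSpace Y] {U : Set (Y × ℝ)} {f : X → Y} {g : X → ℝ} {J : Set Y} {xs : X}
    (m : MF U f g J xs) {xa : X} (hx : xa ∈ Ec U f g J xs) {b : Y}
    (r : Rr U f g J xs xa b) {O : Set Y} (hO : IsOpen O) (hJO : (J ∩ O).Nonempty) :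
    ∃ z ∈ J ∩ O, Kab (f xa) z ≠ J ∧ b ∉ Kab (f xa) z ∧ z ∉ Kab (f xa) b := by
  have hG : Good Y := m.ctx.good
  have haJ : f xa ∈ J := hx.1
  obtain ⟨P, hPc, hPJ, hPne, haP, hbP, hRc⟩ := r
  have hKP : Kab (f xa) b ⊆ P := kab_subset hPc haP hbP
  obtain ⟨c, ⟨hcJ, hcO⟩, hcK⟩ := indec_baire hG m.hJ m.indec haJ hO hJO
  have hcn : c ∉ Kab (f xa) b := by
    intro hc
    have h1 : Kab (f xa) c ⊆ Kab (f xa) b := kab_subset_kab hG (left_mem_kab _ _) hc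
    rw [hcK] at h1
    exact hPne (Subset.antisymm hPJ (h1.trans hKP))
  have hKcl : IsClosed (Kab (f xa) b) := (ctm_kab hG (f xa) b).1.isClosed
  have hopen : IsOpen (O ∩ (Kab (f xa) b)ᶜ) := hO.inter hKcl.isOpen_compl
  obtain ⟨ε, hε, hball⟩ := Metric.nhds_basis_closedBall.mem_iff.1 (hopen.mem_nhds ⟨hcO, hcn⟩)
  have hcl : closure (Metric.ball c ε) ⊆ O ∩ (Kab (f xa) b)ᶜ :=
    Metric.closure_ball_subset_closedBall.trans hball
  have hGK : closure (Metric.ball c ε) ∩ Kab (f xa) b = ∅ := by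
    ext z
    simp only [mem_inter_iff, mem_empty_iff_false, iff_false, not_and]
    intro hz hzK
    exact (hcl hz).2 hzK
  have hcG : c ∈ Metric.ball c ε := Metric.mem_ball_self hε
  obtain ⟨s, ⟨hsP, hsG⟩, hbs⟩ := exit_pure m hx ⟨P, hPc, hPJ, hPne, haP, hbP, hRc⟩ (G := Metric.ball c ε)
    Metric.isOpen_ball hGK ⟨c, hcJ, hcG⟩
  have haG : f xa ∉ Metric.ball c ε := fun h => (hcl (subset_closure h)).2 (left_mem_kab _ _)
  have haJG : f xa ∈ J \ Metric.ball c ε := ⟨haJ, haG⟩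
  have hJG : IsCompact (J \ Metric.ball c ε) := m.hJ.1.diff Metric.isOpen_ball
  have hP0 : Ctm (connectedComponentIn (J \ Metric.ball c ε) (f xa)) := ctm_component hJG haJG
  have hsub : connectedComponentIn (J \ Metric.ball c ε) (f xa) ⊆ J \ Metric.ball c ε :=
    connectedComponentIn_subset _ _
  have hKs : Kab (f xa) s ⊆ connectedComponentIn (J \ Metric.ball c ε) (f xa) :=
    kab_subset hP0 (mem_connectedComponentIn haJG) hsP
  refine ⟨s, ⟨(hsub hsP).1, (hcl hsG).1⟩, ?_, hbs, (hcl hsG).2⟩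
  intro he
  have : c ∈ Kab (f xa) s := he ▸ hcJ
  exact (hsub (hKs this)).2 hcG

theorem pair_claim {X Y : Type*} [MetricSpace X] [CompactSpace X] [MetricSpace Y] [CompactSpace Y]
    [ConnectedSpace Y] {U : Set (Y × ℝ)} {f : X → Y} {g : X → ℝ} {J : Set Y} {xs : X}
    (m : MF U f g J xs) {xa : X} (hx : xa ∈ Ec U f g J xs) {b z u : Y} {x' : X}
    (r : Rr U f g J xs xa b) (hz : z ∈ J) (hzne : Kab (f xa) z ≠ J) (hbz : b ∉ Kab (f xa) z)
    (hzb : z ∉ Kab (f xa) b) (hu : u ∈ Kab (f xa) z) (hx' : x' ∈ Ec U f g J xs)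
    (ha' : f x' ∈ Kab (f xa) u) (hub : u ∉ Kab (f xa) b) (hab : f x' ∉ Kab (f xa) b)
    (r' : Rr U f g J xs x' u) : Rr U f g J xs x' b ∧ u ∈ Kab (f xa) (f x') := by
  have hG : Good Y := m.ctx.good
  have hU : IsOpen U := m.ctx.hU
  have haJ : f xa ∈ J := hx.1
  have hKz : Kab (f xa) u ⊆ Kab (f xa) z := kab_subset_kab hG (left_mem_kab _ _) hu
  have hKzJ : Kab (f xa) z ⊆ J := kab_subset m.hJ haJ hz
  have hbK : b ∉ Kab (f xa) u := fun h => hbz (hKz h)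
  obtain ⟨P, hP, hPJ, hPne, haP, hbP, hrc⟩ := id r
  obtain ⟨P0, hP0, hP0J, hP0ne, ha'P0, huP0, hrc'⟩ := id r'
  have hKb : Kab (f xa) b ⊆ P := kab_subset hP haP hbP
  have hM : Ctm (Kab (f xa) u ∪ Kab (f xa) b) :=
    ctm_union (ctm_kab hG _ _) (ctm_kab hG _ _) ⟨f xa, left_mem_kab _ _, left_mem_kab _ _⟩
  have hMJ : Kab (f xa) u ∪ Kab (f xa) b ⊆ J :=
    union_subset (hKz.trans hKzJ) (hKb.trans hPJ)
  have hMne : Kab (f xa) u ∪ Kab (f xa) b ≠ J := by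
    intro h
    rcases m.indec _ _ (ctm_kab hG _ _) (ctm_kab hG _ _) h with h1 | h1
    · apply hzne
      apply Subset.antisymm hKzJ
      rw [← h1]
      exact hKz
    · apply hPne
      apply Subset.antisymm hPJ
      rw [← h1]
      exact hKb
  set M : Set Y := Kab (f xa) u ∪ Kab (f xa) b with hMdef
  have haM : f xa ∈ M := Or.inl (left_mem_kab _ _)
  have huM : u ∈ M := Or.inl (right_mem_kab _ _)
  have hbM : b ∈ M := Or.inr (right_mem_kab _ _)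
  have ha'M : f x' ∈ M := Or.inl ha'
  obtain ⟨h1, κ1, hs1, he1, hg1, hl1⟩ :=
    rc_all m hx' hP0 hP0J hM hMJ hMne ha'P0 huP0 ha'M huM hrc'
  obtain ⟨h2, κ2, hs2, he2, hg2, hl2⟩ :=
    rc_all m hx hP hPJ hM hMJ hMne haP hbP haM hbM hrc
  have hgκ : Gp U f g J xs (fun y => min (κ1 y) (κ2 y)) := gp_min hg1 hg2
  obtain ⟨q, hqs, hqa', hqu⟩ := rc_eqv m hx' hMJ huM hs1 he1 hgκ (lev_min_left hl1)
  obtain ⟨ha, has, haa, hab'⟩ := rc_eqv m hx hMJ hbM hs2 he2 hgκ (lev_min_right hl2)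
  set κ : Y → ℝ := fun y => min (κ1 y) (κ2 y) with hκ
  have hno : ¬ Rr U f g J xs xa u := no_reach m hx r hz hzne hbz hzb hu
  have hMc : IsClosed M := hM.1.isClosed
  -- reaching over `M`
  have mkR : ∀ (x : X) (w : Y) (h : Y → ℝ), f x ∈ M → w ∈ M → Sec U M h →
      Eqv U (f x) (g x) (h (f x)) → Lev U w (κ w) (h w) → Rr U f g J xs x w :=
    fun x w h hxM hwM hs he hl => ⟨M, hM, hMJ, hMne, hxM, hwM, h, κ, hs, he, hgκ, hl⟩
  -- Case A
  have hA : ¬ Lev U (f xa) (q (f xa)) (g xa) := by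
    intro hA
    have c1 : Lev U (f xa) (q (f xa)) (ha (f xa)) := lev_trans hA (Lev.of_eqv haa)
    have c2 : Lev U u (ha u) (q u) := by
      rcases lev_total (U := U) (y := u) (κ u) (ha u) with h | h
      · exact absurd (mkR xa u ha haM huM has haa h) hno
      · exact lev_trans h (Lev.of_eqv hqu)
    obtain ⟨v, hv, hev⟩ := crossing (K := Kab (f xa) u) (hqs.mono subset_union_left)
      (has.mono subset_union_left) (ctm_kab hG _ _).2.isPreconnected (left_mem_kab _ _)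
      (right_mem_kab _ _) c1 c2
    obtain ⟨s, hss, _, hsa, hsu⟩ := splice_pt hU hMc has hqs haM huM hv hev.symm
    exact hno (mkR xa u s haM huM hss (haa.trans hsa) (Lev.of_eqv (hqu.trans hsu)))
  have hA' : Lev U (f xa) (ha (f xa)) (q (f xa)) := by
    have h3 := not_lev.1 hA
    exact lev_trans (Lev.of_eqv haa.symm) (Lev.of_le h3.1.le)
  have hR : Rr U f g J xs x' b := by
    rcases lev_total (U := U) (y := b) (κ b) (q b) with h | h
    · exact mkR x' b q ha'M hbM hqs hqa' h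
    · have c2 : Lev U b (q b) (ha b) := lev_trans h (Lev.of_eqv hab')
      obtain ⟨v, hv, hev⟩ := crossing (K := Kab (f xa) b) (has.mono subset_union_right)
        (hqs.mono subset_union_right) (ctm_kab hG _ _).2.isPreconnected (left_mem_kab _ _)
        (right_mem_kab _ _) hA' c2
      have hthree : f xa ∈ Kab (f x') b := by
        rcases kab_three hG (f xa) (f x') b with h3 | h3 | h3
        · exact h3
        · exact absurd h3 hab
        · exact absurd (kab_subset_kab hG (left_mem_kab _ _) ha' h3) hbK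
      have hv' : v ∈ Kab (f x') b := kab_subset_kab hG hthree (right_mem_kab _ _) hv
      obtain ⟨s, hss, _, hsa, hsb⟩ := splice_pt hU hMc hqs has ha'M hbM hv' hev.symm
      exact mkR x' b s ha'M hbM hss (hqa'.trans hsa) (Lev.of_eqv (hab'.trans hsb))
  refine ⟨hR, ?_⟩
  by_contra hcon
  have d1 : u ∉ Kab (f x') b := by
    intro h
    rcases kab_tri hG (f x') (f xa) b h with h3 | h3
    · rw [kab_comm] at h3
      exact hcon h3
    · exact hub h3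
  have d2 : b ∉ Kab (f x') u := fun h => hbK (kab_subset_kab hG ha' (right_mem_kab _ _) h)
  exact rc_two m hx' d1 d2 r' hR

theorem pair2 {X Y : Type*} [MetricSpace X] [CompactSpace X] [MetricSpace Y] [CompactSpace Y]
    [ConnectedSpace Y] {U : Set (Y × ℝ)} {f : X → Y} {g : X → ℝ} {J : Set Y} {xs : X}
    (m : MF U f g J xs) {xa : X} (hx : xa ∈ Ec U f g J xs) {b z : Y}
    (r : Rr U f g J xs xa b) (hz : z ∈ J) (hzne : Kab (f xa) z ≠ J) (hbz : b ∉ Kab (f xa) z)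
    (hzb : z ∉ Kab (f xa) b) {κ h k : Y → ℝ} (hκ : Gp U f g J xs κ) {u1 u2 : Y} {x1 x2 : X}
    (hx1 : x1 ∈ Ec U f g J xs) (hx2 : x2 ∈ Ec U f g J xs)
    (hu12 : u1 ∈ Kab (f xa) u2) (hu2z : u2 ∈ Kab (f xa) z)
    (ha1 : f x1 ∈ Kab (f xa) u1) (ha2 : f x2 ∈ Kab (f xa) u2) (hu2 : u2 ∉ Kab (f xa) u1)
    (hs1 : Sec U (Kab (f x1) u1) h) (hs2 : Sec U (Kab (f x2) u2) h)
    (he1 : Eqv U (f x1) (g x1) (h (f x1))) (he2 : Eqv U (f x2) (g x2) (h (f x2)))
    (hκ1 : Eqv U u1 (κ u1) (h u1)) (hκ2 : Eqv U u2 (κ u2) (h u2))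
    (ha1b : f x1 ∉ Kab (f xa) b) (ha2b : f x2 ∉ Kab (f xa) b)
    (hu1b : u1 ∉ Kab (f xa) b) (hu2b : u2 ∉ Kab (f xa) b)
    (hk : Sec U (Kab (f xa) z) k) (hk1 : Eqv U (f x1) (k (f x1)) (h (f x1)))
    (hk2 : Eqv U (f x2) (k (f x2)) (h (f x2))) : False := by
  have G := m.ctx.good
  have haJ : f xa ∈ J := hx.1
  have hKJ : Kab (f xa) z ⊆ J := kab_subset m.hJ haJ hz
  have hKc : Ctm (Kab (f xa) z) := ctm_kab G _ _
  have hu2sub : Kab (f xa) u2 ⊆ Kab (f xa) z := kab_subset_kab G (left_mem_kab _ _) hu2z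
  have hu1z : u1 ∈ Kab (f xa) z := hu2sub hu12
  have hu1sub : Kab (f xa) u1 ⊆ Kab (f xa) z := kab_subset_kab G (left_mem_kab _ _) hu1z
  have ha1z : f x1 ∈ Kab (f xa) z := hu1sub ha1
  have ha2z : f x2 ∈ Kab (f xa) z := hu2sub ha2
  have hP1 : Kab (f x1) u1 ⊆ Kab (f xa) z := kab_subset_kab G ha1z hu1z
  have hP2 : Kab (f x2) u2 ⊆ Kab (f xa) z := kab_subset_kab G ha2z hu2z
  have hne1 : Kab (f x1) u1 ≠ J := fun e => hzne (Subset.antisymm hKJ (e ▸ hP1))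
  have hne2 : Kab (f x2) u2 ≠ J := fun e => hzne (Subset.antisymm hKJ (e ▸ hP2))
  have hRc1 : Rc U f g J xs (Kab (f x1) u1) x1 u1 := ⟨h, κ, hs1, he1, hκ, Lev.of_eqv hκ1⟩
  have hRc2 : Rc U f g J xs (Kab (f x2) u2) x2 u2 := ⟨h, κ, hs2, he2, hκ, Lev.of_eqv hκ2⟩
  have hR1 : Rr U f g J xs x1 u1 := ⟨Kab (f x1) u1, ctm_kab G _ _, hP1.trans hKJ, hne1,
    left_mem_kab _ _, right_mem_kab _ _, hRc1⟩
  have hR2 : Rr U f g J xs x2 u2 := ⟨Kab (f x2) u2, ctm_kab G _ _, hP2.trans hKJ, hne2,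
    left_mem_kab _ _, right_mem_kab _ _, hRc2⟩
  obtain ⟨hR1b, hu1a1⟩ := pair_claim m hx r hz hzne hbz hzb hu1z hx1 ha1 hu1b ha1b hR1
  obtain ⟨hR2b, hu2a2⟩ := pair_claim m hx r hz hzne hbz hzb hu2z hx2 ha2 hu2b ha2b hR2
  have ha2u1 : f x2 ∉ Kab (f xa) u1 := fun hmem =>
    hu2 (kab_subset_kab G (left_mem_kab _ _) hmem hu2a2)
  have ha1sub : Kab (f xa) (f x1) ⊆ Kab (f xa) u1 := kab_subset_kab G (left_mem_kab _ _) ha1
  have ha2a1u2 : f x2 ∈ Kab (f x1) u2 := by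
    rcases kab_tri G (f xa) (f x1) u2 ha2 with h1 | h1
    · exact absurd (ha1sub h1) ha2u1
    · exact h1
  have hRcK : Rc U f g J xs (Kab (f xa) z) x2 u2 :=
    rc_all m hx2 (ctm_kab G _ _) (hP2.trans hKJ) hKc hKJ hzne (left_mem_kab _ _)
      (right_mem_kab _ _) ha2z hu2z hRc2
  obtain ⟨h', κ', hh', he', hκ', hl'⟩ := hRcK
  obtain ⟨q2, hq2, hq2e, hq2κ⟩ := rc_eqv m hx2 hKJ hu2z hh' he' hκ' hl'
  have hkq : Eqv U (f x2) (k (f x2)) (q2 (f x2)) := (hk2.trans he2.symm).trans hq2e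
  obtain ⟨s, hs, -, hsa, hsb⟩ := splice_pt m.ctx.hU hKc.1.isClosed hk hq2 ha1z hu2z ha2a1u2 hkq
  have hR1u2 : Rr U f g J xs x1 u2 := ⟨Kab (f xa) z, hKc, hKJ, hzne, ha1z, hu2z,
    s, κ', hs, (he1.trans hk1.symm).trans hsa, hκ', Lev.of_eqv (hq2κ.trans hsb)⟩
  refine rc_two m hx1 (w := u2) (b := b) ?_ ?_ hR1u2 hR1b
  · intro hmem
    rcases kab_tri G (f x1) (f xa) b hmem with h1 | h1
    · rw [kab_comm] at h1
      exact hu2 (ha1sub h1)
    · exact hu2b h1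
  · intro hmem
    exact hbz (kab_subset_kab G ha1z hu2z hmem)

theorem final_one {X Y : Type*} [MetricSpace X] [CompactSpace X] [MetricSpace Y] [CompactSpace Y]
    [ConnectedSpace Y] {U : Set (Y × ℝ)} {f : X → Y} {g : X → ℝ} {J : Set Y} {xs : X}
    (m : MF U f g J xs) {xa : X} (hx : xa ∈ Ec U f g J xs) {b : Y} {ρ : ℝ}
    (r : Rr U f g J xs xa b) {V V' G : Set Y} (hV : IsCompact V) (hV' : IsCompact V')
    (hGo : IsOpen G) (hu : V ∪ V' = J \ G) (hd : Disjoint V V') (hKV : Kab (f xa) b ⊆ V)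
    {h κ θ : Y → ℝ} (hh : Sec U V h) (hea : Eqv U (f xa) (g xa) (h (f xa)))
    (hκ : Gp U f g J xs κ) (hθ : Continuous θ) (hθa : θ (f xa) ≤ 0)
    (hmid : ∀ u ∈ J, 0 < θ u → θ u < 1 → u ∈ V ∧ Eqv U u (κ u) (h u))
    (hsep : ∀ C, Ctm C → C ⊆ V → ∀ u ∈ C, 0 < θ u → θ u < 1 → (∀ v ∈ C, θ v ≤ θ u) →
      ∀ s ∈ C ∩ closure G, ∃ v ∈ C, dist v (f xa) ≤ ρ)
    {z z0 : Y} (hz : z ∈ J) (hzne : Kab (f xa) z ≠ J) (hbz : b ∉ Kab (f xa) z)
    (hzb : z ∉ Kab (f xa) b) (hz0 : z0 ∈ Kab (f xa) z) {δ : ℝ} (hδ0 : 0 < δ) (hδ1 : δ < 1)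
    (hδ : δ ≤ θ z0) :
    ∃ u a' : Y, u ∈ Kab (f xa) z0 ∧ θ u = δ ∧ (∀ v ∈ Kab (f xa) u, θ v ≤ δ) ∧
      a' ∈ Kab (f xa) u ∧ dist a' (f xa) ≤ ρ ∧ Kab a' u ⊆ V ∧ u ∉ Kab (f xa) b ∧
      a' ∉ Kab (f xa) b := by
  have hG : Good Y := m.ctx.good
  have hJ : Ctm J := m.hJ
  have haJ : f xa ∈ J := hx.1
  have hclosed : IsClosed {y : Y | δ ≤ θ y} := isClosed_le continuous_const hθ
  have hZc : IsCompact (Kab (f xa) z0 ∩ {y | δ ≤ θ y}) := (ctm_kab hG _ _).1.inter_right hclosed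
  obtain ⟨u, huZ, hmin⟩ := exists_kab_min hG hZc ⟨z0, right_mem_kab _ _, hδ⟩ (f xa)
  have hKz0 : Kab (f xa) u ⊆ Kab (f xa) z0 := kab_subset_kab hG (left_mem_kab _ _) huZ.1
  have hKz : Kab (f xa) u ⊆ Kab (f xa) z :=
    hKz0.trans (kab_subset_kab hG (left_mem_kab _ _) hz0)
  have hzJ : Kab (f xa) z ⊆ J := kab_subset hJ haJ hz
  have hKJ : Kab (f xa) u ⊆ J := hKz.trans hzJ
  have hKc : Ctm (Kab (f xa) u) := ctm_kab hG _ _
  have hle : ∀ v ∈ Kab (f xa) u, θ v ≤ δ := by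
    intro v0 hv0
    by_contra hlt
    rw [not_le] at hlt
    have hO : IsOpen {y : Y | δ < θ y} := isOpen_lt continuous_const hθ
    have haO : f xa ∉ {y : Y | δ < θ y} := by
      intro h1
      have h2 : δ < θ (f xa) := h1
      linarith
    obtain ⟨v, hvD, hvcl⟩ := bump hKc hO ⟨v0, hv0, hlt⟩ (left_mem_kab _ _) haO
    have hDc : Ctm (connectedComponentIn (Kab (f xa) u \ {y : Y | δ < θ y}) (f xa)) :=
      ctm_component (hKc.1.diff hO) ⟨left_mem_kab _ _, haO⟩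
    have hDsub := connectedComponentIn_subset (Kab (f xa) u \ {y : Y | δ < θ y}) (f xa)
    have haD : f xa ∈ connectedComponentIn (Kab (f xa) u \ {y : Y | δ < θ y}) (f xa) :=
      mem_connectedComponentIn ⟨left_mem_kab _ _, haO⟩
    have hvge : δ ≤ θ v := by
      have h3 : closure {y : Y | δ < θ y} ⊆ {y : Y | δ ≤ θ y} :=
        closure_minimal (fun y (hy : δ < θ y) => (show δ ≤ θ y from le_of_lt hy)) hclosed
      exact h3 hvcl
    have hvK : v ∈ Kab (f xa) u := (hDsub hvD).1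
    have h4 := hmin v ⟨hKz0 hvK, hvge⟩ hvK
    have h5 : Kab (f xa) v ⊆ connectedComponentIn (Kab (f xa) u \ {y : Y | δ < θ y}) (f xa) :=
      kab_subset hDc haD hvD
    rw [h4] at h5
    exact (hDsub (h5 hv0)).2 hlt
  have hθu : θ u = δ := le_antisymm (hle u (right_mem_kab _ _)) huZ.2
  have huJ : u ∈ J := hKJ (right_mem_kab _ _)
  obtain ⟨huV, hueq⟩ := hmid u huJ (by rw [hθu]; exact hδ0) (by rw [hθu]; exact hδ1)
  have star : ∀ C', Ctm C' → C' ⊆ V → f xa ∈ C' → u ∈ C' → False := by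
    intro C' hC' hC'V ha hu'
    have hKV' : Kab (f xa) u ⊆ V := (kab_subset hC' ha hu').trans hC'V
    have hne : Kab (f xa) u ≠ J := by
      intro he
      apply hzne
      exact Subset.antisymm hzJ (he ▸ hKz)
    refine no_reach m hx r hz hzne hbz hzb (hKz (right_mem_kab _ _)) ?_
    exact ⟨Kab (f xa) u, hKc, hKJ, hne, left_mem_kab _ _, right_mem_kab _ _,
      h, κ, hh.mono hKV', hea, hκ, Or.inr hueq⟩
  have hKnV : ¬ Kab (f xa) u ⊆ V := fun hs =>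
    star _ hKc hs (left_mem_kab _ _) (right_mem_kab _ _)
  obtain ⟨W, hWo, hVW, hWcl⟩ := normal_exists_closure_subset hV'.isClosed hV.isClosed.isOpen_compl
    (fun y hy hyV => (disjoint_left.1 hd) hyV hy)
  have hO2 : IsOpen (G ∪ W) := hGo.union hWo
  have hVG : ∀ y ∈ V, y ∈ J \ G := fun y hy => hu ▸ Or.inl hy
  have huO2 : u ∉ G ∪ W := by
    rintro (h1 | h1)
    · exact (hVG u huV).2 h1
    · exact hWcl (subset_closure h1) huV
  have hKO2 : ∀ y ∈ Kab (f xa) u \ (G ∪ W), y ∈ V := by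
    rintro y ⟨hyK, hyO⟩
    have h1 : y ∈ J \ G := ⟨hKJ hyK, fun h => hyO (Or.inl h)⟩
    rw [← hu] at h1
    rcases h1 with h1 | h1
    · exact h1
    · exact absurd (Or.inr (hVW h1)) hyO
  have hne2 : (Kab (f xa) u ∩ (G ∪ W)).Nonempty := by
    rw [Set.not_subset] at hKnV
    obtain ⟨y, hyK, hyV⟩ := hKnV
    refine ⟨y, hyK, ?_⟩
    by_contra hyO
    exact hyV (hKO2 y ⟨hyK, hyO⟩)
  obtain ⟨s, hsC, hscl⟩ := bump hKc hO2 hne2 (right_mem_kab _ _) huO2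
  have hCc : Ctm (connectedComponentIn (Kab (f xa) u \ (G ∪ W)) u) :=
    ctm_component (hKc.1.diff hO2) ⟨right_mem_kab _ _, huO2⟩
  have hCsub := connectedComponentIn_subset (Kab (f xa) u \ (G ∪ W)) u
  have huC : u ∈ connectedComponentIn (Kab (f xa) u \ (G ∪ W)) u :=
    mem_connectedComponentIn ⟨right_mem_kab _ _, huO2⟩
  have hCV : connectedComponentIn (Kab (f xa) u \ (G ∪ W)) u ⊆ V := fun y hy => hKO2 y (hCsub hy)
  have hCK : connectedComponentIn (Kab (f xa) u \ (G ∪ W)) u ⊆ Kab (f xa) u :=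
    fun y hy => (hCsub hy).1
  have hsG : s ∈ closure G := by
    rw [closure_union] at hscl
    rcases hscl with h1 | h1
    · exact h1
    · exact absurd (hCV hsC) (hWcl h1)
  obtain ⟨a', ha'C, ha'd⟩ := hsep _ hCc hCV u huC (by rw [hθu]; exact hδ0)
    (by rw [hθu]; exact hδ1) (fun v hv => by rw [hθu]; exact hle v (hCK hv)) s ⟨hsC, hsG⟩
  refine ⟨u, a', huZ.1, hθu, hle, hCK ha'C, ha'd, (kab_subset hCc ha'C huC).trans hCV, ?_, ?_⟩
  · intro hub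
    exact star _ (ctm_kab hG _ _) hKV (left_mem_kab _ _) hub
  · intro hab
    exact star _ (ctm_union hCc (ctm_kab hG (f xa) b) ⟨a', ha'C, hab⟩) (union_subset hCV hKV)
      (Or.inr (left_mem_kab _ _)) (Or.inl huC)

theorem final_step {X Y : Type*} [MetricSpace X] [CompactSpace X] [MetricSpace Y] [CompactSpace Y]
    [ConnectedSpace Y] {U : Set (Y × ℝ)} {f : X → Y} {g : X → ℝ} {J : Set Y} {xs : X}
    (m : MF U f g J xs) {xa : X} (hx : xa ∈ Ec U f g J xs) {b : Y} {t0 ρ : ℝ}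
    (hst : ∀ y ∈ J, dist y (f xa) ≤ ρ → ∃ x ∈ Ec U f g J xs, f x = y ∧ Eqv U y t0 (g x))
    (r : Rr U f g J xs xa b) {V V' G : Set Y} (hV : IsCompact V) (hV' : IsCompact V')
    (hGo : IsOpen G) (hu : V ∪ V' = J \ G) (hd : Disjoint V V') (hKV : Kab (f xa) b ⊆ V)
    {h κ θ : Y → ℝ} (hh : Sec U V h) (hea : Eqv U (f xa) (g xa) (h (f xa)))
    (hball : ∀ y ∈ V, dist y (f xa) ≤ ρ → Eqv U y t0 (h y))
    (hκ : Gp U f g J xs κ) (hθ : Continuous θ) (hθa : θ (f xa) ≤ 0)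
    (hmid : ∀ u ∈ J, 0 < θ u → θ u < 1 → u ∈ V ∧ Eqv U u (κ u) (h u))
    (hsep : ∀ C, Ctm C → C ⊆ V → ∀ u ∈ C, 0 < θ u → θ u < 1 → (∀ v ∈ C, θ v ≤ θ u) →
      ∀ s ∈ C ∩ closure G, ∃ v ∈ C, dist v (f xa) ≤ ρ)
    (hpos : ∃ z ∈ J, 0 < θ z) : False := by
  classical
  have hG := m.ctx.good
  obtain ⟨z1, hz1J, hz1⟩ := hpos
  have hO : IsOpen {y | 0 < θ y} := isOpen_lt continuous_const hθ
  obtain ⟨z, ⟨hz, hzO⟩, hzne, hbz, hzb⟩ := h_dense m hx r hO ⟨z1, hz1J, hz1⟩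
  have hzpos : 0 < θ z := hzO
  have haJ : f xa ∈ J := hx.1
  obtain ⟨δ, hδdef⟩ : ∃ δ : ℕ → ℝ, δ = fun n => min (θ z) 1 / 2 ^ (n + 1) := ⟨_, rfl⟩
  have hmin : 0 < min (θ z) 1 := lt_min hzpos one_pos
  have hδpos : ∀ n, 0 < δ n := by
    intro n
    rw [hδdef]
    positivity
  have hδsucc : ∀ n, δ (n + 1) < δ n := by
    intro n
    rw [hδdef]
    beta_reduce
    refine div_lt_div_of_pos_left hmin (by positivity) ?_
    exact pow_lt_pow_right₀ (by norm_num) (by omega)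
  have hδanti : StrictAnti δ := strictAnti_nat_of_succ_lt hδsucc
  have hδ0 : δ 0 ≤ θ z ∧ δ 0 < 1 := by
    rw [hδdef]
    constructor
    · have := min_le_left (θ z) 1
      have h2 : min (θ z) 1 / 2 ^ (0 + 1) ≤ min (θ z) 1 := by
        rw [zero_add, pow_one]
        linarith
      exact h2.trans this
    · have := min_le_right (θ z) 1
      beta_reduce
      rw [zero_add, pow_one]
      linarith
  have hδ1 : ∀ n, δ n < 1 := fun n => (hδanti.antitone (Nat.zero_le n)).trans_lt hδ0.2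
  have hKz : Ctm (Kab (f xa) z) := ctm_kab hG _ _
  have hKzJ : Kab (f xa) z ⊆ J := kab_subset m.hJ haJ hz
  obtain ⟨P, hP⟩ : ∃ P : ℕ → Y × Y → Prop, P = fun n p => p.1 ∈ Kab (f xa) z ∧ θ p.1 = δ n ∧
      (∀ v ∈ Kab (f xa) p.1, θ v ≤ δ n) ∧ p.2 ∈ Kab (f xa) p.1 ∧ dist p.2 (f xa) ≤ ρ ∧
      Kab p.2 p.1 ⊆ V ∧ p.1 ∉ Kab (f xa) b ∧ p.2 ∉ Kab (f xa) b := ⟨_, rfl⟩
  have hbase : ∃ p, P 0 p := by
    obtain ⟨u, a', h1, h2, h3, h4, h5, h6, h7, h8⟩ := final_one m hx r hV hV' hGo hu hd hKV hh hea hκ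
      hθ hθa hmid hsep hz hzne hbz hzb (right_mem_kab (f xa) z) (hδpos 0) (hδ1 0) hδ0.1
    rw [hP]
    exact ⟨(u, a'), h1, h2, h3, h4, h5, h6, h7, h8⟩
  have hstep : ∀ n (p : Y × Y), P n p → ∃ q, P (n + 1) q ∧ q.1 ∈ Kab (f xa) p.1 := by
    intro n p hp
    rw [hP] at hp
    obtain ⟨p1, p2, p3, p4, p5, p6, p7, p8⟩ := hp
    obtain ⟨u, a', h1, h2, h3, h4, h5, h6, h7, h8⟩ := final_one m hx r hV hV' hGo hu hd hKV hh hea hκ
      hθ hθa hmid hsep hz hzne hbz hzb p1 (hδpos (n + 1)) (hδ1 (n + 1))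
      (by rw [p2]; exact (hδsucc n).le)
    rw [hP]
    exact ⟨(u, a'), ⟨kab_subset_kab hG (left_mem_kab _ _) p1 h1, h2, h3, h4, h5, h6, h7, h8⟩, h1⟩
  obtain ⟨p0, hp0⟩ := hbase
  choose! F hF using hstep
  obtain ⟨seq, hseq0, hseqS⟩ : ∃ seq : ℕ → Y × Y, seq 0 = p0 ∧ ∀ n, seq (n + 1) = F n (seq n) :=
    ⟨fun n => Nat.rec p0 (fun n p => F n p) n, rfl, fun n => rfl⟩
  have hseqP : ∀ n, P n (seq n) := by
    intro n
    induction n with
    | zero => rw [hseq0]; exact hp0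
    | succ n ih => rw [hseqS]; exact (hF n _ ih).1
  have hseqK : ∀ n, (seq (n + 1)).1 ∈ Kab (f xa) (seq n).1 := by
    intro n
    rw [hseqS]
    exact (hF n _ (hseqP n)).2
  have hmono : ∀ i j, i ≤ j → Kab (f xa) (seq j).1 ⊆ Kab (f xa) (seq i).1 := by
    intro i j hij
    induction j, hij using Nat.le_induction with
    | base => exact subset_rfl
    | succ j _ ih => exact (kab_subset_kab hG (left_mem_kab _ _) (hseqK j)).trans ih
  rw [hP] at hseqP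
  -- convergence
  obtain ⟨A, -, φ, hφ, hA⟩ := isCompact_univ.tendsto_subseq (x := fun n => (seq n).2)
    (fun n => mem_univ _)
  have haz : ∀ n, (seq n).2 ∈ Kab (f xa) z := by
    intro n
    obtain ⟨q1, q2, q3, q4, q5, q6, q7, q8⟩ := hseqP n
    exact kab_subset_kab hG (left_mem_kab _ _) q1 q4
  have haV : ∀ n, (seq n).2 ∈ V := by
    intro n
    obtain ⟨q1, q2, q3, q4, q5, q6, q7, q8⟩ := hseqP n
    exact q6 (left_mem_kab _ _)
  have had : ∀ n, dist (seq n).2 (f xa) ≤ ρ := fun n => (hseqP n).2.2.2.2.1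
  have hAz : A ∈ Kab (f xa) z :=
    hKz.1.isClosed.mem_of_tendsto hA (Eventually.of_forall fun n => haz (φ n))
  have hAV : A ∈ V := hV.isClosed.mem_of_tendsto hA (Eventually.of_forall fun n => haV (φ n))
  have hAd : dist A (f xa) ≤ ρ := by
    have hc : IsClosed {y | dist y (f xa) ≤ ρ} :=
      isClosed_le (continuous_id.dist continuous_const) continuous_const
    exact hc.mem_of_tendsto hA (Eventually.of_forall fun n => had (φ n))
  obtain ⟨xi, hxi, hfxi, hei⟩ := hst A (hKzJ hAz) hAd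
  have hei2 := hball A hAV hAd
  obtain ⟨k, hk, hke⟩ := m.proper (Kab (f xa) z) hKz hKzJ hzne xi (by rw [hfxi]; exact hAz)
  rw [hfxi] at hke
  have hkh : Eqv U A (k A) (h A) := (hke.symm.trans hei.symm).trans hei2
  have hopen : IsOpen {y | Eqv U y (k y) (h y)} := isOpen_eqv m.ctx.hU continuous_id hk.1 hh.1
  have hev := hA.eventually (hopen.mem_nhds hkh)
  obtain ⟨N, hN⟩ := eventually_atTop.1 hev
  have hij : φ N < φ (N + 1) := hφ (Nat.lt_succ_self N)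
  have hki : Eqv U (seq (φ N)).2 (k (seq (φ N)).2) (h (seq (φ N)).2) := hN N (le_refl N)
  have hkj : Eqv U (seq (φ (N + 1))).2 (k (seq (φ (N + 1))).2) (h (seq (φ (N + 1))).2) :=
    hN (N + 1) (Nat.le_succ N)
  obtain ⟨i, hi⟩ : ∃ i, i = φ N := ⟨_, rfl⟩
  obtain ⟨j, hj⟩ : ∃ j, j = φ (N + 1) := ⟨_, rfl⟩
  rw [← hi] at hij hki
  rw [← hj] at hij hkj
  obtain ⟨x1, hx1, hf1, he1⟩ := hst (seq j).2 (hKzJ (haz j)) (had j)
  obtain ⟨x2, hx2, hf2, he2⟩ := hst (seq i).2 (hKzJ (haz i)) (had i)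
  have he1' := hball (seq j).2 (haV j) (had j)
  have he2' := hball (seq i).2 (haV i) (had i)
  obtain ⟨q1, q2, q3, q4, q5, q6, q7, q8⟩ := hseqP i
  obtain ⟨w1, w2, w3, w4, w5, w6, w7, w8⟩ := hseqP j
  have hui : (seq i).1 ∉ Kab (f xa) (seq j).1 := by
    intro hcon
    have h1 := w3 _ hcon
    rw [q2] at h1
    exact absurd (hδanti hij) (not_lt.2 h1)
  refine pair2 m hx r hz hzne hbz hzb hκ (u1 := (seq j).1) (u2 := (seq i).1) hx1 hx2
    (hmono i j hij.le (right_mem_kab _ _)) q1 (by rw [hf1]; exact w4) (by rw [hf2]; exact q4) hui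
    (by rw [hf1]; exact hh.mono w6) (by rw [hf2]; exact hh.mono q6)
    (by rw [hf1]; exact he1.symm.trans he1') (by rw [hf2]; exact he2.symm.trans he2')
    ?_ ?_ (by rw [hf1]; exact w8) (by rw [hf2]; exact q8) w7 q7 hk
    (by rw [hf1]; exact hkj) (by rw [hf2]; exact hki)
  · exact (hmid _ (hKzJ w1) (by rw [w2]; exact hδpos j) (by rw [w2]; exact hδ1 j)).2
  · exact (hmid _ (hKzJ q1) (by rw [q2]; exact hδpos i) (by rw [q2]; exact hδ1 i)).2

end Pool.Agent.H963CF
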