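import Pool.Agent.H963CF.F

set_option autoImplicit false

namespace Pool.Agent.H963CF

open Set Topology Filter
open Pool.Agent.H963CF.L739.CT (Ctm ctm_union ctm_component clopen_nhd_component cutwire bump
  crossing_real sub_of_split ctm_iInter_directed const_of_int circle_exp_eq_one circle_exp_int
  log_unique)
open Pool.Agent.H963CF.L739.CG (Good unicoherent ctm_inter)

theorem sep_open {Y : Type*} [MetricSpace Y] {P T1 T2 B : Set Y} (hP : IsCompact P)
    (hT1 : IsClosed T1) (hT2 : IsClosed T2) (hB : IsOpen B)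
    (h : ∀ K ⊆ P, Ctm K → (K ∩ T1).Nonempty → (K ∩ T2).Nonempty → (K ∩ B).Nonempty) :
    ∃ O1 O2 : Set Y, IsOpen O1 ∧ IsOpen O2 ∧ closure O1 ∩ closure O2 = ∅ ∧
      P ⊆ O1 ∪ O2 ∪ B ∧ P ∩ T1 ⊆ O1 ∪ B ∧ P ∩ T2 ⊆ O2 ∪ B := by
  obtain ⟨A1, A2, hA1, hA2, hu, hd, h1, h2⟩ := cutwire (hP.diff hB) hT1 hT2 (by
    intro K hK hKc hK1 hK2
    obtain ⟨x, hxK, hxB⟩ := h K (hK.trans diff_subset) hKc hK1 hK2
    exact (hK hxK).2 hxB)
  obtain ⟨l, hl0, hl1, _⟩ := exists_continuous_zero_one_of_isClosed hA1.isClosed hA2.isClosed hd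
  have hl0' : ∀ x ∈ A1, l x = 0 := fun x hx => hl0 hx
  have hl1' : ∀ x ∈ A2, l x = 1 := fun x hx => hl1 hx
  refine ⟨{x | l x < 1 / 3}, {x | 2 / 3 < l x}, isOpen_lt l.continuous continuous_const,
    isOpen_lt continuous_const l.continuous, ?_, ?_, ?_, ?_⟩
  · have c1 : closure {x | l x < 1 / 3} ⊆ {x | l x ≤ 1 / 3} :=
      closure_minimal (fun x (hx : l x < 1 / 3) => (le_of_lt hx : l x ≤ 1 / 3))
        (isClosed_le l.continuous continuous_const)
    have c2 : closure {x | 2 / 3 < l x} ⊆ {x | 2 / 3 ≤ l x} :=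
      closure_minimal (fun x (hx : 2 / 3 < l x) => (le_of_lt hx : 2 / 3 ≤ l x))
        (isClosed_le continuous_const l.continuous)
    rw [Set.eq_empty_iff_forall_notMem]
    rintro x ⟨hx1, hx2⟩
    have e1 : l x ≤ 1 / 3 := c1 hx1
    have e2 : 2 / 3 ≤ l x := c2 hx2
    linarith
  · intro x hx
    by_cases hxB : x ∈ B
    · exact Or.inr hxB
    · have hx' : x ∈ A1 ∪ A2 := by rw [hu]; exact ⟨hx, hxB⟩
      left
      rcases hx' with hx' | hx'
      · left
        change l x < 1 / 3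
        rw [hl0' x hx']
        norm_num
      · right
        change 2 / 3 < l x
        rw [hl1' x hx']
        norm_num
  · rintro x ⟨hx, hxT⟩
    by_cases hxB : x ∈ B
    · exact Or.inr hxB
    · left
      change l x < 1 / 3
      rw [hl0' x (h1 ⟨⟨hx, hxB⟩, hxT⟩)]
      norm_num
  · rintro x ⟨hx, hxT⟩
    by_cases hxB : x ∈ B
    · exact Or.inr hxB
    · left
      change 2 / 3 < l x
      rw [hl1' x (h2 ⟨⟨hx, hxB⟩, hxT⟩)]
      norm_num

theorem start_sec {X Y : Type*} [MetricSpace X] [CompactSpace X] [MetricSpace Y] [CompactSpace Y]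
    [ConnectedSpace Y] {U : Set (Y × ℝ)} {f : X → Y} {g : X → ℝ} {J : Set Y} {xs : X}
    (m : MF U f g J xs) {xa : X} (hx : xa ∈ Ec U f g J xs) {b : Y} {t0 ρ : ℝ} (hρ : 0 < ρ)
    (r : Rr U f g J xs xa b) (ht0 : Eqv U (f xa) t0 (g xa)) {G : Set Y}
    (hGo : IsOpen G) (hGK : closure G ∩ Kab (f xa) b = ∅) (hGJ : (J ∩ G).Nonempty) :
    f xa ≠ b ∧ f xa ∈ J \ G ∧ Kab (f xa) b ⊆ connectedComponentIn (J \ G) (f xa) ∧
    ∃ h κ ρ', Gp U f g J xs κ ∧ Sec U (connectedComponentIn (J \ G) (f xa)) h ∧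
      Eqv U (f xa) (g xa) (h (f xa)) ∧ Eqv U b (κ b) (h b) ∧ 0 < ρ' ∧ ρ' ≤ ρ ∧
      ρ' < dist (f xa) b ∧ ∀ y, dist y (f xa) ≤ ρ' → Eqv U y t0 (h y) := by
  obtain ⟨P0, hP0, hP0J, hP0n, hxP0, hbP0, hrc⟩ := r
  have hKP0 : Kab (f xa) b ⊆ P0 := kab_subset hP0 hxP0 hbP0
  have hKG : Kab (f xa) b ⊆ J \ G := by
    intro y hy
    refine ⟨hP0J (hKP0 hy), fun hyG => ?_⟩
    have : y ∈ closure G ∩ Kab (f xa) b := ⟨subset_closure hyG, hy⟩
    rw [hGK] at this; exact this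
  have haG : f xa ∈ J \ G := hKG (left_mem_kab _ _)
  have hcomp : IsCompact (J \ G) := m.hJ.1.diff hGo
  have hP := ctm_component hcomp haG
  have hKP : Kab (f xa) b ⊆ connectedComponentIn (J \ G) (f xa) :=
    (ctm_kab m.ctx.good _ _).2.isPreconnected.subset_connectedComponentIn (left_mem_kab _ _) hKG
  have hPs : connectedComponentIn (J \ G) (f xa) ⊆ J \ G := connectedComponentIn_subset _ _
  have hPJ : connectedComponentIn (J \ G) (f xa) ⊆ J := fun y hy => (hPs hy).1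
  have hPn : connectedComponentIn (J \ G) (f xa) ≠ J := by
    intro he
    obtain ⟨c, hcJ, hcG⟩ := hGJ
    rw [← he] at hcJ
    exact (hPs hcJ).2 hcG
  obtain ⟨h0, κ, hh0, he0, hκ, hl0⟩ := rc_all m hx hP0 hP0J hP hPJ hPn hxP0 hbP0
    (hKP (left_mem_kab _ _)) (hKP (right_mem_kab _ _)) hrc
  obtain ⟨h, hh, he, hb⟩ := rc_eqv m hx hPJ (hKP (right_mem_kab _ _)) hh0 he0 hκ hl0
  have hab : f xa ≠ b := by
    intro hab
    have h1 := hx.2.1 κ hκ
    rw [← hab] at hb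
    exact h1.2 (he.trans hb.symm)
  have hopen : IsOpen {y | Eqv U y t0 (h y)} :=
    isOpen_eqv m.ctx.hU continuous_id continuous_const hh.1
  have hmem : f xa ∈ {y | Eqv U y t0 (h y)} := ht0.trans he
  obtain ⟨ε, hε, hball⟩ := Metric.isOpen_iff.1 hopen _ hmem
  have hd : 0 < dist (f xa) b := dist_pos.2 hab
  refine ⟨hab, haG, hKP, h, κ, min (min (ε / 2) ρ) (dist (f xa) b / 2), hκ, hh, he, hb, ?_, ?_, ?_, ?_⟩
  · positivity
  · exact (min_le_left _ _).trans (min_le_right _ _)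
  · exact (min_le_right _ _).trans_lt (by linarith)
  · intro y hy
    apply hball
    rw [Metric.mem_ball]
    have := (hy.trans (min_le_left _ _)).trans (min_le_left _ _)
    linarith

theorem case_two {X Y : Type*} [MetricSpace X] [CompactSpace X] [MetricSpace Y] [CompactSpace Y]
    [ConnectedSpace Y] {U : Set (Y × ℝ)} {f : X → Y} {g : X → ℝ} {J : Set Y} {xs : X}
    (m : MF U f g J xs) {xa : X} (hx : xa ∈ Ec U f g J xs) {b : Y} {t0 ρ : ℝ} (hρ : 0 < ρ)
    (hst : ∀ y ∈ J, dist y (f xa) ≤ ρ → ∃ x ∈ Ec U f g J xs, f x = y ∧ Eqv U y t0 (g x))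
    (r : Rr U f g J xs xa b) (ht0 : Eqv U (f xa) t0 (g xa)) {G : Set Y}
    (hGo : IsOpen G) (hGK : closure G ∩ Kab (f xa) b = ∅) (hGJ : (J ∩ G).Nonempty)
    (hall : ∀ s ∈ connectedComponentIn (J \ G) (f xa) ∩ closure G, f xa ∈ Kab b s) : False := by
  obtain ⟨hab, haJG, hKabP, h, κ, ρ', hκ, hh, hea, heb, hρ'0, hρ'ρ, hρ'd, hball⟩ :=
    start_sec m hx hρ r ht0 hGo hGK hGJ
  have hΦ : IsCompact (J \ G) := m.hJ.1.diff hGo
  have hPc : Ctm (connectedComponentIn (J \ G) (f xa)) := ctm_component hΦ haJG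
  have hbK : b ∈ Kab (f xa) b := right_mem_kab _ _
  have hbP : b ∈ connectedComponentIn (J \ G) (f xa) := hKabP hbK
  have hbB : b ∉ Metric.ball (f xa) ρ' := by
    rw [Metric.mem_ball, dist_comm, not_lt]; exact hρ'd.le
  obtain ⟨O1, O2, hO1, hO2, hO12, hPO, hT1, hT2⟩ := sep_open hPc.1 (isClosed_singleton (x := b))
    (isClosed_closure (s := G)) (Metric.isOpen_ball (x := f xa) (ε := ρ')) (by
      rintro K hKP hK ⟨b', hb'K, hb'⟩ ⟨s, hsK, hsG⟩
      rw [mem_singleton_iff] at hb'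
      subst hb'
      exact ⟨f xa, kab_subset hK hb'K hsK (hall s ⟨hKP hsK, hsG⟩), Metric.mem_ball_self hρ'0⟩)
  have hbO1 : b ∈ O1 := by
    rcases hT1 ⟨hbP, mem_singleton b⟩ with h1 | h1
    · exact h1
    · exact absurd h1 hbB
  have hNc : IsClosed ({y | (y, h y) ∉ U} ∪ (O1 ∪ O2 ∪ Metric.ball (f xa) ρ')ᶜ ∪
      (closure G \ (O2 ∪ Metric.ball (f xa) ρ'))) := by
    refine (IsClosed.union ?_ ?_).union ?_
    · have h1 : IsOpen {y | (y, h y) ∈ U} := m.ctx.hU.preimage (continuous_id.prodMk hh.1)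
      exact h1.isClosed_compl
    · exact ((hO1.union hO2).union Metric.isOpen_ball).isClosed_compl
    · exact isClosed_closure.sdiff (hO2.union Metric.isOpen_ball)
  have hPN : connectedComponentIn (J \ G) (f xa) ∩
      ({y | (y, h y) ∉ U} ∪ (O1 ∪ O2 ∪ Metric.ball (f xa) ρ')ᶜ ∪
      (closure G \ (O2 ∪ Metric.ball (f xa) ρ'))) = ∅ := by
    rw [eq_empty_iff_forall_notMem]
    rintro y ⟨hyP, (hy | hy) | hy⟩
    · exact hy (hh.2 y hyP)
    · exact hy (hPO hyP)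
    · exact hy.2 (hT2 ⟨hyP, hy.1⟩)
  obtain ⟨V, V', hV, hV', hu, hd, hPV, hNV'⟩ := clopen_nhd_component hΦ haJG hNc hPN
  have hVN : ∀ y ∈ V, y ∉ ({y | (y, h y) ∉ U} ∪ (O1 ∪ O2 ∪ Metric.ball (f xa) ρ')ᶜ ∪
      (closure G \ (O2 ∪ Metric.ball (f xa) ρ'))) := by
    intro y hy hyN
    have h1 : y ∈ J \ G := by rw [← hu]; exact Or.inl hy
    exact Set.disjoint_left.1 hd hy (hNV' ⟨h1, hyN⟩)
  have hVU : ∀ y ∈ V, (y, h y) ∈ U := by
    intro y hy
    by_contra hc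
    exact hVN y hy (Or.inl (Or.inl hc))
  have hVO : ∀ y ∈ V, y ∈ O1 ∪ O2 ∪ Metric.ball (f xa) ρ' := by
    intro y hy
    by_contra hc
    exact hVN y hy (Or.inl (Or.inr hc))
  have hVG : ∀ y ∈ V, y ∈ closure G → y ∈ O2 ∪ Metric.ball (f xa) ρ' := by
    intro y hy hyG
    by_contra hc
    exact hVN y hy (Or.inr ⟨hyG, hc⟩)
  have hbV : b ∈ V := hPV hbP
  have hbV' : b ∉ V' := fun hc => Set.disjoint_left.1 hd hbV hc
  have hbG : b ∉ closure G := by
    intro hc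
    have h1 : b ∈ closure G ∩ Kab (f xa) b := ⟨hc, hbK⟩
    rw [hGK] at h1
    exact h1
  have hopen : IsOpen (((O1 ∩ V'ᶜ) ∩ (closure G)ᶜ) ∩ {y | Eqv U y (κ y) (h y)}) := by
    refine ((hO1.inter hV'.isClosed.isOpen_compl).inter isClosed_closure.isOpen_compl).inter ?_
    exact isOpen_eqv m.ctx.hU continuous_id hκ.1.1 hh.1
  obtain ⟨ε0, hε0, hεb⟩ := Metric.isOpen_iff.1 hopen b ⟨⟨⟨hbO1, hbV'⟩, hbG⟩, heb⟩
  have hdab : 0 < dist (f xa) b := dist_pos.2 hab
  set ε : ℝ := min ε0 (dist (f xa) b) with hεdef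
  have hε : 0 < ε := lt_min hε0 hdab
  have hεb' : Metric.ball b ε ⊆ ((O1 ∩ V'ᶜ) ∩ (closure G)ᶜ) ∩ {y | Eqv U y (κ y) (h y)} :=
    (Metric.ball_subset_ball (min_le_left _ _)).trans hεb
  have hθpos : ∀ u : Y, 0 < (1 / 2 : ℝ) * max 0 (1 - dist u b / ε) → u ∈ Metric.ball b ε := by
    intro u hu1
    rw [Metric.mem_ball]
    by_contra hc
    rw [not_lt] at hc
    have h1 : 1 ≤ dist u b / ε := (one_le_div hε).2 hc
    have h2 : max 0 (1 - dist u b / ε) = 0 := max_eq_left (by linarith)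
    rw [h2, mul_zero] at hu1
    exact lt_irrefl 0 hu1
  refine final_step (θ := fun u => (1 / 2 : ℝ) * max 0 (1 - dist u b / ε)) (ρ := ρ') (t0 := t0)
    (h := h) (κ := κ) m hx
    (fun y hy hyd => hst y hy (hyd.trans hρ'ρ)) r hV hV' hGo hu hd (hKabP.trans hPV)
    ⟨hh.1, hVU⟩ hea (fun y _ hyd => hball y hyd) hκ ?_ ?_ ?_ ?_ ?_
  · fun_prop
  · have h1 : 1 ≤ dist (f xa) b / ε := (one_le_div hε).2 (min_le_right _ _)
    have h2 : max 0 (1 - dist (f xa) b / ε) = 0 := max_eq_left (by linarith)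
    rw [h2, mul_zero]
  · intro u huJ hu1 _
    obtain ⟨⟨⟨_, h2⟩, h3⟩, h4⟩ := hεb' (hθpos u hu1)
    refine ⟨?_, h4⟩
    have h5 : u ∈ V ∪ V' := by
      rw [hu]
      exact ⟨huJ, fun hc => h3 (subset_closure hc)⟩
    rcases h5 with h5 | h5
    · exact h5
    · exact absurd h5 h2
  · intro C hC hCV u huC hu1 _ _ s hs
    by_contra hcon
    push Not at hcon
    have hCB : ∀ v ∈ C, v ∉ Metric.ball (f xa) ρ' := by
      intro v hv
      rw [Metric.mem_ball, not_lt]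
      exact (hcon v hv).le
    have huO1 : u ∈ O1 := (hεb' (hθpos u hu1)).1.1.1
    have hsO2 : s ∈ O2 := by
      rcases hVG s (hCV hs.1) hs.2 with h1 | h1
      · exact h1
      · exact absurd h1 (hCB s hs.1)
    have hCO : C ⊆ O1 ∪ O2 := by
      intro v hv
      rcases hVO v (hCV hv) with h1 | h1
      · exact h1
      · exact absurd h1 (hCB v hv)
    obtain ⟨v, _, hv1, hv2⟩ := hC.2.isPreconnected O1 O2 hO1 hO2 hCO ⟨u, huC, huO1⟩
      ⟨s, hs.1, hsO2⟩
    have h6 : v ∈ closure O1 ∩ closure O2 := ⟨subset_closure hv1, subset_closure hv2⟩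
    rw [hO12] at h6
    exact h6
  · refine ⟨b, ?_, ?_⟩
    · exact (connectedComponentIn_subset _ _ hbP).1
    · simp only [dist_self, zero_div, sub_zero]
      norm_num

theorem case_split {X Y : Type*} [MetricSpace X] [CompactSpace X] [MetricSpace Y] [CompactSpace Y]
    [ConnectedSpace Y] {U : Set (Y × ℝ)} {f : X → Y} {g : X → ℝ} {J : Set Y} {xs : X}
    (m : MF U f g J xs) {xa : X} (hx : xa ∈ Ec U f g J xs) {b : Y}
    (r : Rr U f g J xs xa b)
    (hall : ∀ G : Set Y, IsOpen G → closure G ∩ Kab (f xa) b = ∅ → (J ∩ G).Nonempty →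
      ∃ s ∈ connectedComponentIn (J \ G) (f xa) ∩ closure G, f xa ∉ Kab b s) :
    ∃ G : Set Y, IsOpen G ∧ closure G ∩ Kab (f xa) b = ∅ ∧ (J ∩ G).Nonempty ∧
      ∃ Sa Sb : Set Y, IsClosed Sa ∧ IsClosed Sb ∧
        connectedComponentIn (J \ G) (f xa) ∩ closure G ⊆ Sa ∪ Sb ∧
        (∀ s ∈ connectedComponentIn (J \ G) (f xa) ∩ closure G, s ∈ Sa → b ∉ Kab (f xa) s) ∧
        (∀ s ∈ connectedComponentIn (J \ G) (f xa) ∩ closure G, s ∈ Sb → f xa ∉ Kab b s) := by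
  have hG := m.ctx.good
  obtain ⟨P, hP, hPJ, hPne, haP, hbP, hrc⟩ := id r
  have haJ : f xa ∈ J := hPJ haP
  have hbJ : b ∈ J := hPJ hbP
  have hKP : Kab (f xa) b ⊆ P := kab_subset hP haP hbP
  have hKJ : Kab (f xa) b ⊆ J := hKP.trans hPJ
  have hKc : Ctm (Kab (f xa) b) := ctm_kab hG _ _
  have hOo : IsOpen (Kab (f xa) b)ᶜ := hKc.1.isClosed.isOpen_compl
  have hJO : (J ∩ (Kab (f xa) b)ᶜ).Nonempty := by
    by_contra h
    rw [not_nonempty_iff_eq_empty] at h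
    apply hPne
    refine Subset.antisymm hPJ fun y hy => hKP ?_
    by_contra hy'
    have : y ∈ J ∩ (Kab (f xa) b)ᶜ := ⟨hy, hy'⟩
    rw [h] at this
    exact this
  obtain ⟨c, ⟨hcJ, hcK⟩, hcj⟩ := indec_baire hG m.hJ m.indec haJ hOo hJO
  obtain ⟨ε, hε, hball⟩ := Metric.isOpen_iff.1 hOo c hcK
  have hε2 : 0 < ε / 2 := by linarith
  have hε4 : 0 < ε / 4 := by linarith
  have hcl1 : closure (Metric.ball c (ε / 2)) ∩ Kab (f xa) b = ∅ := by
    rw [eq_empty_iff_forall_notMem]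
    rintro y ⟨hy, hyK⟩
    have h1 : y ∈ Metric.closedBall c (ε / 2) := Metric.closure_ball_subset_closedBall hy
    have h2 : y ∈ Metric.ball c ε := by
      rw [Metric.mem_closedBall] at h1
      rw [Metric.mem_ball]
      linarith
    exact hball h2 hyK
  have hsub : closure (Metric.ball c (ε / 4)) ⊆ Metric.ball c (ε / 2) := by
    intro y hy
    have h1 : y ∈ Metric.closedBall c (ε / 4) := Metric.closure_ball_subset_closedBall hy
    rw [Metric.mem_closedBall] at h1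
    rw [Metric.mem_ball]
    linarith
  have hcl2 : closure (Metric.ball c (ε / 4)) ∩ Kab (f xa) b = ∅ := by
    rw [eq_empty_iff_forall_notMem]
    rintro y ⟨hy, hyK⟩
    have h1 := subset_closure (hsub hy)
    have : y ∈ closure (Metric.ball c (ε / 2)) ∩ Kab (f xa) b := ⟨h1, hyK⟩
    rw [hcl1] at this
    exact this
  have hJ1 : (J ∩ Metric.ball c (ε / 2)).Nonempty := ⟨c, hcJ, Metric.mem_ball_self hε2⟩
  have hJ2 : (J ∩ Metric.ball c (ε / 4)).Nonempty := ⟨c, hcJ, Metric.mem_ball_self hε4⟩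
  obtain ⟨sa, ⟨hsaP, hsaG⟩, hsab⟩ := exit_pure m hx r Metric.isOpen_ball hcl2 hJ2
  obtain ⟨sb, ⟨hsbP, hsbG⟩, hsba⟩ := hall _ Metric.isOpen_ball hcl2 hJ2
  have hKG : Kab (f xa) b ⊆ J \ Metric.ball c (ε / 2) := by
    intro y hy
    refine ⟨hKJ hy, fun h => ?_⟩
    have : y ∈ closure (Metric.ball c (ε / 2)) ∩ Kab (f xa) b := ⟨subset_closure h, hy⟩
    rw [hcl1] at this
    exact this
  have hcomp : IsCompact (J \ Metric.ball c (ε / 2)) := m.hJ.1.diff Metric.isOpen_ball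
  have haG : f xa ∈ J \ Metric.ball c (ε / 2) := hKG (left_mem_kab _ _)
  have hP1 := ctm_component hcomp haG
  have hKP1 : Kab (f xa) b ⊆ connectedComponentIn (J \ Metric.ball c (ε / 2)) (f xa) :=
    hKc.2.isPreconnected.subset_connectedComponentIn (left_mem_kab _ _) hKG
  have hP1s : connectedComponentIn (J \ Metric.ball c (ε / 2)) (f xa) ⊆
      J \ Metric.ball c (ε / 2) := connectedComponentIn_subset _ _
  have hsa1 : sa ∉ connectedComponentIn (J \ Metric.ball c (ε / 2)) (f xa) := fun h =>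
    (hP1s h).2 (hsub hsaG)
  have hsb1 : sb ∉ connectedComponentIn (J \ Metric.ball c (ε / 2)) (f xa) := fun h =>
    (hP1s h).2 (hsub hsbG)
  have hsplit := pure_split hG hP1 (hKP1 (left_mem_kab _ _)) (hKP1 (right_mem_kab _ _)) hsa1 hsb1
    hsab hsba
  refine ⟨Metric.ball c (ε / 2), Metric.isOpen_ball, hcl1, hJ1, Kab (f xa) sa, Kab b sb,
    (ctm_kab hG _ _).1.isClosed, (ctm_kab hG _ _).1.isClosed, ?_, ?_, ?_⟩
  · rintro s ⟨hs1, hs2⟩
    rcases hsplit hs1 with (h | h) | h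
    · exfalso
      have : s ∈ closure (Metric.ball c (ε / 2)) ∩ Kab (f xa) b := ⟨hs2, h⟩
      rw [hcl1] at this
      exact this
    · exact Or.inl h
    · exact Or.inr h
  · rintro s _ hs hb
    exact hsab (kab_subset_kab hG (left_mem_kab _ _) hs hb)
  · rintro s _ hs ha
    exact hsba (kab_subset_kab hG (left_mem_kab _ _) hs ha)

theorem case_one {X Y : Type*} [MetricSpace X] [CompactSpace X] [MetricSpace Y] [CompactSpace Y]
    [ConnectedSpace Y] {U : Set (Y × ℝ)} {f : X → Y} {g : X → ℝ} {J : Set Y} {xs : X}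
    (m : MF U f g J xs) {xa : X} (hx : xa ∈ Ec U f g J xs) {b : Y} {t0 ρ : ℝ} (hρ : 0 < ρ)
    (hst : ∀ y ∈ J, dist y (f xa) ≤ ρ → ∃ x ∈ Ec U f g J xs, f x = y ∧ Eqv U y t0 (g x))
    (r : Rr U f g J xs xa b) (ht0 : Eqv U (f xa) t0 (g xa))
    (hall : ∀ G : Set Y, IsOpen G → closure G ∩ Kab (f xa) b = ∅ → (J ∩ G).Nonempty →
      ∃ s ∈ connectedComponentIn (J \ G) (f xa) ∩ closure G, f xa ∉ Kab b s) : False := by
  obtain ⟨G, hGo, hGK, hGJ, Sa, Sb, hSa, hSb, hcov, hSa', hSb'⟩ := case_split m hx r hall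
  obtain ⟨hab, haJG, hKP, h, κ, ρ', hκ, hh, hea, heb, hρ0, hρρ, hρb, hball⟩ :=
    start_sec m hx hρ r ht0 hGo hGK hGJ
  have hG : Good Y := m.ctx.good
  have hU : IsOpen U := m.ctx.hU
  have hJ : Ctm J := m.hJ
  have hJG : IsCompact (J \ G) := hJ.1.diff hGo
  obtain ⟨P, hPdef⟩ : ∃ P, P = connectedComponentIn (J \ G) (f xa) := ⟨_, rfl⟩
  have hP : Ctm P := by
    rw [hPdef]
    exact ctm_component hJG haJG
  have hPJG : P ⊆ J \ G := by
    rw [hPdef]
    exact connectedComponentIn_subset _ _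
  have hex1 := hall G hGo hGK hGJ
  rw [← hPdef] at hcov hSa' hSb' hKP hh hex1
  have haP : f xa ∈ P := hKP (left_mem_kab _ _)
  have hbP : b ∈ P := hKP (right_mem_kab _ _)
  have hnK : ∀ s ∈ closure G, s ∉ Kab (f xa) b := by
    intro s hs hs'
    have : s ∈ closure G ∩ Kab (f xa) b := ⟨hs, hs'⟩
    rw [hGK] at this
    exact this
  have hA : ∀ s ∈ P ∩ closure G, s ∈ Sa → f xa ∈ Kab b s := by
    intro s hs hsa
    rcases kab_three hG (f xa) b s with h1 | h1 | h1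
    · exact h1
    · exact absurd h1 (hSa' s hs hsa)
    · exact absurd h1 (hnK s hs.2)
  have hB : ∀ s ∈ P ∩ closure G, s ∈ Sb → b ∈ Kab (f xa) s := by
    intro s hs hsb
    rcases kab_three hG (f xa) b s with h1 | h1 | h1
    · exact absurd h1 (hSb' s hs hsb)
    · exact h1
    · exact absurd h1 (hnK s hs.2)
  -- step 1
  obtain ⟨O1', O2', hO1', hO2', hdisj', hPc', hT1', hT2'⟩ := sep_open (P := P) (T1 := {b})
    (T2 := Sa ∩ closure G) (B := Metric.ball (f xa) ρ') hP.1 isClosed_singleton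
    (hSa.inter isClosed_closure) Metric.isOpen_ball (by
      rintro K hKP' hK ⟨b', hb'K, hb'⟩ ⟨s, hsK, hsS, hsG⟩
      rw [mem_singleton_iff] at hb'
      rw [hb'] at hb'K
      have h1 := hA s ⟨hKP' hsK, hsG⟩ hsS
      exact ⟨f xa, kab_subset hK hb'K hsK h1, Metric.mem_ball_self hρ0⟩)
  have hbO1' : b ∈ O1' := by
    rcases hT1' ⟨hbP, mem_singleton b⟩ with h1 | h1
    · exact h1
    · exfalso
      rw [Metric.mem_ball, dist_comm] at h1
      linarith
  -- step 2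
  obtain ⟨B', hB'def⟩ : ∃ B' : Set Y, B' = O1' ∩ (closure G)ᶜ ∩ {y | Eqv U y (κ y) (h y)} ∩
    {f xa}ᶜ := ⟨_, rfl⟩
  have hB'o : IsOpen B' := by
    rw [hB'def]
    refine ((hO1'.inter isClosed_closure.isOpen_compl).inter ?_).inter
      isClosed_singleton.isOpen_compl
    exact isOpen_eqv hU continuous_id hκ.1.1 hh.1
  have hbB' : b ∈ B' := by
    rw [hB'def]
    refine ⟨⟨⟨hbO1', fun h1 => hnK b h1 (right_mem_kab _ _)⟩, heb⟩, ?_⟩
    intro h1
    exact hab (mem_singleton_iff.1 h1).symm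
  have hB'1 : ∀ y ∈ B', y ∈ O1' := fun y hy => by
    rw [hB'def] at hy
    exact hy.1.1.1
  have hB'2 : ∀ y ∈ B', y ∉ closure G := fun y hy => by
    rw [hB'def] at hy
    exact hy.1.1.2
  have hB'3 : ∀ y ∈ B', Eqv U y (κ y) (h y) := fun y hy => by
    rw [hB'def] at hy
    exact hy.1.2
  have haB' : f xa ∉ B' := fun hy => by
    rw [hB'def] at hy
    exact hy.2 (mem_singleton _)
  obtain ⟨O1, O2, hO1, hO2, hdisj, hPc, hT1, hT2⟩ := sep_open (P := P)
    (T1 := {f xa} ∪ (Sa ∩ closure G)) (T2 := Sb ∩ closure G) (B := B') hP.1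
    (isClosed_singleton.union (hSa.inter isClosed_closure)) (hSb.inter isClosed_closure) hB'o (by
      rintro K hKP' hK ⟨s1, hs1K, hs1⟩ ⟨s, hsK, hsS, hsG⟩
      have h1 := hB s ⟨hKP' hsK, hsG⟩ hsS
      refine ⟨b, ?_, hbB'⟩
      rcases hs1 with h2 | h2
      · rw [mem_singleton_iff] at h2
        rw [h2] at hs1K
        exact kab_subset hK hs1K hsK h1
      · have h3 := hSa' s1 ⟨hKP' hs1K, h2.2⟩ h2.1
        rcases kab_tri hG (f xa) s1 s h1 with h4 | h4
        · exact absurd h4 h3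
        · exact kab_subset hK hs1K hsK h4)
  have haO1 : f xa ∈ O1 := by
    rcases hT1 ⟨haP, Or.inl (mem_singleton _)⟩ with h1 | h1
    · exact h1
    · exact absurd h1 haB'
  have hEa : ∀ s ∈ P ∩ closure G, s ∈ Sa → s ∈ O1 := by
    intro s hs hsa
    rcases hT1 ⟨hs.1, Or.inr ⟨hsa, hs.2⟩⟩ with h1 | h1
    · exact h1
    · exact absurd hs.2 (hB'2 s h1)
  have hEb : ∀ s ∈ P ∩ closure G, s ∈ Sb → s ∈ O2 := by
    intro s hs hsb
    rcases hT2 ⟨hs.1, hsb, hs.2⟩ with h1 | h1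
    · exact h1
    · exact absurd hs.2 (hB'2 s h1)
  -- step 3
  obtain ⟨N, hNdef⟩ : ∃ N : Set Y, N = {y | (y, h y) ∉ U} ∪ (O1 ∪ O2 ∪ B')ᶜ ∪
    (O1' ∪ O2' ∪ Metric.ball (f xa) ρ')ᶜ ∪
    (closure G ∩ ((O1 ∩ (O2' ∪ Metric.ball (f xa) ρ')) ∪ O2)ᶜ) := ⟨_, rfl⟩
  have hNc : IsClosed N := by
    rw [hNdef]
    have h1 : IsClosed {y | (y, h y) ∉ U} := by
      have h2 : IsOpen {y | (y, h y) ∈ U} := hU.preimage (continuous_id.prodMk hh.1)
      exact h2.isClosed_compl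
    refine ((h1.union ((hO1.union hO2).union hB'o).isClosed_compl).union
      ((hO1'.union hO2').union Metric.isOpen_ball).isClosed_compl).union
      (isClosed_closure.inter ((hO1.inter (hO2'.union Metric.isOpen_ball)).union
        hO2).isClosed_compl)
  have hPN : P ∩ N = ∅ := by
    rw [Set.eq_empty_iff_forall_notMem]
    rintro y ⟨hyP, hyN⟩
    rw [hNdef] at hyN
    rcases hyN with ((h1 | h1) | h1) | h1
    · exact h1 (hh.2 y hyP)
    · exact h1 (hPc hyP)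
    · exact h1 (hPc' hyP)
    · apply h1.2
      rcases hcov ⟨hyP, h1.1⟩ with h2 | h2
      · left
        refine ⟨hEa y ⟨hyP, h1.1⟩ h2, ?_⟩
        exact hT2' ⟨hyP, h2, h1.1⟩
      · right
        exact hEb y ⟨hyP, h1.1⟩ h2
  obtain ⟨V, V', hV, hV', hVu, hVd, hPV, hNV'⟩ := clopen_nhd_component hJG haJG hNc (by
    rw [← hPdef]
    exact hPN)
  rw [← hPdef] at hPV
  have hVN : ∀ y ∈ V, y ∉ N := by
    intro y hy hyN
    have h1 : y ∈ J \ G := by
      rw [← hVu]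
      exact Or.inl hy
    exact Set.disjoint_left.1 hVd hy (hNV' ⟨h1, hyN⟩)
  have hV1 : ∀ y ∈ V, (y, h y) ∈ U := by
    intro y hy
    by_contra h1
    apply hVN y hy
    rw [hNdef]
    exact Or.inl (Or.inl (Or.inl h1))
  have hV2 : ∀ y ∈ V, y ∈ O1 ∪ O2 ∪ B' := by
    intro y hy
    by_contra h1
    apply hVN y hy
    rw [hNdef]
    exact Or.inl (Or.inl (Or.inr h1))
  have hV3 : ∀ y ∈ V, y ∈ O1' ∪ O2' ∪ Metric.ball (f xa) ρ' := by
    intro y hy
    by_contra h1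
    apply hVN y hy
    rw [hNdef]
    exact Or.inl (Or.inr h1)
  have hV4 : ∀ y ∈ V, y ∈ closure G → y ∈ (O1 ∩ (O2' ∪ Metric.ball (f xa) ρ')) ∪ O2 := by
    intro y hy hyG
    by_contra h1
    apply hVN y hy
    rw [hNdef]
    exact Or.inr ⟨hyG, h1⟩
  -- step 4
  obtain ⟨e, he0, he1, he01⟩ := exists_continuous_zero_one_of_isClosed
    (s := closure O1) (t := closure O2) isClosed_closure isClosed_closure
    (Set.disjoint_iff_inter_eq_empty.2 hdisj)
  have heO1 : ∀ y ∈ O1, e y = 0 := fun y hy => he0 (subset_closure hy)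
  have heO2 : ∀ y ∈ O2, e y = 1 := fun y hy => he1 (subset_closure hy)
  obtain ⟨θ, hθc, hθP, hθV, hθV'⟩ := lift_e hG hJ hGo hV hV' hVu hVd hP.2 hPV e.continuous (by
    rintro y ⟨hyV, hyG⟩
    rcases hV4 y hyV hyG with h1 | h1
    · exact Or.inl (heO1 y h1.1)
    · exact Or.inr (heO2 y h1))
  have hmid0 : ∀ u ∈ J, 0 < θ u → θ u < 1 → u ∈ V ∧ θ u = e u ∧ u ∈ B' := by
    intro u hu h0 h1
    have hn : u ∉ V' ∪ (J ∩ closure G) := by
      intro h2
      obtain ⟨n, hn⟩ := hθV' u h2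
      rw [hn] at h0 h1
      have h3 : (0 : ℤ) < n := by exact_mod_cast h0
      have h4 : n < (1 : ℤ) := by exact_mod_cast h1
      omega
    have huV : u ∈ V := by
      have h2 : u ∈ J \ G := ⟨hu, fun h3 => hn (Or.inr ⟨hu, subset_closure h3⟩)⟩
      rw [← hVu] at h2
      rcases h2 with h3 | h3
      · exact h3
      · exact absurd (Or.inl h3) hn
    obtain ⟨n, hn'⟩ := hθV u huV
    have h01 := he01 u
    have hn0 : n = 0 := by
      have h3 : (-1 : ℝ) < n := by linarith [h01.2]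
      have h4 : (n : ℝ) < 1 := by linarith [h01.1]
      have h5 : (-1 : ℤ) < n := by exact_mod_cast h3
      have h6 : n < (1 : ℤ) := by exact_mod_cast h4
      omega
    have hθe : θ u = e u := by
      rw [hn', hn0]
      simp
    refine ⟨huV, hθe, ?_⟩
    rcases hV2 u huV with (h3 | h3) | h3
    · exfalso
      rw [hθe, heO1 u h3] at h0
      exact lt_irrefl _ h0
    · exfalso
      rw [hθe, heO2 u h3] at h1
      exact lt_irrefl _ h1
    · exact h3
  refine final_step m hx (t0 := t0) (ρ := ρ') (fun y hy hd => hst y hy (hd.trans hρρ)) r hV hV'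
    hGo hVu hVd (hKP.trans hPV) (h := h) (κ := κ) (θ := θ) ⟨hh.1, hV1⟩ hea
    (fun y _ hd => hball y hd) hκ hθc ?_ ?_ ?_ ?_
  · rw [hθP _ haP, heO1 _ haO1]
  · intro u hu h0 h1
    obtain ⟨h2, _, h4⟩ := hmid0 u hu h0 h1
    exact ⟨h2, hB'3 u h4⟩
  · intro C hC hCV u huC h0 h1 hmax s hs
    have huJ : u ∈ J := by
      have h2 : u ∈ J \ G := by
        rw [← hVu]
        exact Or.inl (hCV huC)
      exact h2.1
    obtain ⟨huV, hθu, huB'⟩ := hmid0 u huJ h0 h1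
    have hconst := const_of_int (S := C) hC.2.isPreconnected (f := fun y => θ y - e y)
      ((hθc.sub e.continuous).continuousOn) (c := 1) one_pos (by
        intro y hy
        obtain ⟨n, hn⟩ := hθV y (hCV hy)
        exact ⟨n, by
          rw [hn]
          ring⟩) huC hs.1
    have hθs : θ s = e s := by linarith
    by_contra hcon
    push Not at hcon
    have hnb : ∀ v ∈ C, v ∉ Metric.ball (f xa) ρ' := by
      intro v hv hvb
      have h2 := hcon v hv
      rw [Metric.mem_ball] at hvb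
      linarith
    have hsO2' : s ∈ O2' := by
      rcases hV4 s (hCV hs.1) hs.2 with h2 | h2
      · rcases h2.2 with h3 | h3
        · exact h3
        · exact absurd h3 (hnb s hs.1)
      · exfalso
        have h3 := hmax s hs.1
        rw [hθs, heO2 s h2] at h3
        linarith
    have hCc : C ⊆ O1' ∪ O2' := by
      intro v hv
      rcases hV3 v (hCV hv) with h2 | h2
      · exact h2
      · exact absurd h2 (hnb v hv)
    obtain ⟨v, _, hv1, hv2⟩ := hC.2.isPreconnected O1' O2' hO1' hO2' hCc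
      ⟨u, huC, hB'1 u huB'⟩ ⟨s, hs.1, hsO2'⟩
    have h5 : v ∈ closure O1' ∩ closure O2' := ⟨subset_closure hv1, subset_closure hv2⟩
    rw [hdisj'] at h5
    exact h5
  · obtain ⟨s, hs, hsn⟩ := hex1
    refine ⟨s, (hPJG hs.1).1, ?_⟩
    rcases hcov hs with h2 | h2
    · exact absurd (hA s hs h2) hsn
    · rw [hθP s hs.1, heO2 s (hEb s hs h2)]
      exact one_pos

theorem main_sec {X Y : Type*} [MetricSpace X] [CompactSpace X] [MetricSpace Y] [CompactSpace Y]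
    [ConnectedSpace Y] {U : Set (Y × ℝ)} {f : X → Y} {g : X → ℝ} (c : Ctx U f g) :
    ∃ h : Y → ℝ, Continuous h ∧ ∀ y, (y, h y) ∈ U := by
  by_cases hgd : Gd U f g univ
  · obtain ⟨y⟩ : Nonempty Y := inferInstance
    obtain ⟨x, _⟩ := c.surj y
    obtain ⟨h, hs, _⟩ := hgd x (mem_univ _)
    exact ⟨h, hs.1, fun y => hs.2 y (mem_univ _)⟩
  · exfalso
    obtain ⟨J, hJ, hf, hm⟩ := exists_min_fail c hgd
    obtain ⟨hi, hn⟩ := min_indec c hJ hf hm
    have hex : ∃ x, f x ∈ J ∧ ∀ h, Sec U J h → ¬ Eqv U (f x) (g x) (h (f x)) := by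
      by_contra hcon
      apply hf
      intro x hx
      by_contra h2
      apply hcon
      exact ⟨x, hx, fun h hs he => h2 ⟨h, hs, he⟩⟩
    obtain ⟨xs, hxs, hbad⟩ := hex
    have m : MF U f g J xs := ⟨c, hJ, hi, hn, hm, hxs, hbad⟩
    obtain ⟨xa, hxa, t0, r, b, hr, hst, ht0, hb, rr⟩ := step_top m
    by_cases hall : ∀ G : Set Y, IsOpen G → closure G ∩ Kab (f xa) b = ∅ → (J ∩ G).Nonempty →
        ∃ s ∈ connectedComponentIn (J \ G) (f xa) ∩ closure G, f xa ∉ Kab b s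
    · exact case_one m hxa hr hst rr ht0 hall
    · push Not at hall
      obtain ⟨G, hGo, hGK, hGJ, h⟩ := hall
      exact case_two m hxa hr hst rr ht0 hGo hGK hGJ h

end Pool.Agent.H963CF
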