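import Pool.Agent.H963CF.G

set_option autoImplicit false

namespace Pool.Agent.H963CF

open Set Topology Filter
open Pool.Agent.H963CF.L739.CT (Ctm ctm_union ctm_component clopen_nhd_component cutwire bump
  crossing_real sub_of_split ctm_iInter_directed const_of_int circle_exp_eq_one circle_exp_int
  log_unique)
open Pool.Agent.H963CF.L739.CG (Good unicoherent ctm_inter)

theorem top_level (X Y : Type) [MetricSpace X] [CompactSpace X] [ConnectedSpace X]
    [MetricSpace Y] [CompactSpace Y] [ConnectedSpace Y] (f : X → Y) (hG : Good Y)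
    (hg : ∀ ε : ℝ, 0 < ε → ∃ g : X → ℝ, Continuous g ∧ Set.range g ⊆ Set.Icc 0 1 ∧
          ∀ t : ℝ, Metric.diam (g ⁻¹' {t}) < ε)
    (hf : Continuous f) (hs : Function.Surjective f)
    (hc : ∀ K : Set Y, IsCompact K → IsConnected K →
          ∀ x ∈ f ⁻¹' K, f '' connectedComponentIn (f ⁻¹' K) x = K) :
    ∀ ε : ℝ, 0 < ε → ∃ h : Y → ℝ, Continuous h ∧ Set.range h ⊆ Set.Icc 0 1 ∧
          ∀ t : ℝ, Metric.diam (h ⁻¹' {t}) < ε := by
  intro ε hε
  have hsc : SecondCountableTopology Y := EMetric.secondCountable_of_sigmaCompact Y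
  obtain ⟨ι, hι⟩ := KuratowskiEmbedding.exists_isometric_embedding Y
  obtain ⟨δ, hδ⟩ : ∃ δ : ℝ, δ = ε / 4 := ⟨_, rfl⟩
  have hδ0 : 0 < δ := by rw [hδ]; positivity
  -- Step 1
  have huc : UniformContinuous f := CompactSpace.uniformContinuous_of_continuous hf
  obtain ⟨η, hη, hfη⟩ := Metric.uniformContinuous_iff.1 huc δ hδ0
  obtain ⟨g, hgc, _, hgd⟩ := hg η hη
  have h1 : ∀ x x', g x = g x' → dist (f x) (f x') < δ := by
    intro x x' hxx
    apply hfη
    refine lt_of_le_of_lt (Metric.dist_le_diam_of_mem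
      (isCompact_univ.isBounded.subset (Set.subset_univ (g ⁻¹' {g x'}))) ?_ ?_) (hgd (g x'))
    · exact hxx
    · exact rfl
  -- Step 2
  obtain ⟨φ, hφ⟩ := exists_continuous_forall_mem_convex_of_local_const
    (X := ℝ) (E := lp (fun _ : ℕ => ℝ) ⊤)
    (t := fun s => {v | ∀ x, g x = s → v ∈ Metric.ball (ι (f x)) δ})
    (by
      intro s v1 h1 v2 h2 a b ha hb hab x hx
      exact (convex_ball (ι (f x)) δ) (h1 x hx) (h2 x hx) ha hb hab)
    (by
      intro s0
      obtain ⟨c, hc⟩ : ∃ c, ∀ x, g x = s0 → c ∈ Metric.ball (ι (f x)) δ := by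
        by_cases h0 : ∃ x0, g x0 = s0
        · obtain ⟨x0, hx0⟩ := h0
          refine ⟨ι (f x0), fun x hx => ?_⟩
          rw [Metric.mem_ball, hι.dist_eq]
          exact h1 x0 x (hx0.trans hx.symm)
        · exact ⟨0, fun x hx => absurd ⟨x, hx⟩ h0⟩
      refine ⟨c, ?_⟩
      have hK : IsCompact {x : X | δ ≤ dist c (ι (f x))} := by
        refine IsClosed.isCompact ?_
        exact isClosed_le continuous_const (continuous_const.dist (hι.continuous.comp hf))
      have hK2 : IsClosed (g '' {x : X | δ ≤ dist c (ι (f x))}) := (hK.image hgc).isClosed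
      have hs0 : s0 ∈ (g '' {x : X | δ ≤ dist c (ι (f x))})ᶜ := by
        rintro ⟨x, hx, hxs⟩
        have := hc x hxs
        rw [Metric.mem_ball] at this
        exact absurd this (not_lt.2 hx)
      filter_upwards [hK2.isOpen_compl.mem_nhds hs0] with s hs x hx
      rw [Metric.mem_ball]
      by_contra hcon
      exact hs ⟨x, not_lt.1 hcon, hx⟩)
  -- Step 3
  have hctx : Ctx {p : Y × ℝ | dist (φ p.2) (ι p.1) < δ} f g :=
    { good := hG
      hU := isOpen_lt ((φ.continuous.comp continuous_snd).dist (hι.continuous.comp continuous_fst))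
        continuous_const
      cf := hf
      cg := hgc
      surj := hs
      confl := fun Q hQ x hx => hc Q hQ.1 hQ.2 x hx
      mem := fun x => hφ (g x) x rfl }
  obtain ⟨h0, hh0c, hh0⟩ := main_sec hctx
  have h2 : ∀ y y', h0 y = h0 y' → dist y y' ≤ 2 * δ := by
    intro y y' hyy
    have a1 : dist (φ (h0 y)) (ι y) < δ := hh0 y
    have a2 : dist (φ (h0 y')) (ι y') < δ := hh0 y'
    rw [← hι.dist_eq]
    have a3 := dist_triangle_left (ι y) (ι y') (φ (h0 y))
    rw [← hyy] at a2
    linarith
  -- Step 4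
  refine ⟨fun y => Real.arctan (h0 y) / Real.pi + 1 / 2, ?_, ?_, ?_⟩
  · exact ((Real.continuous_arctan.comp hh0c).div_const _).add continuous_const
  · rintro _ ⟨y, rfl⟩
    have b1 := Real.neg_pi_div_two_lt_arctan (h0 y)
    have b2 := Real.arctan_lt_pi_div_two (h0 y)
    have hpi := Real.pi_pos
    refine ⟨?_, ?_⟩
    · have : -(1 / 2) ≤ Real.arctan (h0 y) / Real.pi := by
        rw [le_div_iff₀ hpi]
        linarith
      show (0 : ℝ) ≤ Real.arctan (h0 y) / Real.pi + 1 / 2
      linarith
    · have : Real.arctan (h0 y) / Real.pi ≤ 1 / 2 := by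
        rw [div_le_iff₀ hpi]
        linarith
      show Real.arctan (h0 y) / Real.pi + 1 / 2 ≤ (1 : ℝ)
      linarith
  · intro t
    refine lt_of_le_of_lt (Metric.diam_le_of_forall_dist_le (C := 2 * δ) (by positivity) ?_)
      (by rw [hδ]; linarith)
    intro y hy y' hy'
    apply h2
    have hpi := Real.pi_pos
    have e : Real.arctan (h0 y) / Real.pi + 1 / 2 = Real.arctan (h0 y') / Real.pi + 1 / 2 :=
      (show _ = t from hy).trans (show _ = t from hy').symm
    have e2 : Real.arctan (h0 y) = Real.arctan (h0 y') := by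
      have e3 : Real.arctan (h0 y) / Real.pi = Real.arctan (h0 y') / Real.pi := by linarith
      field_simp at e3
      exact e3
    exact Real.arctan_injective e2

end Pool.Agent.H963CF
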